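import Mathlib

/-! [LG-A5]: algebraic independence over the field generated by few numbers. -/

set_option autoImplicit false

namespace Pool.Agent.LG

/-- [LG-A5] After removing at most `N` members, the family stays algebraically independent over the
ring generated by `N` numbers `x`.  (Choose a transcendence basis of `ℚ(x, a)` which consists of a
transcendence basis of `ℚ(x)` contained in the `x_i` and of some members of `a`; compare
cardinalities with `a`.) -/
theorem indep_off {E : Type} [Fintype E] (a : E → ℂ) (ha : AlgebraicIndependent ℚ a) {N : ℕ}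
    (x : Fin N → ℂ) :
    ∃ S : Finset E, S.card ≤ N ∧
      AlgebraicIndependent (Algebra.adjoin ℚ (Set.range x)) (fun e : {e // e ∉ S} => a e) := by
  classical
  set K := Algebra.adjoin ℚ (Set.range x) with hK
  have h0 : AlgebraicIndepOn K a ((∅ : Finset E) : Set E) := by
    rw [Finset.coe_empty]
    exact algebraicIndependent_empty_type_iff.2 (FaithfulSMul.algebraMap_injective K ℂ)
  obtain ⟨F, hF, hmax⟩ : ∃ F : Finset E, AlgebraicIndepOn K a (F : Set E) ∧
      ∀ G : Finset E, AlgebraicIndepOn K a (G : Set E) → G.card ≤ F.card := by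
    obtain ⟨F, hF, hm⟩ := Finset.exists_max_image
      (Finset.univ.filter fun F : Finset E => AlgebraicIndepOn K a (F : Set E)) Finset.card
      ⟨∅, by rw [Finset.mem_filter]; exact ⟨Finset.mem_univ _, h0⟩⟩
    rw [Finset.mem_filter] at hF
    refine ⟨F, hF.2, fun G hG => hm G ?_⟩
    rw [Finset.mem_filter]
    exact ⟨Finset.mem_univ _, hG⟩
  have halg : ∀ e, IsAlgebraic (Algebra.adjoin ℚ (Set.range x ∪ a '' (F : Set E))) (a e) := by
    intro e
    rw [Algebra.adjoin_union_eq_adjoin_adjoin]
    change IsAlgebraic (Algebra.adjoin K (a '' (F : Set E))) (a e)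
    by_cases he : e ∈ F
    · exact isAlgebraic_algebraMap
        (⟨a e, Algebra.subset_adjoin ⟨e, he, rfl⟩⟩ : Algebra.adjoin K (a '' (F : Set E)))
    · by_contra htr
      have h1 := (AlgebraicIndepOn.insert_iff (R := K) (x := a) (s := (F : Set E)) (i := e)
        (fun h => he (Finset.mem_coe.1 h))).2 ⟨hF, htr⟩
      rw [← Finset.coe_insert] at h1
      have h2 := hmax _ h1
      rw [Finset.card_insert_of_notMem he] at h2
      omega
  have hr : (Set.range a).encard ≤ (Set.range x ∪ a '' (F : Set E)).encard := by
    have hind : (AlgebraicIndependent.matroid ℚ ℂ).Indep (Set.range a) :=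
      (algebraicIndependent_subtype_range ha.injective).2 ha
    have hsub : Set.range a ⊆
        (AlgebraicIndependent.matroid ℚ ℂ).closure (Set.range x ∪ a '' (F : Set E)) := by
      rw [AlgebraicIndependent.matroid_closure_eq]
      rintro _ ⟨e, rfl⟩
      exact halg e
    calc (Set.range a).encard = (AlgebraicIndependent.matroid ℚ ℂ).eRk (Set.range a) :=
          hind.eRk_eq_encard.symm
      _ ≤ (AlgebraicIndependent.matroid ℚ ℂ).eRk
          ((AlgebraicIndependent.matroid ℚ ℂ).closure (Set.range x ∪ a '' (F : Set E))) :=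
          (AlgebraicIndependent.matroid ℚ ℂ).eRk_mono hsub
      _ = (AlgebraicIndependent.matroid ℚ ℂ).eRk (Set.range x ∪ a '' (F : Set E)) :=
          (AlgebraicIndependent.matroid ℚ ℂ).eRk_closure_eq _
      _ ≤ _ := (AlgebraicIndependent.matroid ℚ ℂ).eRk_le_encard _
  have hcard : Fintype.card E ≤ N + F.card := by
    have h1 : (Fintype.card E : ℕ∞) ≤ (Set.range a).encard := by
      rw [← ENat.card_eq_coe_fintype_card]
      exact ha.injective.encard_range
    have h2 : (Set.range x).encard ≤ (N : ℕ∞) := by
      rw [← Set.image_univ]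
      refine (Set.encard_image_le x Set.univ).trans ?_
      rw [Set.encard_univ, ENat.card_eq_coe_fintype_card, Fintype.card_fin]
    have h3 : (a '' (F : Set E)).encard ≤ (F.card : ℕ∞) := by
      refine (Set.encard_image_le a _).trans ?_
      rw [Set.encard_coe_eq_coe_finsetCard]
    have h4 := h1.trans (hr.trans ((Set.encard_union_le _ _).trans (add_le_add h2 h3)))
    exact_mod_cast h4
  refine ⟨Fᶜ, ?_, ?_⟩
  · rw [Finset.card_compl]
    omega
  · exact hF.comp (fun e : {e // e ∉ Fᶜ} => (⟨e, by
      have h := e.2
      rw [Finset.mem_compl, not_not] at h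
      exact h⟩ : (F : Set E))) (fun e e' h => Subtype.ext (congrArg (fun t : (F : Set E) => (t : E)) h))

end Pool.Agent.LG
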