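import Pool.Agent.Lib_MP_b9fedf_lo.HypAll

/-! Reduction of a curve to its linear span; tangent lines. -/

set_option autoImplicit false

namespace Pool.Agent.LG
open Pool.Agent.GGL Pool.Agent.Stat Pool.Agent.LO

/-- a non-constant curve, in coordinates of its linear span -/
theorem span_reduce {N : ℕ} (f : ℂ → Fin N → ℂ) (hf : Differentiable ℂ f) (hf0 : ∀ z, f z ≠ 0)
    (hnc : ¬ ∀ z w, ∃ c : ℂ, f w = c • f z) :
    ∃ (m : ℕ) (g : ℂ → Fin (m + 1) → ℂ) (B : Fin N → Fin (m + 1) → ℂ) (κ : Fin (m + 1) → Fin N),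
      1 ≤ m ∧ m + 1 ≤ N ∧ Differentiable ℂ g ∧ (∀ z, g z ≠ 0) ∧
      LinearIndependent ℂ (fun (c : Fin (m + 1)) z => g z c) ∧
      (∀ z j, f z j = ∑ c, B j c * g z c) ∧ (∀ z c, g z c = f z (κ c)) ∧
      (∀ c c', B (κ c) c' = if c = c' then 1 else 0) ∧ Function.Injective κ := by
  classical
  have hfd : ∀ a, Differentiable ℂ (fun z => f z a) := fun a => differentiable_pi.1 hf a
  set F : Fin N → ℂ → ℂ := fun i z => f z i with hF
  obtain ⟨κ₀, a, ha, hsp, hli⟩ := exists_linearIndependent' ℂ F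
  have : Fintype κ₀ := Fintype.ofInjective a ha
  obtain ⟨r, ⟨e⟩⟩ : ∃ r, Nonempty (κ₀ ≃ Fin r) := ⟨Fintype.card κ₀, ⟨Fintype.equivFin κ₀⟩⟩
  set κ : Fin r → Fin N := fun i => a (e.symm i) with hκ'
  have hκinj : Function.Injective κ := ha.comp e.symm.injective
  have hli' : LinearIndependent ℂ (fun i => F (κ i)) := hli.comp e.symm e.symm.injective
  have hmem : ∀ k, F k ∈ Submodule.span ℂ (Set.range (fun i => F (κ i))) := by
    intro k
    have h1 : F k ∈ Submodule.span ℂ (Set.range (F ∘ a)) := by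
      rw [hsp]
      exact Submodule.subset_span ⟨k, rfl⟩
    have h2 : Set.range (F ∘ a) = Set.range (fun i => F (κ i)) := by
      ext x
      constructor
      · rintro ⟨y, rfl⟩
        exact ⟨e y, by simp [hκ']⟩
      · rintro ⟨y, rfl⟩
        exact ⟨e.symm y, rfl⟩
    rwa [h2] at h1
  have hB : ∀ k, ∃ B : Fin r → ℂ, ∑ b, B b • F (κ b) = F k := fun k =>
    (Submodule.mem_span_range_iff_exists_fun ℂ).mp (hmem k)
  choose B hB using hB
  have hr : r ≤ N := by simpa using Fintype.card_le_of_injective κ hκinj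
  rcases r with _ | _ | m
  · exfalso
    apply hf0 0
    funext k
    have h1 := congrFun (hB k) 0
    simp at h1
    exact h1.symm
  · exfalso
    apply hnc
    intro z w
    have h1 : ∀ k z, f z k = B k 0 * f z (κ 0) := by
      intro k z
      have := congrFun (hB k) z
      rw [Fin.sum_univ_one] at this
      exact this.symm
    have h2 : ∀ z, f z (κ 0) ≠ 0 := by
      intro z h0
      apply hf0 z
      funext k
      rw [h1 k z, h0, mul_zero]
      rfl
    refine ⟨f w (κ 0) / f z (κ 0), ?_⟩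
    funext k
    rw [Pi.smul_apply, smul_eq_mul, h1 k w, h1 k z]
    field_simp [h2 z]
  have hBκ : ∀ b b', B (κ b) b' = if b = b' then 1 else 0 := by
    intro b b'
    have h1 := hB (κ b)
    have h2 : ∑ b', (B (κ b) b' - if b = b' then 1 else 0) • F (κ b') = 0 := by
      simp only [sub_smul, Finset.sum_sub_distrib, ite_smul, one_smul, zero_smul,
        Finset.sum_ite_eq, Finset.mem_univ, if_true]
      rw [h1, sub_self]
    have h3 := (Fintype.linearIndependent_iff.mp hli') _ h2 b'
    exact sub_eq_zero.mp h3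
  set g : ℂ → Fin (m + 1 + 1) → ℂ := fun z b => f z (κ b) with hg
  have hgd : Differentiable ℂ g := differentiable_pi.mpr fun b => hfd (κ b)
  have hfg : ∀ z k, f z k = ∑ b, B k b * g z b := by
    intro z k
    have h1 := congrFun (hB k) z
    rw [Finset.sum_apply] at h1
    exact h1.symm
  have hg0 : ∀ z, g z ≠ 0 := by
    intro z h0
    apply hf0 z
    funext k
    rw [hfg z k, h0]
    simp
  exact ⟨m + 1, g, B, κ, by omega, hr, hgd, hg0, hli', hfg, fun _ _ => rfl, hBκ, hκinj⟩

/-- the tangent line of a non-constant curve at some point -/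
theorem exists_tangent {N : ℕ} (f : ℂ → Fin N → ℂ) (hf : Differentiable ℂ f) (hf0 : ∀ z, f z ≠ 0)
    (hnc : ¬ ∀ z w, ∃ c : ℂ, f w = c • f z) :
    ∃ z, LinearIndependent ℂ ![f z, fun j => deriv (fun x => f x j) z] := by
  obtain ⟨m, g, B, κ, hm, -, hg, -, hli, -, hgκ, -, hκ⟩ := span_reduce f hf hf0 hnc
  -- two linearly independent coordinates
  set e : Fin 2 → Fin (m + 1) := ![0, ⟨1, by omega⟩] with he
  have hei : Function.Injective e := by
    intro x y hxy
    fin_cases x <;> fin_cases y <;> simp_all [e, Fin.ext_iff]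
  have hli2 : LinearIndependent ℂ (fun i : Fin 2 => fun z => g z (e i)) := hli.comp e hei
  have hd : ∀ i : Fin 2, Differentiable ℂ (fun z => g z (e i)) := fun i =>
    differentiable_pi.1 hg (e i)
  obtain ⟨z, hz⟩ := exists_Wr_ne_zero (fun i : Fin 2 => fun z => g z (e i)) hd hli2
  refine ⟨z, ?_⟩
  rw [LinearIndependent.pair_iff]
  intro s t hst
  have h1 : ∀ i : Fin 2, s * g z (e i) + t * deriv (fun x => g x (e i)) z = 0 := by
    intro i
    have h2 := congrFun hst (κ (e i))
    simp only [Pi.add_apply, Pi.smul_apply, smul_eq_mul, Pi.zero_apply] at h2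
    have h3 : (fun x => g x (e i)) = fun x => f x (κ (e i)) := funext fun x => hgκ x _
    rw [h3, hgκ]
    exact h2
  by_contra hcon
  apply hz
  have h4 : Wr (fun i : Fin 2 => fun z => g z (e i)) z =
      g z (e 0) * deriv (fun x => g x (e 1)) z - g z (e 1) * deriv (fun x => g x (e 0)) z := by
    simp only [Wr, Matrix.det_fin_two, Matrix.of_apply, Fin.val_zero, Fin.val_one,
      iteratedDeriv_zero, iteratedDeriv_one]
    try ring
  rw [h4]
  have h5 := h1 0
  have h6 := h1 1
  by_cases hs : s = 0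
  · have ht : t ≠ 0 := fun ht => hcon ⟨hs, ht⟩
    subst hs
    rw [zero_mul, zero_add, mul_eq_zero] at h5 h6
    rw [h5.resolve_left ht, h6.resolve_left ht]
    ring
  · apply mul_left_cancel₀ hs
    rw [mul_zero]
    linear_combination deriv (fun x => g x (e 1)) z * h5 - deriv (fun x => g x (e 0)) z * h6

/-- numerical transfer between the curve and its coordinates -/
theorem transfer {κf κg Tf Tg N K c r : ℝ} (h0 : 0 ≤ κf) (hfg : κf ≤ κg) (hc : 0 ≤ c)
    (h1 : Tf ≤ Tg + c) (h2 : Tg ≤ Tf + c) (h3 : -c ≤ Tg) (hr : 1 ≤ r)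
    (h : κg * Tg ≤ N + K * (Real.posLog Tg + Real.log r + 1)) :
    κf * Tf ≤ N + (|K| * (1 + Real.log 2 + Real.posLog c) + κg * c) *
      (Real.posLog Tf + Real.log r + 1) := by
  have hpt : 0 ≤ Real.posLog Tg := Real.posLog_nonneg
  have hpT : 0 ≤ Real.posLog Tf := Real.posLog_nonneg
  have hpc : 0 ≤ Real.posLog c := Real.posLog_nonneg
  have hl : 0 ≤ Real.log r := Real.log_nonneg hr
  have hl2 : 0 ≤ Real.log 2 := Real.log_nonneg (by norm_num)
  have h5 : Real.posLog Tg ≤ Real.log 2 + Real.posLog Tf + Real.posLog c := by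
    have e1 : Real.posLog Tg ≤ Real.log 2 + Real.posLog Tf + Real.posLog (Tg - Tf) := by
      have := Real.posLog_add (x := Tf) (y := Tg - Tf)
      rwa [add_sub_cancel] at this
    have e2 : Real.posLog (Tg - Tf) ≤ Real.posLog c := by
      rw [← Real.posLog_abs]
      exact Real.posLog_le_posLog (abs_nonneg _) (abs_le.mpr ⟨by linarith, by linarith⟩)
    linarith
  set X : ℝ := Real.posLog Tf + Real.log r + 1 with hX
  have hX1 : 1 ≤ X := by linarith
  have h6 : K * (Real.posLog Tg + Real.log r + 1) ≤ |K| * (1 + Real.log 2 + Real.posLog c) * X := by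
    have e1 : Real.posLog Tg + Real.log r + 1 ≤ (1 + Real.log 2 + Real.posLog c) * X := by
      have e2 : 0 ≤ (Real.log 2 + Real.posLog c) * (X - 1) :=
        mul_nonneg (by linarith) (by linarith)
      nlinarith
    have e3 : K * (Real.posLog Tg + Real.log r + 1) ≤ |K| * (Real.posLog Tg + Real.log r + 1) :=
      mul_le_mul_of_nonneg_right (le_abs_self K) (by linarith)
    have e4 := mul_le_mul_of_nonneg_left e1 (abs_nonneg K)
    rw [← mul_assoc] at e4
    linarith
  have h7 : κf * Tf ≤ κg * Tg + κg * c := by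
    have e1 : κf * Tf ≤ κf * (Tg + c) := mul_le_mul_of_nonneg_left h1 h0
    have e2 : κf * (Tg + c) ≤ κg * (Tg + c) := mul_le_mul_of_nonneg_right hfg (by linarith)
    linarith
  have h8 : κg * c ≤ κg * c * X := le_mul_of_one_le_right (mul_nonneg (h0.trans hfg) hc) hX1
  have h9 : (|K| * (1 + Real.log 2 + Real.posLog c) + κg * c) * X =
    |K| * (1 + Real.log 2 + Real.posLog c) * X + κg * c * X := by ring
  rw [h9]
  linarith

end Pool.Agent.LG
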