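import Pool.Agent.Lib_MP_b9fedf_lg.Defs

/-! [LG-A6]: the choice of coordinates. -/

set_option autoImplicit false

namespace Pool.Agent.LG
open MvPolynomial

/-- a nonzero polynomial has a nonzero value -/
theorem exists_eval_ne {σ : Type} {Q : MvPolynomial σ ℂ} (hQ : Q ≠ 0) : ∃ x, eval x Q ≠ 0 := by
  by_contra hc
  push Not at hc
  exact hQ (MvPolynomial.funext fun x => by rw [hc x, map_zero])

/-- a nonzero polynomial has a nonzero value at integers -/
theorem exists_int_eval_ne {σ : Type} {Q : MvPolynomial σ ℂ} (hQ : Q ≠ 0) :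
    ∃ g : σ → ℤ, eval (fun p => (g p : ℂ)) Q ≠ 0 := by
  by_contra hc
  push Not at hc
  refine hQ (MvPolynomial.funext_set (fun _ => Set.range (Int.cast : ℤ → ℂ))
    (fun _ => Set.infinite_range_of_injective Int.cast_injective) fun x hx => ?_)
  have h1 : ∀ p, ∃ m : ℤ, (m : ℂ) = x p := fun p => hx p (Set.mem_univ _)
  choose g hg using h1
  have h2 : x = fun p => (g p : ℂ) := by
    funext p
    exact (hg p).symm
  rw [h2, hc g, map_zero]

/-- there are parameters at which a universal polynomial does not vanish -/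
theorem exists_spec_ne {σ ι : Type} {N : ℕ} (P : MvPolynomial σ (MvPolynomial (ι × Fin N) ℚ))
    (hP : P ≠ 0) : ∃ b : ι → Fin N → ℂ, spec b P ≠ 0 := by
  obtain ⟨m, hm⟩ := MvPolynomial.ne_zero_iff.1 hP
  have h1 : MvPolynomial.map (algebraMap ℚ ℂ) (coeff m P) ≠ 0 := by
    intro h
    exact hm (MvPolynomial.map_injective _ (algebraMap ℚ ℂ).injective (by rw [h, map_zero]))
  obtain ⟨x, hx⟩ := exists_eval_ne h1
  refine ⟨fun i j => x (i, j), fun h => hx ?_⟩
  have h2 := congrArg (coeff m) h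
  unfold spec at h2
  rw [coeff_map, coeff_zero] at h2
  rw [eval_map]
  exact h2

/-- values of homogeneous polynomials -/
theorem eval_smul_hom {σ : Type} [Fintype σ] {w : ℕ} {Q : MvPolynomial σ ℂ}
    (hQ : Q.IsHomogeneous w) (c : ℂ) (Z : σ → ℂ) :
    eval (fun i => c * Z i) Q = c ^ w * eval Z Q := by
  rw [eval_eq', eval_eq', Finset.mul_sum]
  refine Finset.sum_congr rfl fun d hd => ?_
  have h1 : ∑ i, d i = w := by
    have h2 := hQ (mem_support_iff.1 hd)
    rw [← h2, Finsupp.weight_apply, Finsupp.sum_fintype _ _ (by simp)]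
    simp
  have h3 : ∏ i, (c * Z i) ^ d i = c ^ w * ∏ i, Z i ^ d i := by
    rw [← h1, ← Finset.prod_pow_eq_pow_sum, ← Finset.prod_mul_distrib]
    exact Finset.prod_congr rfl fun i _ => mul_pow _ _ _
  rw [h3]
  ring

theorem spec_hom {σ ι : Type} {N w : ℕ} {P : MvPolynomial σ (MvPolynomial (ι × Fin N) ℚ)}
    (hP : P.IsHomogeneous w) (b : ι → Fin N → ℂ) : (spec b P).IsHomogeneous w := by
  unfold spec
  exact hP.map _

/-- Plücker coordinates and ring homomorphisms -/
theorem map_pl {R S : Type} [CommRing R] [CommRing S] (f : R →+* S) {k : ℕ}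
    (u v : Fin (k + 3) → R) (x : V k) : f (pl u v x) = pl (fun i => f (u i)) (fun i => f (v i)) x := by
  rcases x with _ | x | x <;> simp [pl]

theorem pl_smul {k : ℕ} (c : ℂ) (u v : Fin (k + 3) → ℂ) :
    pl (c • u) (c • v) = fun i => c ^ 2 * pl u v i := by
  funext x
  rcases x with _ | x | x <;> simp [pl] <;> ring

/-- a line with given Plücker coordinates -/
theorem exists_pl {k : ℕ} (Z : V k → ℂ) (hZ : Z (Sum.inl ()) ≠ 0) :
    ∃ u v : Fin (k + 3) → ℂ, LinearIndependent ℂ ![u, v] ∧ pl u v = Z := by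
  obtain ⟨z, hz⟩ : ∃ z, z = Z (Sum.inl ()) := ⟨_, rfl⟩
  rw [← hz] at hZ
  refine ⟨Fin.cons 1 (Fin.cons 0 fun j => -(Z (Sum.inr (Sum.inr j)) / z)),
    Fin.cons 0 (Fin.cons z fun j => Z (Sum.inr (Sum.inl j))), ?_, ?_⟩
  · rw [LinearIndependent.pair_iff]
    intro s t h
    have h0 := congrFun h 0
    have h1 := congrFun h 1
    simp only [Pi.add_apply, Pi.smul_apply, smul_eq_mul, Pi.zero_apply] at h0 h1
    have e1 : (1 : Fin (k + 3)) = Fin.succ 0 := rfl
    rw [e1, Fin.cons_succ, Fin.cons_succ, Fin.cons_zero, Fin.cons_zero] at h1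
    rw [Fin.cons_zero, Fin.cons_zero] at h0
    have hs : s = 0 := by linear_combination h0
    refine ⟨hs, ?_⟩
    rw [hs] at h1
    have h2 : t * z = 0 := by linear_combination h1
    exact (mul_eq_zero.1 h2).resolve_right hZ
  · funext x
    have e1 : (1 : Fin (k + 3)) = Fin.succ 0 := rfl
    rcases x with x | x | x
    · simp only [pl, Sum.elim_inl, e1, Fin.cons_succ, Fin.cons_zero]
      rw [hz]
      ring
    · simp only [pl, Sum.elim_inl, Sum.elim_inr, Fin.cons_succ, Fin.cons_zero]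
      ring
    · simp only [pl, Sum.elim_inr, e1, Fin.cons_succ, Fin.cons_zero]
      field_simp
      ring

/-- there is an invertible matrix which sends two independent vectors to two others -/
theorem exists_matrix {N : ℕ} {u v u0 v0 : Fin N → ℂ} (h : LinearIndependent ℂ ![u, v])
    (h0 : LinearIndependent ℂ ![u0, v0]) :
    ∃ A : Matrix (Fin N) (Fin N) ℂ, A.det ≠ 0 ∧ A.adjugate.mulVec u = A.det • u0 ∧
      A.adjugate.mulVec v = A.det • v0 := by
  obtain ⟨g, hg⟩ := Submodule.exists_linearEquiv_restrict_eq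
    ((Module.Basis.span h).equiv (Module.Basis.span h0) (Equiv.refl _))
  have e : ∀ i, g (![u, v] i) = ![u0, v0] i := by
    intro i
    have h1 := hg (Module.Basis.span h i)
    rw [Module.Basis.equiv_apply, Equiv.refl_apply] at h1
    have h2 : ((Module.Basis.span h i : Submodule.span ℂ (Set.range ![u, v])) : Fin N → ℂ) =
        ![u, v] i := by rw [Module.Basis.span_apply h i]
    have h3 : ((Module.Basis.span h0 i : Submodule.span ℂ (Set.range ![u0, v0])) : Fin N → ℂ) =
        ![u0, v0] i := by rw [Module.Basis.span_apply h0 i]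
    rw [h2, h3] at h1
    exact h1.symm
  have e0 : g u = u0 := e 0
  have e1 : g v = v0 := e 1
  obtain ⟨A, hA⟩ : ∃ A, A = LinearMap.toMatrix' (g.symm : (Fin N → ℂ) →ₗ[ℂ] (Fin N → ℂ)) := ⟨_, rfl⟩
  have hAv : ∀ x, A.mulVec x = g.symm x := by
    intro x
    rw [hA, LinearMap.toMatrix'_mulVec]
    rfl
  have hdet : A.det ≠ 0 := by
    rw [hA, LinearMap.det_toMatrix']
    exact g.symm.isUnit_det'.ne_zero
  have key : ∀ x y, g x = y → A.adjugate.mulVec x = A.det • y := by
    intro x y hxy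
    have h1 : A.mulVec y = x := by
      rw [hAv, ← hxy, LinearEquiv.symm_apply_apply]
    rw [← h1, Matrix.mulVec_mulVec, Matrix.adjugate_mul, Matrix.smul_mulVec, Matrix.one_mulVec]
  exact ⟨A, hdet, key u u0 e0, key v v0 e1⟩

/-- [LG-A6] For a nonzero universal polynomial `P` and a line through `u`, `v` there are an integral
matrix `g` and values `b` such that `P_b` does not vanish at the line `g⁻¹ (u, v)`.
(Choose `b` with `spec b P ≠ 0`, then `Z` with `Z (inl ()) ≠ 0` and `eval Z (spec b P) ≠ 0`, then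
`u₀ v₀` with `pl u₀ v₀ = Z`, then an invertible complex matrix `M` with `M u = u₀`, `M v = v₀`.
The polynomial `det g * eval (pl (adjugate g u) (adjugate g v)) (spec b P)` in the entries of `g` is
nonzero at `g = M⁻¹`, so it is nonzero at an integral matrix: `MvPolynomial.funext_set`.) -/
theorem exists_integral {k w : ℕ} {ι : Type} [Fintype ι]
    (P : MvPolynomial (V k) (MvPolynomial (ι × Fin (k + 3)) ℚ)) (hP : P ≠ 0)
    (hPh : P.IsHomogeneous w) (u v : Fin (k + 3) → ℂ) (huv : LinearIndependent ℂ ![u, v]) :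
    ∃ (g : Matrix (Fin (k + 3)) (Fin (k + 3)) ℤ) (b : ι → Fin (k + 3) → ℂ), g.det ≠ 0 ∧
      eval (pl ((g.map (Int.cast : ℤ → ℂ)).adjugate.mulVec u)
        ((g.map (Int.cast : ℤ → ℂ)).adjugate.mulVec v)) (spec b P) ≠ 0 := by
  obtain ⟨b, hb⟩ := exists_spec_ne P hP
  obtain ⟨Q, hQ⟩ : ∃ Q, Q = spec b P := ⟨_, rfl⟩
  have hQh : Q.IsHomogeneous w := by
    rw [hQ]
    exact spec_hom hPh b
  rw [← hQ] at hb
  obtain ⟨Z, hZ⟩ := exists_eval_ne (mul_ne_zero (X_ne_zero (R := ℂ) (Sum.inl () : V k)) hb)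
  rw [map_mul, eval_X] at hZ
  obtain ⟨u0, v0, h0, hpl⟩ := exists_pl Z (left_ne_zero_of_mul hZ)
  obtain ⟨A, hA, hAu, hAv⟩ := exists_matrix huv h0
  -- the polynomial in the entries
  obtain ⟨G, hG⟩ : ∃ G : Matrix (Fin (k + 3)) (Fin (k + 3))
      (MvPolynomial (Fin (k + 3) × Fin (k + 3)) ℂ), G = Matrix.mvPolynomialX _ _ ℂ := ⟨_, rfl⟩
  obtain ⟨R, hR⟩ : ∃ R : MvPolynomial (Fin (k + 3) × Fin (k + 3)) ℂ,
      R = G.det * aeval (pl (G.adjugate.mulVec fun i => C (u i))
        (G.adjugate.mulVec fun i => C (v i))) Q := ⟨_, rfl⟩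
  have hev : ∀ M : Matrix (Fin (k + 3)) (Fin (k + 3)) ℂ, eval (fun p => M p.1 p.2) R =
      M.det * eval (pl (M.adjugate.mulVec u) (M.adjugate.mulVec v)) Q := by
    intro M
    obtain ⟨f, hf⟩ : ∃ f : MvPolynomial (Fin (k + 3) × Fin (k + 3)) ℂ →+* ℂ,
        f = eval (fun p => M p.1 p.2) := ⟨_, rfl⟩
    have h1 : f.mapMatrix G = M := by
      rw [hf, hG]
      exact Matrix.mvPolynomialX_mapMatrix_eval M
    have h2 : f G.det = M.det := by rw [RingHom.map_det, h1]
    have h3 : f.mapMatrix G.adjugate = M.adjugate := by rw [RingHom.map_adjugate, h1]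
    have h4 : ∀ x : Fin (k + 3) → ℂ, (fun i => f ((G.adjugate.mulVec fun i => C (x i)) i)) =
        M.adjugate.mulVec x := by
      intro x
      funext i
      rw [← h3]
      simp only [Matrix.mulVec, dotProduct, map_sum, map_mul, RingHom.mapMatrix_apply,
        Matrix.map_apply]
      refine Finset.sum_congr rfl fun j _ => ?_
      rw [hf, eval_C]
    rw [hR, ← hf, map_mul, h2]
    congr 1
    have h5 : f (aeval (pl (G.adjugate.mulVec fun i => C (u i))
        (G.adjugate.mulVec fun i => C (v i))) Q) =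
        eval₂ (f.comp C) (fun x => f (pl (G.adjugate.mulVec fun i => C (u i))
        (G.adjugate.mulVec fun i => C (v i)) x)) Q := by
      rw [aeval_def, hom_eval₂]
      rfl
    rw [h5]
    have h6 : f.comp C = RingHom.id ℂ := by
      ext x
      rw [hf]
      simp
    have h7 : (fun x => f (pl (G.adjugate.mulVec fun i => C (u i))
        (G.adjugate.mulVec fun i => C (v i)) x)) =
        pl (M.adjugate.mulVec u) (M.adjugate.mulVec v) := by
      funext x
      rw [map_pl, h4, h4]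
    rw [h6, h7]
    rfl
  have hR0 : R ≠ 0 := by
    intro h
    have h1 := hev A
    rw [h, map_zero, hAu, hAv, pl_smul, eval_smul_hom hQh, hpl] at h1
    have h2 : A.det * ((A.det ^ 2) ^ w * eval Z Q) ≠ 0 :=
      mul_ne_zero hA (mul_ne_zero (pow_ne_zero _ (pow_ne_zero _ hA)) (right_ne_zero_of_mul hZ))
    exact h2 h1.symm
  obtain ⟨g, hg⟩ := exists_int_eval_ne hR0
  refine ⟨Matrix.of fun i j => g (i, j), b, ?_, ?_⟩
  · intro h
    apply hg
    have h1 := hev ((Matrix.of fun i j => g (i, j)).map (Int.cast : ℤ → ℂ))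
    have h2 : ((Matrix.of fun i j => g (i, j)).map (Int.cast : ℤ → ℂ)).det = 0 := by
      have := Int.cast_det (R := ℂ) (Matrix.of fun i j => g (i, j))
      rw [h] at this
      simpa using this.symm
    rw [h2, zero_mul] at h1
    exact h1
  · intro h
    apply hg
    have h1 := hev ((Matrix.of fun i j => g (i, j)).map (Int.cast : ℤ → ℂ))
    rw [hQ, h, mul_zero] at h1
    rw [hQ] at *
    exact h1

end Pool.Agent.LG
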