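import Pool.Agent.Lib_MP_b9fedf_lg.SmtGeneric
import Pool.Agent.Lib_MP_b9fedf_lo.HypMult

/-! Varieties over projective space which are ramified over general hyperplanes. -/

set_option autoImplicit false

namespace Pool.Agent.LG
open MvPolynomial Pool.Agent.GGL Pool.Agent.SQ Pool.Agent.QY Pool.Agent.Stat Pool.Agent.LO

/-- the error term -/
def err (k s : ℕ) : ℝ := ((k : ℝ) + 1) * (4 * s - 2) + (k + 2) ^ 2

theorem err_pos {k s : ℕ} (hs : 2 ≤ s) : 0 < err k s := by
  have hs1 : (2 : ℝ) ≤ s := by exact_mod_cast hs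
  have hk0 : (0 : ℝ) ≤ k := Nat.cast_nonneg k
  have h1 : 0 ≤ ((k : ℝ) + 1) * (4 * s - 2) := mul_nonneg (by linarith) (by linarith)
  have h2 : 0 < ((k : ℝ) + 2) ^ 2 := by positivity
  unfold err
  linarith

/-- members of a family in general position -/
theorem GenForm.ne_zero {k s : ℕ} {ι : Type} {a : ι → Fin (k + 3) → ℂ} (h : GenForm s a) (i : ι) :
    a i ≠ 0 := by
  have h1 := h.1 {i} (by simp)
  exact h1.ne_zero ⟨i, Finset.mem_singleton_self i⟩

theorem GenForm.injective {k s : ℕ} {ι : Type} [DecidableEq ι] {a : ι → Fin (k + 3) → ℂ}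
    (h : GenForm s a) : Function.Injective a := by
  intro i j hij
  by_contra hne
  have h1 := h.1 {i, j} ((Finset.card_insert_le _ _).trans (by simp))
  have h2 : (⟨i, Finset.mem_insert_self i _⟩ : ({i, j} : Finset ι)) =
      ⟨j, Finset.mem_insert_of_mem (Finset.mem_singleton_self j)⟩ := h1.injective hij
  exact hne (congrArg (fun v : ({i, j} : Finset ι) => (v : ι)) h2)

open scoped Classical in
/-- the level one second main theorem for the forms `lin (a i)`, `i ∈ T` -/
theorem level_T {k s : ℕ} {ι : Type} [Fintype ι] (hs : 2 ≤ s) (a : ι → Fin (k + 3) → ℂ)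
    (ha : GenForm s a) (T : Finset ι) (q : Ideal (MvPolynomial (Fin (k + 3)) ℂ))
    (Z : MvPolynomial (Fin (k + 3)) ℂ) {η : ℝ} (hη : (1 - η) * T.card = T.card - err k s) :
    LevelOne η q (T.image fun i => lin (a i)) Z := by
  intro f hf hf0 _ _ hfc
  have haT : GenForm s (fun i : T => a i) := ha.comp (fun i : T => (i : ι)) Subtype.val_injective
  obtain ⟨K, E, hE, hK⟩ := smt_all hs (fun i : T => a i) haT f hf hf0 hfc
  refine ⟨K, E, hE, fun r hr hrE => ?_⟩
  have h1 := hK r hr hrE
  have hinj : Set.InjOn (fun i => lin (a i)) (T : Set ι) :=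
    fun i _ j _ h => ha.injective (lin_inj h)
  have h2 : ∑ P ∈ T.image (fun i => lin (a i)), (P.totalDegree : ℝ) = T.card := by
    rw [Finset.sum_image hinj]
    have h4 : ∀ i ∈ T, ((lin (a i)).totalDegree : ℝ) = 1 := by
      intro i _
      rw [lin_totalDegree (ha.ne_zero i), Nat.cast_one]
    rw [Finset.sum_congr rfl h4]
    simp
  have h3 : ∑ P ∈ T.image (fun i => lin (a i)), Nbar (fun z => eval (f z) P) r =
      ∑ i : T, Nbar (fun z => ∑ j, a i j * f z j) r := by
    rw [Finset.sum_image hinj, Finset.sum_coe_sort T (fun i => Nbar (fun z => ∑ j, a i j * f z j) r)]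
    refine Finset.sum_congr rfl fun i _ => ?_
    congr 1
    funext z
    exact eval_lin_dot (a i) (f z)
  rw [h2, h3, hη]
  rw [Fintype.card_coe] at h1
  have h5 : (T.card : ℝ) - err k s = (T.card : ℝ) - (k + 1) * (4 * s - 2) - (k + 2) ^ 2 := by
    unfold err
    ring
  rw [h5]
  exact h1

open scoped Classical in
/-- curves of varieties ramified on average over the members `i ∈ T` -/
theorem curves_T {k s : ℕ} {ι : Type} [Fintype ι] (hs : 2 ≤ s) (a : ι → Fin (k + 3) → ℂ)
    (ha : GenForm s a) (T : Finset ι) {ρ : ℝ} (hρ0 : 0 ≤ ρ)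
    (hρ : ρ * T.card < T.card - err k s) {m : ℕ} (S : Set (MvPolynomial (Fin (m + 1)) ℂ))
    (φ : Fin (k + 3) → MvPolynomial (Fin (m + 1)) ℂ)
    (hR : RamifiedOnAverage ρ S φ (T.image fun i => lin (a i))) :
    CurvesIn S (aeval φ (∏ i ∈ T, lin (a i))) φ := by
  have hTc : (0 : ℝ) < T.card := by
    have h1 : 0 ≤ ρ * T.card := mul_nonneg hρ0 (Nat.cast_nonneg _)
    have h2 := err_pos (k := k) hs
    linarith
  have hTn : 0 < T.card := by exact_mod_cast hTc
  set η : ℝ := 1 - (T.card - err k s) / T.card with hη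
  have h1η : (1 - η) * T.card = T.card - err k s := by
    rw [hη]
    field_simp
    ring
  have hρη : ρ < 1 - η := by
    have h1 : ρ * T.card < (1 - η) * T.card := by rw [h1η]; exact hρ
    exact lt_of_mul_lt_mul_right h1 hTc.le
  have hL := level_T hs a ha T ⊥ (∏ i ∈ T, lin (a i)) h1η
  have hDn : (T.image fun i => lin (a i)).Nonempty := by
    rw [Finset.image_nonempty]
    exact Finset.card_pos.mp hTn
  have hmem : ∀ P ∈ T.image (fun i => lin (a i)), ∃ i ∈ T, lin (a i) = P := by
    intro P hP
    simpa using hP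
  have hDh : ∀ P ∈ T.image (fun i => lin (a i)),
      1 ≤ P.totalDegree ∧ P.IsHomogeneous P.totalDegree := by
    intro P hP
    obtain ⟨i, hi, rfl⟩ := hmem P hP
    rw [lin_totalDegree (ha.ne_zero i)]
    exact ⟨le_rfl, lin_homogeneous (a i)⟩
  have hZh : (∏ i ∈ T, lin (a i)).IsHomogeneous T.card := by
    have h1 := IsHomogeneous.prod T (fun i => lin (a i)) (fun _ => 1)
      fun i _ => lin_homogeneous (a i)
    simpa using h1
  have hbot : HomI (⊥ : Ideal (MvPolynomial (Fin (k + 3)) ℂ)) := by
    intro g hg k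
    rw [Ideal.mem_bot] at hg
    subst hg
    simp
  have hφq : ∀ g ∈ (⊥ : Ideal (MvPolynomial (Fin (k + 3)) ℂ)), ∀ x : Fin (m + 1) → ℂ,
      (∀ p ∈ S, eval x p = 0) → eval x (aeval φ g) = 0 := by
    intro g hg x _
    rw [Ideal.mem_bot] at hg
    subst hg
    simp
  refine avg_curves hρη hρ0 ⊥ hbot (T.image fun i => lin (a i)) hDn (∏ i ∈ T, lin (a i))
    (d := T.card) hTn hZh hDh ?_ hL S φ hφq hR
  intro P hP
  obtain ⟨i, hi, rfl⟩ := hmem P hP
  exact Finset.dvd_prod_of_mem _ hi

open scoped Classical in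
/-- ramified maps are ramified on average with ratio `n / (n + 1)` -/
theorem ram_T {k s : ℕ} {ι : Type} [Fintype ι] (a : ι → Fin (k + 3) → ℂ)
    (ha : GenForm s a) (T : Finset ι) {m : ℕ} (S : Set (MvPolynomial (Fin (m + 1)) ℂ))
    (φ : Fin (k + 3) → MvPolynomial (Fin (m + 1)) ℂ)
    (hR : Ramified S φ (T.image fun i => lin (a i))) :
    RamifiedOnAverage (((k + 2 : ℕ) : ℝ) / (((k + 2 : ℕ) : ℝ) + 1)) S φ
      (T.image fun i => lin (a i)) := by
  have hmem : ∀ P ∈ T.image (fun i => lin (a i)), ∃ i ∈ T, lin (a i) = P := by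
    intro P hP
    simpa using hP
  have hbot : HomI (⊥ : Ideal (MvPolynomial (Fin (k + 3)) ℂ)) := by
    intro g hg k
    rw [Ideal.mem_bot] at hg
    subst hg
    simp
  refine ramified_avg (q := ⊥) hbot (fun P hP => ?_) ?_ ?_ hR
  · obtain ⟨i, hi, rfl⟩ := hmem P hP
    rw [lin_totalDegree (ha.ne_zero i)]
    exact lin_homogeneous (a i)
  · intro x hx _ D' hD' hD'x
    by_contra hcon
    push Not at hcon
    obtain ⟨D'', hD'', hD''c⟩ := Finset.exists_subset_card_eq (s := D') (n := k + 3) (by omega)
    set I : Finset ι := T.filter fun i => lin (a i) ∈ D'' with hI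
    have hIc : I.card = k + 3 := by
      have h1 : I.image (fun i => lin (a i)) = D'' := by
        ext P
        rw [Finset.mem_image]
        constructor
        · rintro ⟨i, hi, rfl⟩
          exact (Finset.mem_filter.mp hi).2
        · intro hP
          obtain ⟨i, hi, rfl⟩ := hmem P (hD' (hD'' hP))
          exact ⟨i, Finset.mem_filter.mpr ⟨hi, hP⟩, rfl⟩
      rw [← hD''c, ← h1, Finset.card_image_of_injective _ fun i j h => ha.injective (lin_inj h)]
    have h2 := ha.1 I hIc.le
    have h3 : Submodule.span ℂ (Set.range (fun i : I => a i)) = ⊤ := by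
      apply h2.span_eq_top_of_card_eq_finrank'
      rw [Fintype.card_coe, hIc, Module.finrank_fin_fun]
    apply hx
    have h4 : ∀ v : Fin (k + 3) → ℂ, ∑ j, v j * x j = 0 := by
      intro v
      have h5 : v ∈ Submodule.span ℂ (Set.range (fun i : I => a i)) := by rw [h3]; trivial
      induction h5 using Submodule.span_induction with
      | mem y hy =>
        obtain ⟨i, rfl⟩ := hy
        have h6 := hD'x _ (hD'' (Finset.mem_filter.mp i.2).2)
        rwa [eval_lin_dot] at h6
      | zero => simp
      | add y z _ _ hy hz =>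
        simp only [Pi.add_apply, add_mul, Finset.sum_add_distrib, hy, hz, add_zero]
      | smul t y _ hy =>
        simp only [Pi.smul_apply, smul_eq_mul, mul_assoc, ← Finset.mul_sum, hy, mul_zero]
    funext j
    have h7 := h4 (Pi.single j 1)
    simpa [Pi.single_apply] using h7
  · intro g hg x _
    rw [Ideal.mem_bot] at hg
    subst hg
    simp

open scoped Classical in
/-- multiple members: ramified on average with ratio `1/2` -/
theorem mult_avg {k : ℕ} {ι : Type} [Fintype ι] (a : ι → Fin (k + 3) → ℂ) (T : Finset ι) {m : ℕ}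
    (S : Set (MvPolynomial (Fin (m + 1)) ℂ)) (φ : Fin (k + 3) → MvPolynomial (Fin (m + 1)) ℂ)
    (ha0 : ∀ i, a i ≠ 0) (hM : ∀ i ∈ T, Multiple S φ (a i)) :
    RamifiedOnAverage (1 / 2) S φ (T.image fun i => lin (a i)) := by
  intro u hu hu0 huS c hc hc' o ho
  have h1 : ∀ P ∈ T.image (fun i => lin (a i)), o P ≠ 1 := by
    intro P hP h1
    obtain ⟨i, hi, rfl⟩ : ∃ i ∈ T, lin (a i) = P := by simpa using hP
    have h2 := ho _ hP
    rw [h1, lin_totalDegree (ha0 i), one_mul] at h2
    apply hM i hi u hu hu0 huS c hc hc'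
    rw [← h2]
    congr 1
    funext ζ
    have h3 : eval (u ζ) (aeval φ (lin (a i))) = eval (fun j => eval (u ζ) (φ j)) (lin (a i)) := by
      have h4 := comp_aeval_apply (f := φ) (aeval (u ζ) : MvPolynomial (Fin (m + 1)) ℂ →ₐ[ℂ] ℂ)
        (lin (a i))
      rw [← coe_aeval_eq_eval, ← coe_aeval_eq_eval]
      exact h4
    rw [h3, eval_lin_dot]
  have h2 : ((((T.image fun i => lin (a i)).filter fun P => o P ≠ 0).card : ℕ) : ℝ) * 2 ≤
      ∑ P ∈ T.image (fun i => lin (a i)), (o P : ℝ) := by
    have h3 : ∑ P ∈ (T.image fun i => lin (a i)).filter (fun P => o P ≠ 0), (2 : ℝ) ≤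
        ∑ P ∈ (T.image fun i => lin (a i)).filter (fun P => o P ≠ 0), (o P : ℝ) := by
      refine Finset.sum_le_sum fun P hP => ?_
      obtain ⟨h4, h5⟩ := Finset.mem_filter.mp hP
      have h6 := h1 P h4
      exact_mod_cast (by omega : 2 ≤ o P)
    rw [Finset.sum_const, nsmul_eq_mul] at h3
    refine h3.trans ?_
    exact Finset.sum_le_sum_of_subset_of_nonneg (Finset.filter_subset _ _)
      fun P _ _ => Nat.cast_nonneg _
  linarith

/-- **Varieties on which many general hyperplanes are multiple.** -/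
theorem mult_all {k s : ℕ} {ι : Type} [Fintype ι] (hs : 2 ≤ s) (a : ι → Fin (k + 3) → ℂ)
    (ha : GenForm s a) (hcard : 2 * err k s + (k + 1) < Fintype.card ι)
    {m : ℕ} (S : Set (MvPolynomial (Fin (m + 1)) ℂ))
    (φ : Fin (k + 3) → MvPolynomial (Fin (m + 1)) ℂ) (hM : ∀ i, Multiple S φ (a i)) :
    ∀ f : ℂ → (Fin (m + 1) → ℂ), Differentiable ℂ f → (∀ z, f z ≠ 0) →
      (∀ z, ∀ p ∈ S, eval (f z) p = 0) →
      ∃ t : Fin (k + 3) → ℂ, t ≠ 0 ∧ ∀ z, ∀ p ∈ Fibre S φ t, eval (f z) p = 0 := by
  classical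
  intro f hf hf0 hfS
  set T : Finset ι := Finset.univ.filter fun i => ∃ z, ∑ j, a i j * eval (f z) (φ j) ≠ 0 with hT
  set U : Finset ι := Finset.univ.filter fun i => ∀ z, ∑ j, a i j * eval (f z) (φ j) = 0 with hU
  have hTU : T.card + U.card = Fintype.card ι := by
    have h1 : U = Finset.univ.filter fun i => ¬ ∃ z, ∑ j, a i j * eval (f z) (φ j) ≠ 0 := by
      rw [hU]
      congr 1
      funext i
      push Not
      rfl
    rw [h1, hT, Finset.card_filter_add_card_filter_not, Finset.card_univ]
  have hlin : ∀ (i : ι) z, eval (f z) (aeval φ (lin (a i))) = ∑ j, a i j * eval (f z) (φ j) := by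
    intro i z
    have h3 : eval (f z) (aeval φ (lin (a i))) = eval (fun j => eval (f z) (φ j)) (lin (a i)) := by
      have h4 := comp_aeval_apply (f := φ) (aeval (f z) : MvPolynomial (Fin (m + 1)) ℂ →ₐ[ℂ] ℂ)
        (lin (a i))
      rw [← coe_aeval_eq_eval, ← coe_aeval_eq_eval]
      exact h4
    rw [h3, eval_lin_dot]
  rcases Nat.lt_or_ge U.card (k + 2) with hlt | hge
  · -- few members vanish identically
    have hTc : 2 * err k s < T.card := by
      have h1 : (T.card : ℝ) + U.card = Fintype.card ι := by exact_mod_cast hTU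
      have h2 : (U.card : ℝ) ≤ k + 1 := by exact_mod_cast (by omega : U.card ≤ k + 1)
      linarith
    have key := curves_T hs a ha T (ρ := 1 / 2) (by norm_num) (by linarith) S φ
      (mult_avg a T S φ ha.ne_zero fun i _ => hM i)
    rcases key f hf hf0 hfS with h0 | h0
    · exfalso
      have h1 : ∀ z, ∏ i ∈ T, (∑ j, a i j * eval (f z) (φ j)) = 0 := by
        intro z
        have h2 := h0 z
        rw [map_prod, map_prod] at h2
        rw [← h2]
        exact Finset.prod_congr rfl fun i _ => (hlin i z).symm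
      have hd : ∀ i : ι, Differentiable ℂ fun z => ∑ j, a i j * eval (f z) (φ j) := fun i =>
        Differentiable.fun_sum fun j _ => (diff_eval hf (φ j)).const_mul _
      -- a product of entire functions vanishes identically
      have h3 : ∀ T' ⊆ T, ∃ z, ∏ i ∈ T', (∑ j, a i j * eval (f z) (φ j)) ≠ 0 := by
        intro T'
        induction T' using Finset.induction_on with
        | empty => intro _; exact ⟨0, by simp⟩
        | insert i T' hi ih =>
          intro hsub
          obtain ⟨z₁, hz₁⟩ := (Finset.mem_filter.mp (hsub (Finset.mem_insert_self i T'))).2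
          obtain ⟨z₂, hz₂⟩ := ih ((Finset.subset_insert i T').trans hsub)
          by_contra hcon
          push Not at hcon
          have hP : Differentiable ℂ fun z => ∏ i ∈ T', (∑ j, a i j * eval (f z) (φ j)) :=
            Differentiable.fun_finsetProd fun i _ => hd i
          have h4 : ∀ z, (∑ j, a i j * eval (f z) (φ j)) *
              ∏ i ∈ T', (∑ j, a i j * eval (f z) (φ j)) = 0 := by
            intro z
            have h8 := hcon z
            rw [Finset.prod_insert hi] at h8
            exact h8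
          have h5 : AnalyticOnNhd ℂ (fun z => ∑ j, a i j * eval (f z) (φ j)) Set.univ :=
            fun z _ => (hd i).analyticAt z
          have h6 : ∀ᶠ z in nhds z₂, (∑ j, a i j * eval (f z) (φ j)) = 0 := by
            filter_upwards [hP.continuous.continuousAt.eventually_ne hz₂] with z hz
            exact (mul_eq_zero.mp (h4 z)).resolve_right hz
          have h7 := h5.eq_of_eventuallyEq (g := fun _ => (0 : ℂ)) (fun z _ => analyticAt_const)
            (z₀ := z₂) h6
          exact hz₁ (congrFun h7 z₁)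
      obtain ⟨z, hz⟩ := h3 T (Finset.Subset.refl T)
      exact hz (h1 z)
    · exact h0
  · -- the curve lies in a fibre
    obtain ⟨U', hU', hU'c⟩ := Finset.exists_subset_card_eq (s := U) (n := k + 2) hge
    have hli := ha.1 U' (by omega)
    set W : Submodule ℂ (Fin (k + 3) → ℂ) :=
      LinearMap.ker (Matrix.mulVecLin (Matrix.of fun i : U' => a i)) with hW
    have hWdim : Module.finrank ℂ W = 1 := by
      have h1 := LinearMap.finrank_range_add_finrank_ker
        (Matrix.mulVecLin (Matrix.of fun i : U' => a i))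
      have h2 : Module.finrank ℂ (LinearMap.range (Matrix.mulVecLin
          (Matrix.of fun i : U' => a i))) = k + 2 := by
        have h3 : (Matrix.of fun i : U' => a i).rank = k + 2 := by
          have h4 : LinearIndependent ℂ (Matrix.of fun i : U' => a i).row := hli
          rw [h4.rank_matrix, Fintype.card_coe, hU'c]
        exact h3
      rw [h2, Module.finrank_fin_fun] at h1
      show Module.finrank ℂ (LinearMap.ker (Matrix.mulVecLin (Matrix.of fun i : U' => a i))) = 1
      omega
    obtain ⟨t, ht0, ht⟩ := finrank_eq_one_iff'.mp hWdim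
    refine ⟨t, fun h => ht0 (Subtype.ext h), ?_⟩
    have h1 : ∀ z, ∃ c : ℂ, ∀ j, eval (f z) (φ j) = c * (t : Fin (k + 3) → ℂ) j := by
      intro z
      have h2 : (fun j => eval (f z) (φ j)) ∈ W := by
        rw [hW, LinearMap.mem_ker]
        funext i
        exact (Finset.mem_filter.mp (hU' i.2)).2 z
      obtain ⟨c, hc⟩ := ht ⟨_, h2⟩
      refine ⟨c, fun j => ?_⟩
      have h3 := congrFun (congrArg Subtype.val hc) j
      exact h3.symm
    rintro z p (hp | ⟨i, j, rfl⟩)
    · exact hfS z p hp
    · obtain ⟨c, hc⟩ := h1 z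
      rw [map_sub, map_mul, map_mul, eval_C, eval_C, hc i, hc j]
      ring

end Pool.Agent.LG
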