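import Mathlib

/-! Definitions for the second main theorem with truncation level one for generic hyperplanes:
lines of `ℙ^(k+2)` and some of their Plücker coordinates. -/

set_option autoImplicit false

namespace Pool.Agent.LG
open MvPolynomial

/-- indices of the Plücker coordinates `p_01`, `p_0j`, `p_1j` (`j ≥ 2`) of lines of `ℙ^(k+2)` -/
abbrev V (k : ℕ) : Type := Unit ⊕ (Fin (k + 1) ⊕ Fin (k + 1))

/-- indices of parameters -/
abbrev T (k : ℕ) : Type := Unit ⊕ (Fin k ⊕ Fin k)

/-- the Plücker coordinates `p_01`, `p_0j`, `p_1j` of the line through `u` and `v` -/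
def pl {R : Type} [CommRing R] {k : ℕ} (u v : Fin (k + 3) → R) : V k → R :=
  Sum.elim (fun _ => u 0 * v 1 - u 1 * v 0)
    (Sum.elim (fun j => u 0 * v j.succ.succ - u j.succ.succ * v 0)
      (fun j => u 1 * v j.succ.succ - u j.succ.succ * v 1))

/-- the first of two linear forms which vanish on the lines in the hyperplane `b` -/
def l0 {R : Type} [CommRing R] {k : ℕ} (b : Fin (k + 3) → R) : V k → R :=
  Sum.elim (fun _ => b 1) (Sum.elim (fun j => b j.succ.succ) (fun _ => 0))

/-- the second of two linear forms which vanish on the lines in the hyperplane `b` -/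
def l1 {R : Type} [CommRing R] {k : ℕ} (b : Fin (k + 3) → R) : V k → R :=
  Sum.elim (fun _ => -b 0) (Sum.elim (fun _ => 0) (fun j => b j.succ.succ))

/-- parametrisation of the common zeros of the forms `l0 b` and `l1 b` -/
noncomputable def par {R : Type} [CommRing R] {k : ℕ} (b : Fin (k + 3) → R) :
    V k → MvPolynomial (T k) R :=
  Sum.elim (fun _ => C (b 2) * X (Sum.inl ()))
    (Sum.elim
      (Fin.cons (-(C (b 1) * X (Sum.inl ()) +
          ∑ j : Fin k, C (b j.succ.succ.succ) * X (Sum.inr (Sum.inl j))))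
        (fun j : Fin k => C (b 2) * X (Sum.inr (Sum.inl j))))
      (Fin.cons (C (b 0) * X (Sum.inl ()) -
          ∑ j : Fin k, C (b j.succ.succ.succ) * X (Sum.inr (Sum.inr j)))
        (fun j : Fin k => C (b 2) * X (Sum.inr (Sum.inr j)))))

/-- a polynomial over `ℚ[b_ij]`, specialised at complex values of the `b_ij` -/
noncomputable def spec {ι σ : Type} {N : ℕ} (b : ι → Fin N → ℂ)
    (P : MvPolynomial σ (MvPolynomial (ι × Fin N) ℚ)) : MvPolynomial σ ℂ :=
  MvPolynomial.map (aeval (fun p : ι × Fin N => b p.1 p.2) :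
    MvPolynomial (ι × Fin N) ℚ →ₐ[ℚ] ℂ).toRingHom P

end Pool.Agent.LG
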