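import Pool.Agent.Lib_MP_b9fedf_lg.Generic

/-! The condition on the hyperplanes which is used in the second main theorem. -/

set_option autoImplicit false

namespace Pool.Agent.LG
open MvPolynomial

/-- The condition on the hyperplanes `a i` of `ℙ^(k+2)`: at most `k + 3` members are linearly
independent, and for every line there are a set `R` of at most `2k+2` members, coordinates `g` and a
form `P` in the Plücker coordinates, of degree `(2k+2)(s-1)`, which vanishes on the lines in the
members which are not in `R` and does not vanish at the given line. -/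
def GenForm {k : ℕ} {ι : Type} (s : ℕ) (a : ι → Fin (k + 3) → ℂ) : Prop :=
  (∀ S : Finset ι, S.card ≤ k + 3 → LinearIndependent ℂ (fun i : S => a i)) ∧
  ∀ u v : Fin (k + 3) → ℂ, LinearIndependent ℂ ![u, v] →
    ∃ (R : Finset ι) (g h : Matrix (Fin (k + 3)) (Fin (k + 3)) ℂ) (P : MvPolynomial (V k) ℂ),
      R.card ≤ 2 * k + 2 ∧ g * h = 1 ∧ P.IsHomogeneous ((2 * k + 2) * (s - 1)) ∧
      (∀ i, i ∉ R → ∀ Z : V k → ℂ, ∑ t, l0 (Matrix.vecMul (a i) g) t * Z t = 0 →
        ∑ t, l1 (Matrix.vecMul (a i) g) t * Z t = 0 → eval Z P = 0) ∧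
      (∀ S : Finset ι, S.card ≤ k + 1 → LinearIndependent ℂ (fun i : S => fun j : Fin (k + 1) =>
        Matrix.vecMul (a i) g j.succ.succ)) ∧
      eval (pl (h.mulVec u) (h.mulVec v)) P ≠ 0

/-- hyperplanes with algebraically independent coefficients -/
theorem genForm_of_algInd {k s : ℕ} {ι : Type} [Fintype ι] [DecidableEq ι] (hs : 2 ≤ s)
    (hq : Fintype.card ι ≤ s ^ 2) (a : ι → Fin (k + 3) → ℂ)
    (ha : AlgebraicIndependent ℚ (fun p : ι × Fin (k + 3) => a p.1 p.2)) : GenForm s a := by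
  refine ⟨fun S hS => gp_of_algInd a ha S hS, fun u v huv => ?_⟩
  obtain ⟨R, g, h, P, h1, h2, h3, h4, -, h5, h6⟩ := generic_form hs hq a ha u v huv
  exact ⟨R, g, h, P, h1, h2, h3, h4, h5, h6⟩

/-- general position in other coordinates -/
theorem gp_vecMul {k : ℕ} {ι : Type} {a : ι → Fin (k + 3) → ℂ}
    (hgp : ∀ S : Finset ι, S.card ≤ k + 3 → LinearIndependent ℂ (fun i : S => a i))
    {g h : Matrix (Fin (k + 3)) (Fin (k + 3)) ℂ} (hgh : g * h = 1) (S : Finset ι)
    (hS : S.card ≤ k + 3) : LinearIndependent ℂ (fun i : S => Matrix.vecMul (a i) g) := by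
  have h2 : Function.Injective (Matrix.vecMulLinear g) := by
    intro x y hxy
    have h3 : Matrix.vecMul (Matrix.vecMul x g) h = Matrix.vecMul (Matrix.vecMul y g) h := by
      rw [show Matrix.vecMul x g = Matrix.vecMul y g from hxy]
    rwa [Matrix.vecMul_vecMul, Matrix.vecMul_vecMul, hgh, Matrix.vecMul_one,
      Matrix.vecMul_one] at h3
  exact (hgp S hS).map' (Matrix.vecMulLinear g) (LinearMap.ker_eq_bot.mpr h2)

/-- subfamilies -/
theorem GenForm.comp {k s : ℕ} {ι ι' : Type} [DecidableEq ι'] {a : ι → Fin (k + 3) → ℂ}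
    (h : GenForm s a) (e : ι' → ι) (he : Function.Injective e) :
    GenForm s (fun i => a (e i)) := by
  classical
  have hmap : ∀ S : Finset ι', ∃ u : S → (S.map ⟨e, he⟩ : Finset ι), Function.Injective u ∧
      ∀ i : S, ((u i : (S.map ⟨e, he⟩ : Finset ι)) : ι) = e i := by
    intro S
    refine ⟨fun i => ⟨e i, Finset.mem_map.mpr ⟨i, i.2, rfl⟩⟩, ?_, fun i => rfl⟩
    intro x y hxy
    have h2 := congrArg (fun v : (S.map ⟨e, he⟩ : Finset ι) => (v : ι)) hxy
    exact Subtype.ext (he h2)
  refine ⟨fun S hS => ?_, fun u v huv => ?_⟩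
  · obtain ⟨w, hw, hwe⟩ := hmap S
    have h1 := (h.1 (S.map ⟨e, he⟩) (by rwa [Finset.card_map])).comp w hw
    have h2 : (fun i : (S.map ⟨e, he⟩ : Finset ι) => a i) ∘ w = fun i : S => a (e i) := by
      funext i
      show a (w i : ι) = _
      rw [hwe]
    rwa [h2] at h1
  · obtain ⟨R, g, m, P, h1, h2, h3, h4, h5, h6⟩ := h.2 u v huv
    refine ⟨R.preimage e he.injOn, g, m, P, ?_, h2, h3, ?_, ?_, h6⟩
    · refine le_trans ?_ h1
      rw [← Finset.card_map ⟨e, he⟩]
      apply Finset.card_le_card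
      intro x hx
      obtain ⟨y, hy, rfl⟩ := Finset.mem_map.mp hx
      exact Finset.mem_preimage.mp hy
    · intro i hi Z h7 h8
      exact h4 (e i) (fun hc => hi (Finset.mem_preimage.mpr hc)) Z h7 h8
    · intro S hS
      obtain ⟨w, hw, hwe⟩ := hmap S
      have h7 := (h5 (S.map ⟨e, he⟩) (by rwa [Finset.card_map])).comp w hw
      have h8 : (fun i : (S.map ⟨e, he⟩ : Finset ι) => fun j : Fin (k + 1) =>
          Matrix.vecMul (a i) g j.succ.succ) ∘ w = fun i : S => fun j : Fin (k + 1) =>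
          Matrix.vecMul (a (e i)) g j.succ.succ := by
        funext i
        show (fun j : Fin (k + 1) => Matrix.vecMul (a (w i : ι)) g j.succ.succ) = _
        rw [hwe]
      rwa [h8] at h7

end Pool.Agent.LG
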