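import Pool.Agent.Lib_MP_b9fedf_lg.Apps
import Pool.Agent.Lib_MP_b9fedf_og.Open

/-!
# A second main theorem with truncation level one for general hyperplanes

Sketch of the proof. Let first the coefficients of the members be algebraically independent, let
`Q ≤ s²`, and let `f` be a linearly non-degenerate entire curve of `ℙⁿ`. The line through `f(z₀)`
and `f'(z₀)` depends on `2n - 2` numbers; all members but at most `2n - 2` are algebraically
independent over these. By a count of dimensions there is, in suitable coordinates, a form `P` of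
degree `(2n-2)(s-1)` on the space of Plücker coordinates of lines which vanishes on the lines
contained in one of these members and not at the given line. The function `P(f ∧ f')` vanishes to
order at least `ord (aᵢ f) - 1` at the zeros of `aᵢ f`, for all members through a point at the same
time. Its growth is at most `2 deg P` times `T_f(r)`; together with the theorem of Cartan for the
counting functions with multiplicities this gives the inequality. A degenerate curve spans a
subspace, over which the argument is repeated. By elimination the forms exist for all families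
outside a proper closed subset.
-/

set_option autoImplicit false

namespace Pool.Agent.Lib_MP_b9fedf_lg.GeneralHyperplanesRes

open Pool.Agent.GGL Pool.Agent.SQ Pool.Agent.Stat Pool.Agent.LO Pool.Agent.LG Pool.Agent.OG

open scoped Classical in
/-- Let `n ≥ 2`, `s ≥ 2`, `Q ≤ s²`. For all families `a` of `Q` hyperplanes of `ℙⁿ` off a proper
closed subset (the zeros of a nonzero polynomial `R` with rational coefficients in the coordinates
of the members):

(1) The second main theorem with truncation level one holds for all non-constant entire curves of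
`ℙⁿ`, with the factor `Q - (n-1)(4s-2) - n²`.

(2) It holds with the factor `Q - (n-1)(4s-2) - (n+1)` if the curve is linearly non-degenerate.

(3) If a variety `X` over `ℙⁿ` is ramified over the members on average with the ratio `ρ`,
`ρ Q < Q - (n-1)(4s-2) - n²`, or if it is ramified over the members and this holds for
`ρ = n/(n+1)`, then every entire curve of `X` lies in a fibre or over a member.

(4) If `2 ((n-1)(4s-2) + n²) + n - 1 < Q` and all members are multiple on `X`, then every entire
curve of `X` lies in a fibre. -/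
theorem result :
    ∀ (n s Q : ℕ), 2 ≤ n → 2 ≤ s → Q ≤ s ^ 2 →
      ∃ R : MvPolynomial (Fin Q × Fin (n + 1)) ℚ, R ≠ 0 ∧ ∀ a : Fin Q → Fin (n + 1) → ℂ,
        MvPolynomial.aeval (fun p : Fin Q × Fin (n + 1) => a p.1 p.2) R ≠ 0 →
      (∀ f : ℂ → Fin (n + 1) → ℂ, Differentiable ℂ f → (∀ z, f z ≠ 0) →
        (¬ ∀ z w, ∃ c : ℂ, f w = c • f z) →
        ∃ (K : ℝ) (E : Set ℝ), MeasureTheory.volume E < ⊤ ∧ ∀ r, 1 ≤ r → r ∉ E →
          ((Q : ℝ) - (n - 1) * (4 * s - 2) - n ^ 2) * charT f r ≤
            ∑ i, Nbar (fun z => ∑ j, a i j * f z j) r +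
              K * (Real.posLog (charT f r) + Real.log r + 1)) ∧
      (∀ f : ℂ → Fin (n + 1) → ℂ, Differentiable ℂ f → (∀ z, f z ≠ 0) →
        LinearIndependent ℂ (fun (j : Fin (n + 1)) z => f z j) →
        ∃ (K : ℝ) (E : Set ℝ), MeasureTheory.volume E < ⊤ ∧ ∀ r, 1 ≤ r → r ∉ E →
          ((Q : ℝ) - (n - 1) * (4 * s - 2) - (n + 1)) * charT f r ≤
            ∑ i, Nbar (fun z => ∑ j, a i j * f z j) r +
              K * (Real.posLog (charT f r) + Real.log r + 1)) ∧
      ∀ (m e : ℕ) (S : Set (MvPolynomial (Fin (m + 1)) ℂ))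
        (φ : Fin (n + 1) → MvPolynomial (Fin (m + 1)) ℂ),
        (∀ p ∈ S, ∃ d' : ℕ, p.IsHomogeneous d') → (∀ i, (φ i).IsHomogeneous e) →
        (∀ ρ : ℝ, 0 ≤ ρ → ρ * Q < (Q : ℝ) - (n - 1) * (4 * s - 2) - n ^ 2 →
          (RamifiedOnAverage ρ S φ (Finset.univ.image fun i => lin (a i)) ∨
            (ρ = (n : ℝ) / (n + 1) ∧ Ramified S φ (Finset.univ.image fun i => lin (a i)))) →
          CurvesIn S (MvPolynomial.aeval φ (∏ i, lin (a i))) φ ∧
          (GGL m (insert (MvPolynomial.aeval φ (∏ i, lin (a i))) S) →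
            (∀ t : Fin (n + 1) → ℂ, t ≠ 0 → GGL m (Fibre S φ t)) → GGL m S)) ∧
        (2 * (((n : ℝ) - 1) * (4 * s - 2) + n ^ 2) + (n - 1) < Q → (∀ i, Multiple S φ (a i)) →
          (∀ f : ℂ → (Fin (m + 1) → ℂ), Differentiable ℂ f → (∀ z, f z ≠ 0) →
            (∀ z, ∀ p ∈ S, MvPolynomial.eval (f z) p = 0) →
            ∃ t : Fin (n + 1) → ℂ, t ≠ 0 ∧
              ∀ z, ∀ p ∈ Fibre S φ t, MvPolynomial.eval (f z) p = 0) ∧
          ((∀ t : Fin (n + 1) → ℂ, t ≠ 0 → GGL m (Fibre S φ t)) → GGL m S)) := by
  intro n s Q hn hs hQ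
  obtain ⟨k, rfl⟩ : ∃ k, n = k + 2 := ⟨n - 2, by omega⟩
  have hcard : Fintype.card (Fin Q) = Q := Fintype.card_fin Q
  obtain ⟨R, hR0, hR⟩ := open_form (k := k) (s := s) (ι := Fin Q) hs (by rw [hcard]; exact hQ)
  refine ⟨R, hR0, fun a haR => ?_⟩
  have ha : GenForm s a := hR a haR
  have hk1 : (((k + 2 : ℕ) : ℝ) - 1) = k + 1 := by push_cast; ring
  have herr : (((k + 2 : ℕ) : ℝ) - 1) * (4 * s - 2) + ((k + 2 : ℕ) : ℝ) ^ 2 = err k s := by
    unfold err
    push_cast
    ring
  refine ⟨fun f hf hf0 hnc => ?_, fun f hf hf0 hli => ?_, ?_⟩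
  · obtain ⟨K, E, hE, h⟩ := smt_all hs a ha f hf hf0 hnc
    refine ⟨K, E, hE, fun r hr hrE => ?_⟩
    have h1 := h r hr hrE
    rw [hcard] at h1
    rw [hk1]
    push_cast
    exact h1
  · obtain ⟨K, E, hE, h⟩ := smt_nondeg hs a ha f hf hf0 hli
    refine ⟨K, E, hE, fun r hr hrE => ?_⟩
    have h1 := h r hr hrE
    rw [hcard] at h1
    rw [hk1]
    push_cast
    refine le_trans (le_of_eq ?_) h1
    ring
  intro m e S φ _ _
  refine ⟨fun ρ hρ0 hρ hor => ?_, fun hbig hA => ?_⟩
  · have hρ' : ρ * (Finset.univ : Finset (Fin Q)).card <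
        (Finset.univ : Finset (Fin Q)).card - err k s := by
      rw [Finset.card_univ, hcard, ← herr]
      linarith
    have key2 : CurvesIn S (MvPolynomial.aeval φ (∏ i, lin (a i))) φ := by
      refine curves_T hs a ha Finset.univ hρ0 hρ' S φ ?_
      rcases hor with h | ⟨rfl, h⟩
      · exact h
      · exact ram_T a ha Finset.univ S φ h
    exact ⟨key2, ggl_of_curves key2⟩
  · have key := mult_all hs a ha (by
      rw [hcard, ← herr]
      refine lt_of_le_of_lt (le_of_eq ?_) hbig
      push_cast
      ring) S φ hA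
    exact ⟨key, ggl_of_fibres key⟩

end Pool.Agent.Lib_MP_b9fedf_lg.GeneralHyperplanesRes
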