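import Pool.Agent.Lib_MP_b9fedf_lg.Defs

/-! [LG-A7]: nonvanishing at generic values. -/

set_option autoImplicit false

namespace Pool.Agent.LG
open MvPolynomial

private theorem pl_mem_matb {k : ℕ} (A : Subalgebra ℚ ℂ) (u v : Fin (k + 3) → ℂ) (hu : ∀ i, u i ∈ A)
    (hv : ∀ i, v i ∈ A) (i : V k) : pl u v i ∈ A := by
  rcases i with i | i | i
  · exact A.sub_mem (A.mul_mem (hu _) (hv _)) (A.mul_mem (hu _) (hv _))
  · exact A.sub_mem (A.mul_mem (hu _) (hv _)) (A.mul_mem (hu _) (hv _))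
  · exact A.sub_mem (A.mul_mem (hu _) (hv _)) (A.mul_mem (hu _) (hv _))

private theorem mulVec_mem_matb {N : ℕ} (A : Subalgebra ℚ ℂ) (u : Fin N → ℂ) (hu : ∀ i, u i ∈ A)
    (g : Matrix (Fin N) (Fin N) ℤ) (i : Fin N) :
    ((g.map (Int.cast : ℤ → ℂ)).adjugate.mulVec u) i ∈ A := by
  have h1 : (g.map (Int.cast : ℤ → ℂ)).adjugate = (g.adjugate).map (Int.cast : ℤ → ℂ) := by
    have := RingHom.map_adjugate (Int.castRingHom ℂ) g
    exact this.symm
  rw [h1]
  change ∑ j, ((g.adjugate i j : ℤ) : ℂ) * u j ∈ A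
  exact A.sum_mem fun j _ => A.mul_mem (intCast_mem A _) (hu j)

private theorem cq_matb {σ : Type} (f g : MvPolynomial σ ℚ →+* ℂ) (q : ℚ) : f (C q) = g (C q) :=
  RingHom.congr_fun (RingHom.ext_rat (f.comp C) (g.comp C)) q

private theorem hom_matb {ι : Type} {N : ℕ} (A : Subalgebra ℚ ℂ) (g : Matrix (Fin N) (Fin N) ℤ)
    (c : ι → Fin N → ℂ) :
    ((aeval (fun p : ι × Fin N => c p.1 p.2) : MvPolynomial (ι × Fin N) A →ₐ[A] ℂ).toRingHom).comp
      (aeval (fun p : ι × Fin N => ∑ l, C ((g l p.2 : ℤ) : A) * X (p.1, l)) :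
        MvPolynomial (ι × Fin N) ℚ →ₐ[ℚ] MvPolynomial (ι × Fin N) A).toRingHom =
      (aeval (fun p : ι × Fin N => Matrix.vecMul (c p.1) (g.map (Int.cast : ℤ → ℂ)) p.2) :
        MvPolynomial (ι × Fin N) ℚ →ₐ[ℚ] ℂ).toRingHom := by
  apply MvPolynomial.ringHom_ext
  · intro q
    exact cq_matb _ _ q
  · intro p
    simp only [RingHom.comp_apply, AlgHom.toRingHom_eq_coe, RingHom.coe_coe, aeval_X, map_sum,
      map_mul, aeval_C]
    rw [Matrix.vecMul, dotProduct]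
    refine Finset.sum_congr rfl fun l _ => ?_
    rw [mul_comm]
    congr 1

/-- [LG-A7] The nonvanishing at some values `b` implies the nonvanishing at generic values.
(The entries of `u`, `v` lie in the ring `A`, so
`c ↦ eval (pl (adjugate g u) (adjugate g v)) (spec (c g) P)` is a polynomial in `c` with coefficients
in `A`; it is nonzero at `c = b g⁻¹`, hence at `a`.) -/
theorem generic_eval {k : ℕ} {ι : Type} [Fintype ι]
    (P : MvPolynomial (V k) (MvPolynomial (ι × Fin (k + 3)) ℚ)) (A : Subalgebra ℚ ℂ)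
    (u v : Fin (k + 3) → ℂ) (hu : ∀ i, u i ∈ A) (hv : ∀ i, v i ∈ A)
    (g : Matrix (Fin (k + 3)) (Fin (k + 3)) ℤ) (hg : g.det ≠ 0) (b : ι → Fin (k + 3) → ℂ)
    (hb : eval (pl ((g.map (Int.cast : ℤ → ℂ)).adjugate.mulVec u)
        ((g.map (Int.cast : ℤ → ℂ)).adjugate.mulVec v)) (spec b P) ≠ 0)
    (a : ι → Fin (k + 3) → ℂ)
    (ha : AlgebraicIndependent A (fun p : ι × Fin (k + 3) => a p.1 p.2)) :
    eval (pl ((g.map (Int.cast : ℤ → ℂ)).adjugate.mulVec u)
        ((g.map (Int.cast : ℤ → ℂ)).adjugate.mulVec v))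
      (spec (fun i => Matrix.vecMul (a i) (g.map (Int.cast : ℤ → ℂ))) P) ≠ 0 := by
  classical
  have hw := pl_mem_matb A _ _ (mulVec_mem_matb A u hu g) (mulVec_mem_matb A v hv g)
  set w : V k → ℂ := pl ((g.map (Int.cast : ℤ → ℂ)).adjugate.mulVec u)
        ((g.map (Int.cast : ℤ → ℂ)).adjugate.mulVec v) with hwdef
  let wA : V k → A := fun i => ⟨w i, hw i⟩
  let φ : MvPolynomial (ι × Fin (k + 3)) ℚ →+* MvPolynomial (ι × Fin (k + 3)) A :=
    (aeval (fun p : ι × Fin (k + 3) => ∑ l, C ((g l p.2 : ℤ) : A) * X (p.1, l)) :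
        MvPolynomial (ι × Fin (k + 3)) ℚ →ₐ[ℚ] MvPolynomial (ι × Fin (k + 3)) A).toRingHom
  let Φ : MvPolynomial (ι × Fin (k + 3)) A := eval₂ φ (fun i => C (wA i)) P
  have key : ∀ c : ι → Fin (k + 3) → ℂ, aeval (fun p : ι × Fin (k + 3) => c p.1 p.2) Φ =
      eval w (spec (fun i => Matrix.vecMul (c i) (g.map (Int.cast : ℤ → ℂ))) P) := by
    intro c
    have h1 := MvPolynomial.eval₂_comp_left
      ((aeval (fun p : ι × Fin (k + 3) => c p.1 p.2) :
        MvPolynomial (ι × Fin (k + 3)) A →ₐ[A] ℂ).toRingHom) φ (fun i => C (wA i)) P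
    have h2 : ((aeval (fun p : ι × Fin (k + 3) => c p.1 p.2) :
        MvPolynomial (ι × Fin (k + 3)) A →ₐ[A] ℂ).toRingHom).comp φ =
        (aeval (fun p : ι × Fin (k + 3) => Matrix.vecMul (c p.1) (g.map (Int.cast : ℤ → ℂ)) p.2) :
        MvPolynomial (ι × Fin (k + 3)) ℚ →ₐ[ℚ] ℂ).toRingHom := hom_matb A g c
    have h3 : (((aeval (fun p : ι × Fin (k + 3) => c p.1 p.2) :
        MvPolynomial (ι × Fin (k + 3)) A →ₐ[A] ℂ).toRingHom) ∘ (fun i => C (wA i))) = w := by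
      funext i
      simp only [Function.comp_apply, AlgHom.toRingHom_eq_coe, RingHom.coe_coe, aeval_C]
      rfl
    rw [h2, h3] at h1
    unfold spec
    rw [MvPolynomial.eval_map]
    exact h1
  -- invertibility of `g`
  have hdet : IsUnit (g.map (Int.cast : ℤ → ℂ)).det := by
    have h1 : (g.map (Int.cast : ℤ → ℂ)).det = ((g.det : ℤ) : ℂ) :=
      (RingHom.map_det (Int.castRingHom ℂ) g).symm
    rw [h1]
    exact isUnit_iff_ne_zero.2 (by exact_mod_cast hg)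
  have hbg : (fun i => Matrix.vecMul (Matrix.vecMul (b i) (g.map (Int.cast : ℤ → ℂ))⁻¹)
      (g.map (Int.cast : ℤ → ℂ))) = b := by
    funext i
    rw [Matrix.vecMul_vecMul, Matrix.nonsing_inv_mul _ hdet, Matrix.vecMul_one]
  have hΦ : Φ ≠ 0 := by
    intro h0
    have h1 := key (fun i => Matrix.vecMul (b i) (g.map (Int.cast : ℤ → ℂ))⁻¹)
    rw [hbg, h0, map_zero] at h1
    exact hb h1.symm
  rw [← key a]
  intro h0
  exact hΦ (ha.eq_zero_of_aeval_eq_zero Φ h0)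

end Pool.Agent.LG
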