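import Pool.Agent.Lib_MP_b9fedf_lg.Defs

/-! [LG-A8]: a line of `ℙ^(k+2)` is determined by `2k+2` numbers. -/

set_option autoImplicit false

namespace Pool.Agent.LG
open MvPolynomial

/-- [LG-A8] The line through `u` and `v` is spanned by `u'`, `v'` with entries in a ring generated by
`2k+2` numbers.  (Some `u i * v j - u j * v i` is not zero; take `u'`, `v'` in the span with
`u' i = 1`, `u' j = 0`, `v' i = 0`, `v' j = 1`; `c = u i * v j - u j * v i`.) -/
theorem normalise {k : ℕ} (u v : Fin (k + 3) → ℂ) (huv : LinearIndependent ℂ ![u, v]) :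
    ∃ (x : Fin (2 * k + 2) → ℂ) (u' v' : Fin (k + 3) → ℂ) (c : ℂ), c ≠ 0 ∧
      (∀ i, u' i ∈ Algebra.adjoin ℚ (Set.range x)) ∧
      (∀ i, v' i ∈ Algebra.adjoin ℚ (Set.range x)) ∧ LinearIndependent ℂ ![u', v'] ∧
      ∀ h : Matrix (Fin (k + 3)) (Fin (k + 3)) ℂ,
        pl (h.mulVec u) (h.mulVec v) = fun s => c * pl (h.mulVec u') (h.mulVec v') s := by
  classical
  obtain ⟨i, j, hD⟩ : ∃ i j, u i * v j - u j * v i ≠ 0 := by
    by_contra hcon
    push Not at hcon
    rw [LinearIndependent.pair_iff] at huv
    have hu : ∀ i, u i = 0 := by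
      intro i
      have h1 : v i • u + (-u i) • v = 0 := by
        funext l
        have := hcon i l
        simp only [Pi.add_apply, Pi.smul_apply, smul_eq_mul, Pi.zero_apply]
        linear_combination -this
      exact neg_eq_zero.mp (huv _ _ h1).2
    have h2 : (1 : ℂ) • u + (0 : ℂ) • v = 0 := by
      funext l
      simp [hu l]
    exact one_ne_zero (huv _ _ h2).1
  have hij : i ≠ j := by
    rintro rfl
    exact hD (sub_self _)
  set D : ℂ := u i * v j - u j * v i with hDdef
  set u' : Fin (k + 3) → ℂ := fun l => D⁻¹ * (v j * u l - u j * v l) with hu'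
  set v' : Fin (k + 3) → ℂ := fun l => D⁻¹ * (u i * v l - v i * u l) with hv'
  have hui : u' i = 1 := by
    simp only [hu']
    rw [inv_mul_eq_one₀ hD, hDdef]
    ring
  have huj : u' j = 0 := by
    simp only [hu']
    ring
  have hvi : v' i = 0 := by
    simp only [hv']
    ring
  have hvj : v' j = 1 := by
    simp only [hv']
    rw [inv_mul_eq_one₀ hD, hDdef]
    ring
  have hu : u = u i • u' + u j • v' := by
    funext l
    simp only [Pi.add_apply, Pi.smul_apply, smul_eq_mul, hu', hv']
    have : u i * (D⁻¹ * (v j * u l - u j * v l)) + u j * (D⁻¹ * (u i * v l - v i * u l))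
        = (D⁻¹ * D) * u l := by
      rw [hDdef]
      ring
    rw [this, inv_mul_cancel₀ hD, one_mul]
  have hv : v = v i • u' + v j • v' := by
    funext l
    simp only [Pi.add_apply, Pi.smul_apply, smul_eq_mul, hu', hv']
    have : v i * (D⁻¹ * (v j * u l - u j * v l)) + v j * (D⁻¹ * (u i * v l - v i * u l))
        = (D⁻¹ * D) * v l := by
      rw [hDdef]
      ring
    rw [this, inv_mul_cancel₀ hD, one_mul]
  have hcard : Fintype.card (Fin (2 * k + 2)) =
      Fintype.card (((Finset.univ.erase i).erase j : Finset (Fin (k + 3))) ⊕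
        ((Finset.univ.erase i).erase j : Finset (Fin (k + 3)))) := by
    have h1 : ((Finset.univ.erase i).erase j : Finset (Fin (k + 3))).card = k + 1 := by
      rw [Finset.card_erase_of_mem (Finset.mem_erase.mpr ⟨hij.symm, Finset.mem_univ _⟩),
        Finset.card_erase_of_mem (Finset.mem_univ _), Finset.card_univ, Fintype.card_fin]
      omega
    rw [Fintype.card_sum, Fintype.card_coe, Fintype.card_fin, h1]
    omega
  let e := Fintype.equivOfCardEq hcard
  have hmem : ∀ l : Fin (k + 3), l ≠ i → l ≠ j →
      l ∈ ((Finset.univ.erase i).erase j : Finset (Fin (k + 3))) := fun l h1 h2 =>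
    Finset.mem_erase.mpr ⟨h2, Finset.mem_erase.mpr ⟨h1, Finset.mem_univ _⟩⟩
  refine ⟨fun n => Sum.elim (fun l => u' l.1) (fun l => v' l.1) (e n), u', v', D, hD,
    ?_, ?_, ?_, ?_⟩
  · intro l
    by_cases h1 : l = i
    · rw [h1, hui]
      exact one_mem _
    · by_cases h2 : l = j
      · rw [h2, huj]
        exact zero_mem _
      · refine Algebra.subset_adjoin ⟨e.symm (Sum.inl ⟨l, hmem l h1 h2⟩), ?_⟩
        simp only [Equiv.apply_symm_apply, Sum.elim_inl]
  · intro l
    by_cases h1 : l = i
    · rw [h1, hvi]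
      exact zero_mem _
    · by_cases h2 : l = j
      · rw [h2, hvj]
        exact one_mem _
      · refine Algebra.subset_adjoin ⟨e.symm (Sum.inr ⟨l, hmem l h1 h2⟩), ?_⟩
        simp only [Equiv.apply_symm_apply, Sum.elim_inr]
  · rw [LinearIndependent.pair_iff]
    intro s t hst
    have h1 := congrFun hst i
    have h2 := congrFun hst j
    simp only [Pi.add_apply, Pi.smul_apply, smul_eq_mul, Pi.zero_apply, hui, hvi, huj, hvj,
      mul_one, mul_zero, add_zero, zero_add] at h1 h2
    exact ⟨h1, h2⟩
  · intro h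
    have e1 : h.mulVec u = u i • h.mulVec u' + u j • h.mulVec v' := by
      conv_lhs => rw [hu]
      rw [Matrix.mulVec_add, Matrix.mulVec_smul, Matrix.mulVec_smul]
    have e2 : h.mulVec v = v i • h.mulVec u' + v j • h.mulVec v' := by
      conv_lhs => rw [hv]
      rw [Matrix.mulVec_add, Matrix.mulVec_smul, Matrix.mulVec_smul]
    rw [e1, e2]
    generalize h.mulVec u' = a
    generalize h.mulVec v' = b
    have key : ∀ p q : Fin (k + 3), (u i • a + u j • b) p * (v i • a + v j • b) q -
        (u i • a + u j • b) q * (v i • a + v j • b) p = D * (a p * b q - a q * b p) := by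
      intro p q
      simp only [Pi.add_apply, Pi.smul_apply, smul_eq_mul]
      rw [hDdef]
      ring
    funext s
    rcases s with s | s | s
    · exact key 0 1
    · exact key 0 s.succ.succ
    · exact key 1 s.succ.succ

end Pool.Agent.LG
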