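import Pool.Agent.Lib_MP_b9fedf_lg.Defs

/-! [LG-A9]: generic hyperplanes are in general position. -/

set_option autoImplicit false

namespace Pool.Agent.LG
open MvPolynomial

/-- the minors of generic matrices (after a rational change of coordinates) are not zero -/
private theorem minor_ne_a9 {N : ℕ} {ι T : Type} [Fintype T] [DecidableEq T]
    (a : ι → Fin N → ℂ)
    (ha : AlgebraicIndependent ℚ (fun p : ι × Fin N => a p.1 p.2))
    (g : Matrix (Fin N) (Fin N) ℤ) (hg : g.det ≠ 0) (s : T → ι) (hs : Function.Injective s)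
    (e : T → Fin N) (he : Function.Injective e) :
    Matrix.det (Matrix.of fun i j : T =>
      Matrix.vecMul (a (s i)) (g.map (Int.cast : ℤ → ℂ)) (e j)) ≠ 0 := by
  classical
  set gQ : Matrix (Fin N) (Fin N) ℚ := g.map (Int.cast : ℤ → ℚ) with hgQ
  have hdet : gQ.det = (g.det : ℚ) := by
    have := (Int.castRingHom ℚ).map_det g
    simpa [hgQ, RingHom.mapMatrix_apply] using this.symm
  have hunit : IsUnit gQ.det := by
    rw [hdet, isUnit_iff_ne_zero]
    exact_mod_cast hg
  set P : Matrix T T (MvPolynomial (ι × Fin N) ℚ) :=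
    Matrix.of fun i j => ∑ l : Fin N, X (s i, l) * C (gQ l (e j)) with hP
  have h1 : aeval (fun p : ι × Fin N => a p.1 p.2) P.det = Matrix.det (Matrix.of fun i j : T =>
      Matrix.vecMul (a (s i)) (g.map (Int.cast : ℤ → ℂ)) (e j)) := by
    rw [AlgHom.map_det]
    refine congrArg Matrix.det ?_
    ext i j
    simp [hP, hgQ, Matrix.vecMul, dotProduct]
  have h2 : P.det ≠ 0 := by
    intro h0
    have h3 : eval (fun p : ι × Fin N =>
        Function.extend s (fun i => (gQ⁻¹) (e i)) 0 p.1 p.2) P.det = 1 := by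
      rw [RingHom.map_det]
      have h4 : (eval (fun p : ι × Fin N =>
        Function.extend s (fun i => (gQ⁻¹) (e i)) 0 p.1 p.2)).mapMatrix P = 1 := by
        ext i j
        have h5 : ((gQ⁻¹) * gQ) (e i) (e j) = (1 : Matrix (Fin N) (Fin N) ℚ) (e i) (e j) := by
          rw [Matrix.nonsing_inv_mul gQ hunit]
        rw [Matrix.mul_apply, Matrix.one_apply] at h5
        simp only [hP, RingHom.mapMatrix_apply, Matrix.map_apply, Matrix.of_apply, map_sum,
          map_mul, eval_X, eval_C, hs.extend_apply]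
        rw [h5, Matrix.one_apply]
        simp [he.eq_iff]
      rw [h4, Matrix.det_one]
    rw [h0] at h3
    simp at h3
  rw [← h1]
  intro h6
  exact h2 ((algebraicIndependent_iff.mp ha) _ h6)

/-- [LG-A9a] at most `N` members are linearly independent (a minor is a nonzero polynomial in the
`a i j` with rational coefficients) -/
theorem gp_of_algInd {N : ℕ} {ι : Type} [Fintype ι] (a : ι → Fin N → ℂ)
    (ha : AlgebraicIndependent ℚ (fun p : ι × Fin N => a p.1 p.2)) (S : Finset ι)
    (hS : S.card ≤ N) : LinearIndependent ℂ (fun i : S => a i) := by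
  classical
  obtain ⟨e⟩ : Nonempty (S ↪ Fin N) := by
    apply Function.Embedding.nonempty_of_card_le
    simpa using hS
  have h := minor_ne_a9 a ha 1 (by simp) (fun i : S => (i : ι)) Subtype.val_injective e e.injective
  have h1 := Matrix.linearIndependent_rows_of_det_ne_zero h
  refine LinearIndependent.of_comp (LinearMap.funLeft ℂ ℂ e) ?_
  have h2 : (LinearMap.funLeft ℂ ℂ e) ∘ (fun i : S => a i) = (Matrix.of fun i j : S =>
      Matrix.vecMul (a (i : ι)) ((1 : Matrix (Fin N) (Fin N) ℤ).map (Int.cast : ℤ → ℂ)) (e j)).row := by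
    funext i j
    have h3 : ((1 : Matrix (Fin N) (Fin N) ℤ).map (Int.cast : ℤ → ℂ)) = 1 :=
      Matrix.map_one _ Int.cast_zero Int.cast_one
    simp [LinearMap.funLeft_apply, Matrix.row, h3]
  rw [h2]
  exact h1

/-- [LG-A9b] in the new coordinates, the tails of at most `k + 1` members are linearly independent -/
theorem tails_of_algInd {k : ℕ} {ι : Type} [Fintype ι] (a : ι → Fin (k + 3) → ℂ)
    (ha : AlgebraicIndependent ℚ (fun p : ι × Fin (k + 3) => a p.1 p.2))
    (g : Matrix (Fin (k + 3)) (Fin (k + 3)) ℤ) (hg : g.det ≠ 0) (S : Finset ι)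
    (hS : S.card ≤ k + 1) :
    LinearIndependent ℂ (fun i : S => fun j : Fin (k + 1) =>
      Matrix.vecMul (a i) (g.map (Int.cast : ℤ → ℂ)) j.succ.succ) := by
  classical
  obtain ⟨e⟩ : Nonempty (S ↪ Fin (k + 1)) := by
    apply Function.Embedding.nonempty_of_card_le
    simpa using hS
  have h := minor_ne_a9 a ha g hg (fun i : S => (i : ι)) Subtype.val_injective
    (fun j : S => (e j).succ.succ)
    (fun x y hxy => e.injective (Fin.succ_injective _ (Fin.succ_injective _ hxy)))
  have h1 := Matrix.linearIndependent_rows_of_det_ne_zero h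
  refine LinearIndependent.of_comp (LinearMap.funLeft ℂ ℂ e) ?_
  exact h1

/-- [LG-A9c] the third coordinate is not zero in the new coordinates -/
theorem two_ne_of_algInd {k : ℕ} {ι : Type} [Fintype ι] (a : ι → Fin (k + 3) → ℂ)
    (ha : AlgebraicIndependent ℚ (fun p : ι × Fin (k + 3) => a p.1 p.2))
    (g : Matrix (Fin (k + 3)) (Fin (k + 3)) ℤ) (hg : g.det ≠ 0) (i : ι) :
    Matrix.vecMul (a i) (g.map (Int.cast : ℤ → ℂ)) 2 ≠ 0 := by
  have h := minor_ne_a9 a ha g hg (fun _ : Unit => i) (fun _ _ _ => rfl)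
    (fun _ : Unit => (2 : Fin (k + 3))) (fun _ _ _ => rfl)
  simpa [Matrix.det_unique] using h

end Pool.Agent.LG
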