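import Pool.Agent.Lib_MP_b9fedf_lg.Defs

/-! [LG-A4]: specialisation of the universal form. -/

set_option autoImplicit false

namespace Pool.Agent.LG
open MvPolynomial

/-- [LG-A4] The specialised form vanishes on the lines in the hyperplanes `b i`.  (If
`l0 (b i) · Z = l1 (b i) · Z = 0` and `b i 2 ≠ 0`, then `Z` is the value of `par (b i)` at the point
`t = (Z (inl ()) / b i 2, Z (inr (inl j.succ)) / b i 2, Z (inr (inr j.succ)) / b i 2)`.) -/
theorem spec_vanish {k : ℕ} {ι : Type}
    (P : MvPolynomial (V k) (MvPolynomial (ι × Fin (k + 3)) ℚ)) (i : ι)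
    (hP : aeval (par (fun j : Fin (k + 3) => (X (i, j) : MvPolynomial (ι × Fin (k + 3)) ℚ))) P = 0)
    (b : ι → Fin (k + 3) → ℂ) (hb : b i 2 ≠ 0) (Z : V k → ℂ)
    (h0 : ∑ s, l0 (b i) s * Z s = 0) (h1 : ∑ s, l1 (b i) s * Z s = 0) :
    eval Z (spec b P) = 0 := by
  set φ : MvPolynomial (ι × Fin (k + 3)) ℚ →+* ℂ :=
    (aeval (fun p : ι × Fin (k + 3) => b p.1 p.2) :
      MvPolynomial (ι × Fin (k + 3)) ℚ →ₐ[ℚ] ℂ).toRingHom with hφ
  have hφX : ∀ j : Fin (k + 3), φ (X (i, j)) = b i j := by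
    intro j
    rw [hφ]
    exact aeval_X (fun p : ι × Fin (k + 3) => b p.1 p.2) (i, j)
  set t : T k → ℂ := Sum.elim (fun _ => Z (Sum.inl ()) / b i 2)
    (Sum.elim (fun j => Z (Sum.inr (Sum.inl j.succ)) / b i 2)
      (fun j => Z (Sum.inr (Sum.inr j.succ)) / b i 2)) with ht
  set g : Fin (k + 3) → MvPolynomial (ι × Fin (k + 3)) ℚ := fun j => X (i, j) with hg
  -- the two linear relations
  have e0 : b i 1 * Z (Sum.inl ()) + (b i 2 * Z (Sum.inr (Sum.inl 0)) +
      ∑ j : Fin k, b i j.succ.succ.succ * Z (Sum.inr (Sum.inl j.succ))) = 0 := by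
    rw [← h0, Fintype.sum_sum_type, Fintype.sum_sum_type]
    simp only [l0, Sum.elim_inl, Sum.elim_inr, zero_mul, Finset.sum_const_zero, add_zero,
      Finset.univ_unique, Finset.sum_singleton]
    rw [Fin.sum_univ_succ]
    rfl
  have e1 : -b i 0 * Z (Sum.inl ()) + (b i 2 * Z (Sum.inr (Sum.inr 0)) +
      ∑ j : Fin k, b i j.succ.succ.succ * Z (Sum.inr (Sum.inr j.succ))) = 0 := by
    rw [← h1, Fintype.sum_sum_type, Fintype.sum_sum_type]
    simp only [l1, Sum.elim_inl, Sum.elim_inr, zero_mul, Finset.sum_const_zero, zero_add,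
      Finset.univ_unique, Finset.sum_singleton]
    rw [Fin.sum_univ_succ]
    rfl
  have key : ∀ v : V k, eval₂Hom φ t (par g v) = Z v := by
    intro v
    rcases v with u | j | j
    · show eval₂Hom φ t (C (g 2) * X (Sum.inl ())) = _
      rw [map_mul, eval₂Hom_C, eval₂Hom_X', hg, hφX]
      show b i 2 * (Z (Sum.inl ()) / b i 2) = Z (Sum.inl u)
      rw [mul_div_cancel₀ _ hb]
    · refine Fin.cases ?_ (fun j => ?_) j
      · show eval₂Hom φ t (-(C (g 1) * X (Sum.inl ()) +
          ∑ j : Fin k, C (g j.succ.succ.succ) * X (Sum.inr (Sum.inl j)))) = _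
        rw [map_neg, map_add, map_mul, map_sum, eval₂Hom_C, eval₂Hom_X', hg, hφX]
        have : ∀ j : Fin k, eval₂Hom φ t (C (X (i, j.succ.succ.succ)) * X (Sum.inr (Sum.inl j))) =
            b i j.succ.succ.succ * Z (Sum.inr (Sum.inl j.succ)) / b i 2 := by
          intro j
          rw [map_mul, eval₂Hom_C, eval₂Hom_X', hφX]
          show b i j.succ.succ.succ * (Z (Sum.inr (Sum.inl j.succ)) / b i 2) = _
          ring
        rw [Finset.sum_congr rfl fun j _ => this j, ← Finset.sum_div]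
        show -(b i 1 * (Z (Sum.inl ()) / b i 2) + _) = _
        field_simp
        linear_combination -e0
      · show eval₂Hom φ t (C (g 2) * X (Sum.inr (Sum.inl j))) = _
        rw [map_mul, eval₂Hom_C, eval₂Hom_X', hg, hφX]
        show b i 2 * (Z (Sum.inr (Sum.inl j.succ)) / b i 2) = _
        rw [mul_div_cancel₀ _ hb]
    · refine Fin.cases ?_ (fun j => ?_) j
      · show eval₂Hom φ t (C (g 0) * X (Sum.inl ()) -
          ∑ j : Fin k, C (g j.succ.succ.succ) * X (Sum.inr (Sum.inr j))) = _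
        rw [map_sub, map_mul, map_sum, eval₂Hom_C, eval₂Hom_X', hg, hφX]
        have : ∀ j : Fin k, eval₂Hom φ t (C (X (i, j.succ.succ.succ)) * X (Sum.inr (Sum.inr j))) =
            b i j.succ.succ.succ * Z (Sum.inr (Sum.inr j.succ)) / b i 2 := by
          intro j
          rw [map_mul, eval₂Hom_C, eval₂Hom_X', hφX]
          show b i j.succ.succ.succ * (Z (Sum.inr (Sum.inr j.succ)) / b i 2) = _
          ring
        rw [Finset.sum_congr rfl fun j _ => this j, ← Finset.sum_div]
        show b i 0 * (Z (Sum.inl ()) / b i 2) - _ = _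
        field_simp
        linear_combination -e1
      · show eval₂Hom φ t (C (g 2) * X (Sum.inr (Sum.inr j))) = _
        rw [map_mul, eval₂Hom_C, eval₂Hom_X', hg, hφX]
        show b i 2 * (Z (Sum.inr (Sum.inr j.succ)) / b i 2) = _
        rw [mul_div_cancel₀ _ hb]
  have hcomp : (eval₂Hom φ t).comp (aeval (par g) :
      MvPolynomial (V k) (MvPolynomial (ι × Fin (k + 3)) ℚ) →ₐ[MvPolynomial (ι × Fin (k + 3)) ℚ]
        MvPolynomial (T k) (MvPolynomial (ι × Fin (k + 3)) ℚ)).toRingHom = eval₂Hom φ Z := by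
    apply MvPolynomial.ringHom_ext
    · intro r
      show eval₂Hom φ t (aeval (par g) (C r)) = eval₂Hom φ Z (C r)
      rw [eval₂Hom_C, ← MvPolynomial.algebraMap_eq, AlgHom.commutes, MvPolynomial.algebraMap_eq,
        eval₂Hom_C]
    · intro v
      show eval₂Hom φ t (aeval (par g) (X v)) = eval₂Hom φ Z (X v)
      rw [aeval_X, eval₂Hom_X', key]
  have h2 : eval₂Hom φ t (aeval (par g) P) = eval₂Hom φ Z P := RingHom.congr_fun hcomp P
  rw [hP, map_zero] at h2
  show eval Z (MvPolynomial.map φ P) = 0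
  rw [eval_map]
  exact h2.symm

end Pool.Agent.LG
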