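import Pool.Agent.Lib_MP_b9fedf_lg.UniForm
import Pool.Agent.Lib_MP_b9fedf_lg.SpecVan
import Pool.Agent.Lib_MP_b9fedf_lg.Matroid
import Pool.Agent.Lib_MP_b9fedf_lg.MatA
import Pool.Agent.Lib_MP_b9fedf_lg.MatB
import Pool.Agent.Lib_MP_b9fedf_lg.Position
import Pool.Agent.Lib_MP_b9fedf_lg.Normal

/-! Assembly: forms which vanish on the lines in most of the generic hyperplanes and do not vanish at
a given line. -/

set_option autoImplicit false

namespace Pool.Agent.LG
open MvPolynomial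

private theorem eval_scale_gen {σ : Type} [Fintype σ] {d : ℕ} {P : MvPolynomial σ ℂ} (hP : P.IsHomogeneous d)
    (t : ℂ) (x : σ → ℂ) : eval (fun i => t * x i) P = t ^ d * eval x P := by
  classical
  rw [eval_eq', eval_eq', Finset.mul_sum]
  refine Finset.sum_congr rfl fun s hs => ?_
  have h1 : ∑ i, s i = d := by
    have := hP (mem_support_iff.mp hs)
    rw [Finsupp.weight_apply, Finsupp.sum_fintype _ _ (by simp)] at this
    simpa using this
  have h2 : ∏ i, (t * x i) ^ s i = t ^ d * ∏ i, x i ^ s i := by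
    rw [← h1, ← Finset.prod_pow_eq_pow_sum, ← Finset.prod_mul_distrib]
    exact Finset.prod_congr rfl fun i _ => mul_pow _ _ _
  rw [h2]
  ring

private theorem pl_smul_gen {k : ℕ} (t : ℂ) (u v : Fin (k + 3) → ℂ) :
    pl (t • u) (t • v) = fun s => t * t * pl u v s := by
  funext s
  rcases s with _ | s | s <;>
    simp only [pl, Sum.elim_inl, Sum.elim_inr, Pi.smul_apply, smul_eq_mul] <;> ring

/-- For generic hyperplanes `a i` and a line there are at most `2k+2` hyperplanes (those in `R`),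
coordinates `g` and a form `P` in the Plücker coordinates, of degree `(2k+2)(s-1)`, which vanishes on
the lines in the hyperplanes which are not in `R` and does not vanish at the given line. -/
theorem generic_form {k s : ℕ} {ι : Type} [Fintype ι] [DecidableEq ι] (hs : 2 ≤ s)
    (hq : Fintype.card ι ≤ s ^ 2) (a : ι → Fin (k + 3) → ℂ)
    (ha : AlgebraicIndependent ℚ (fun p : ι × Fin (k + 3) => a p.1 p.2))
    (u v : Fin (k + 3) → ℂ) (huv : LinearIndependent ℂ ![u, v]) :
    ∃ (R : Finset ι) (g h : Matrix (Fin (k + 3)) (Fin (k + 3)) ℂ) (P : MvPolynomial (V k) ℂ),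
      R.card ≤ 2 * k + 2 ∧ g * h = 1 ∧ P.IsHomogeneous ((2 * k + 2) * (s - 1)) ∧
      (∀ i, i ∉ R → ∀ Z : V k → ℂ, ∑ t, l0 (Matrix.vecMul (a i) g) t * Z t = 0 →
        ∑ t, l1 (Matrix.vecMul (a i) g) t * Z t = 0 → eval Z P = 0) ∧
      (∀ S : Finset ι, S.card ≤ k + 3 → LinearIndependent ℂ (fun i : S =>
        Matrix.vecMul (a i) g)) ∧
      (∀ S : Finset ι, S.card ≤ k + 1 → LinearIndependent ℂ (fun i : S => fun j : Fin (k + 1) =>
        Matrix.vecMul (a i) g j.succ.succ)) ∧
      eval (pl (h.mulVec u) (h.mulVec v)) P ≠ 0 := by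
  classical
  obtain ⟨x, u', v', c, hc, hu', hv', huv', hpl⟩ := normalise u v huv
  obtain ⟨S, hS, hSi⟩ := indep_off (fun p : ι × Fin (k + 3) => a p.1 p.2) ha x
  set R : Finset ι := S.image Prod.fst with hR
  have hRc : R.card ≤ 2 * k + 2 := Finset.card_image_le.trans hS
  set ι' : Type := {i : ι // i ∉ R} with hι'
  have hq' : Fintype.card ι' ≤ s ^ 2 := (Fintype.card_subtype_le _).trans hq
  obtain ⟨P, hP0, hPh, hPv⟩ := universal_form (k := k) (ι := ι') hs hq'
  obtain ⟨gz, b, hgz, hb⟩ := exists_integral P hP0 hPh u' v' huv'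
  set a' : ι' → Fin (k + 3) → ℂ := fun i => a i with ha'
  have hai : AlgebraicIndependent (Algebra.adjoin ℚ (Set.range x))
      (fun p : ι' × Fin (k + 3) => a' p.1 p.2) := by
    let e : ι' × Fin (k + 3) → {e : ι × Fin (k + 3) // e ∉ S} := fun p =>
      ⟨(p.1, p.2), fun h => p.1.2 (Finset.mem_image.mpr ⟨_, h, rfl⟩)⟩
    have he : Function.Injective e := by
      intro p q hpq
      have h1 := congrArg Subtype.val hpq
      simp only [e, Prod.mk.injEq] at h1
      exact Prod.ext (Subtype.ext h1.1) h1.2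
    exact hSi.comp e he
  have key := generic_eval P _ u' v' hu' hv' gz hgz b hb a' hai
  set gc : Matrix (Fin (k + 3)) (Fin (k + 3)) ℂ := gz.map (Int.cast : ℤ → ℂ) with hgc
  have hdet : gc.det ≠ 0 := by
    have h1 : gc.det = ((gz.det : ℤ) : ℂ) := by
      rw [hgc]
      exact (Int.cast_det gz).symm
    rw [h1]
    exact_mod_cast hgz
  have hunit : IsUnit gc.det := isUnit_iff_ne_zero.mpr hdet
  set Pa : MvPolynomial (V k) ℂ := spec (fun i => Matrix.vecMul (a' i) gc) P with hPa
  have hPah : Pa.IsHomogeneous ((2 * k + 2) * (s - 1)) := hPh.map _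
  refine ⟨R, gc, gc⁻¹, Pa, hRc, Matrix.mul_nonsing_inv _ hunit, hPah, ?_, ?_, ?_, ?_⟩
  · intro i hi Z h0 h1
    have h2 := two_ne_of_algInd a ha gz hgz i
    exact spec_vanish P ⟨i, hi⟩ (hPv ⟨i, hi⟩) (fun i => Matrix.vecMul (a' i) gc) h2 Z h0 h1
  · intro S hS
    have h1 := gp_of_algInd a ha S hS
    have h2 : Function.Injective (Matrix.vecMulLinear gc) := by
      intro x y hxy
      have h3 : Matrix.vecMul (Matrix.vecMul x gc) gc⁻¹ = Matrix.vecMul (Matrix.vecMul y gc) gc⁻¹ := by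
        rw [show Matrix.vecMul x gc = Matrix.vecMul y gc from hxy]
      rwa [Matrix.vecMul_vecMul, Matrix.vecMul_vecMul, Matrix.mul_nonsing_inv _ hunit,
        Matrix.vecMul_one, Matrix.vecMul_one] at h3
    exact h1.map' (Matrix.vecMulLinear gc) (LinearMap.ker_eq_bot.mpr h2)
  · intro S hS
    exact tails_of_algInd a ha gz hgz S hS
  · rw [hpl, eval_scale_gen hPah]
    have h1 : gc⁻¹ = (gc.det)⁻¹ • gc.adjugate := by
      rw [Matrix.inv_def, Ring.inverse_eq_inv']
    have h2 : pl (gc⁻¹.mulVec u') (gc⁻¹.mulVec v') = fun s => ((gc.det)⁻¹ * (gc.det)⁻¹) *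
        pl (gc.adjugate.mulVec u') (gc.adjugate.mulVec v') s := by
      rw [h1, Matrix.smul_mulVec, Matrix.smul_mulVec, pl_smul_gen]
    rw [h2, eval_scale_gen hPah]
    exact mul_ne_zero (pow_ne_zero _ hc) (mul_ne_zero
      (pow_ne_zero _ (mul_ne_zero (inv_ne_zero hdet) (inv_ne_zero hdet))) key)

end Pool.Agent.LG
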