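import Pool.Agent.Lib_MP_b9fedf_lo.GenAvg

/-! [LG-C1]: the greedy estimate for hyperplanes in subgeneral position. -/

set_option autoImplicit false

namespace Pool.Agent.LG
open Pool.Agent.LO

private theorem gsub_span {m : ℕ} {ι : Type} [Fintype ι] (q : ι → Fin (m + 1) → ℂ) (S : Finset ι) :
    ∃ W : ℝ, 1 ≤ W ∧ (Submodule.span ℂ (q '' S) = ⊤ → ∀ x : Fin (m + 1) → ℂ, x ≠ 0 →
      ∃ i ∈ S, ‖x‖ ≤ W * ‖∑ a, q i a * x a‖) := by
  classical
  by_cases hS : Submodule.span ℂ (q '' S) = ⊤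
  · have h1 : ∀ a : Fin (m + 1), ∃ c : ι → ℂ, ∑ i ∈ S, c i • q i = Pi.single a 1 := by
      intro a
      have h2 : (Pi.single a 1 : Fin (m + 1) → ℂ) ∈ Submodule.span ℂ (q '' S) := by
        rw [hS]
        exact Submodule.mem_top
      exact (Submodule.mem_span_image_finset_iff_exists_fun' (R := ℂ)).1 h2
    choose c hc using h1
    have hsum0 : 0 ≤ ∑ a, ∑ i ∈ S, ‖c a i‖ :=
      Finset.sum_nonneg fun a _ => Finset.sum_nonneg fun i _ => norm_nonneg _
    refine ⟨1 + ∑ a, ∑ i ∈ S, ‖c a i‖, by linarith, fun _ x hx => ?_⟩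
    by_contra hcon
    push Not at hcon
    obtain ⟨W, hW⟩ : ∃ W, W = 1 + ∑ a, ∑ i ∈ S, ‖c a i‖ := ⟨_, rfl⟩
    rw [← hW] at hcon
    have hW1 : 1 ≤ W := by linarith
    have hxn : 0 < ‖x‖ := norm_pos_iff.2 hx
    have h2 : ∀ a, x a = ∑ i ∈ S, c a i * ∑ b, q i b * x b := by
      intro a
      have h3 : ∑ b, (∑ i ∈ S, c a i • q i) b * x b = x a := by
        rw [hc a]
        simp [Pi.single_apply]
      rw [← h3]
      simp only [Finset.sum_apply, Pi.smul_apply, smul_eq_mul, Finset.sum_mul, Finset.mul_sum]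
      rw [Finset.sum_comm]
      refine Finset.sum_congr rfl fun i _ => Finset.sum_congr rfl fun b _ => ?_
      ring
    have h4 : ∀ a, W * ‖x a‖ ≤ (W - 1) * ‖x‖ := by
      intro a
      have h5 : ‖x a‖ ≤ ∑ i ∈ S, ‖c a i‖ * ‖∑ b, q i b * x b‖ := by
        rw [h2 a]
        refine (norm_sum_le _ _).trans (Finset.sum_le_sum fun i _ => ?_)
        rw [norm_mul]
      have h6 : W * ∑ i ∈ S, ‖c a i‖ * ‖∑ b, q i b * x b‖ ≤ ∑ i ∈ S, ‖c a i‖ * ‖x‖ := by
        rw [Finset.mul_sum]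
        refine Finset.sum_le_sum fun i hi => ?_
        have := mul_le_mul_of_nonneg_left (hcon i hi).le (norm_nonneg (c a i))
        linarith
      have h7 : ∑ i ∈ S, ‖c a i‖ ≤ W - 1 := by
        have h8 : ∑ i ∈ S, ‖c a i‖ ≤ ∑ a, ∑ i ∈ S, ‖c a i‖ :=
          Finset.single_le_sum (f := fun a => ∑ i ∈ S, ‖c a i‖)
            (fun a _ => Finset.sum_nonneg fun i _ => norm_nonneg _) (Finset.mem_univ a)
        linarith
      calc W * ‖x a‖ ≤ W * ∑ i ∈ S, ‖c a i‖ * ‖∑ b, q i b * x b‖ :=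
            mul_le_mul_of_nonneg_left h5 (by linarith)
        _ ≤ ∑ i ∈ S, ‖c a i‖ * ‖x‖ := h6
        _ = (∑ i ∈ S, ‖c a i‖) * ‖x‖ := by rw [Finset.sum_mul]
        _ ≤ (W - 1) * ‖x‖ := mul_le_mul_of_nonneg_right h7 (norm_nonneg _)
    have h9 : ‖x‖ ≤ (W - 1) * ‖x‖ / W := by
      rw [pi_norm_le_iff_of_nonneg (by
        have : 0 ≤ W - 1 := by linarith
        positivity)]
      intro a
      rw [le_div_iff₀ (by linarith)]
      linarith [h4 a]
    rw [le_div_iff₀ (by linarith)] at h9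
    linarith
  · exact ⟨1, le_rfl, fun h => absurd h hS⟩

private theorem gsub_upper {m : ℕ} {ι : Type} [Fintype ι] (q : ι → Fin (m + 1) → ℂ) :
    ∃ M : ℝ, 1 ≤ M ∧ ∀ (i : ι) (x : Fin (m + 1) → ℂ), ‖∑ a, q i a * x a‖ ≤ M * ‖x‖ := by
  refine ⟨1 + ∑ i, ∑ a, ‖q i a‖, ?_, fun i x => ?_⟩
  · have : 0 ≤ ∑ i, ∑ a, ‖q i a‖ :=
      Finset.sum_nonneg fun a _ => Finset.sum_nonneg fun i _ => norm_nonneg _
    linarith
  · have h1 : ‖∑ a, q i a * x a‖ ≤ (∑ a, ‖q i a‖) * ‖x‖ := by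
      rw [Finset.sum_mul]
      refine (norm_sum_le _ _).trans (Finset.sum_le_sum fun a _ => ?_)
      rw [norm_mul]
      exact mul_le_mul_of_nonneg_left (norm_le_pi_norm x a) (norm_nonneg _)
    have h2 : ∑ a, ‖q i a‖ ≤ ∑ i, ∑ a, ‖q i a‖ :=
      Finset.single_le_sum (f := fun i => ∑ a, ‖q i a‖)
        (fun a _ => Finset.sum_nonneg fun i _ => norm_nonneg _) (Finset.mem_univ i)
    refine h1.trans (mul_le_mul_of_nonneg_right ?_ (norm_nonneg _))
    linarith

private theorem gsub_basis {m : ℕ} {ι : Type} [Fintype ι] (q : ι → Fin (m + 1) → ℂ)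
    (hq0 : ∀ i, q i ≠ 0) (hsp : Submodule.span ℂ (Set.range q) = ⊤) (i₀ : ι) :
    ∃ κ : Fin (m + 1) → ι, LinearIndependent ℂ (fun k => q (κ k)) ∧ ∃ k, κ k = i₀ := by
  classical
  have h1 : LinearIndepOn ℂ q {i₀} := by
    rw [linearIndepOn_singleton_iff]
    exact hq0 i₀
  obtain ⟨b, -, h2, h3, h4⟩ := exists_linearIndepOn_extension h1 (Set.subset_univ _)
  have h5 : ⊤ ≤ Submodule.span ℂ (Set.range fun i : b => q i) := by
    rw [← hsp]
    refine Submodule.span_le.2 ?_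
    have e : (Set.range fun i : b => q i) = q '' b := by
      ext y
      simp
    rw [e, ← Set.image_univ]
    exact h3
  haveI : Fintype b := Fintype.ofFinite b
  have hb : Module.Basis b ℂ (Fin (m + 1) → ℂ) := Module.Basis.mk h4 h5
  have hcard : Fintype.card b = m + 1 := by
    rw [← Module.finrank_eq_card_basis hb]
    simp
  let e := (Fintype.equivFinOfCardEq hcard).symm
  refine ⟨fun k => (e k : ι), ?_, e.symm ⟨i₀, h2 (Set.mem_singleton _)⟩, ?_⟩
  · have h6 : LinearIndependent ℂ (fun i : b => q i) := h4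
    exact h6.comp e e.injective
  · simp

/-- [LG-C1] If any `n + 1` members span, the greedy estimate holds with the weight `n`.
(With `λ i = log ‖x‖ - log |q i · x|`: at most `n` of the `λ i` exceed a constant (compactness or
dual bases: if `q i`, `i ∈ S`, span, then `c ‖x‖ ≤ max_{i ∈ S} |q i · x|`); all `λ i` are bounded
below.  Let `λ i₀` be the largest one; extend `q i₀` to a basis `q (κ k)`, `κ 0 = i₀`.) -/
theorem greedy_sub {m n : ℕ} {ι : Type} [Fintype ι] (q : ι → Fin (m + 1) → ℂ)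
    (hq0 : ∀ i, q i ≠ 0) (hcard : n + 1 ≤ Fintype.card ι)
    (hsp : ∀ S : Finset ι, S.card = n + 1 → Submodule.span ℂ (q '' S) = ⊤) :
    Greedy q n := by
  classical
  have hW := gsub_span q
  choose W hW1 hW2 using hW
  obtain ⟨M, hM1, hM⟩ := gsub_upper q
  have hlM : 0 ≤ Real.log M := Real.log_nonneg hM1
  have hspan : Submodule.span ℂ (Set.range q) = ⊤ := by
    obtain ⟨S, -, hS⟩ := Finset.exists_subset_card_eq (s := (Finset.univ : Finset ι))
      (by rwa [Finset.card_univ] : n + 1 ≤ _)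
    refine top_unique ?_
    rw [← hsp S hS]
    exact Submodule.span_mono (Set.image_subset_range _ _)
  haveI : Nonempty ι := Fintype.card_pos_iff.1 (by omega)
  obtain ⟨C1, hC1⟩ : ∃ C1, C1 = ∑ S : Finset ι, Real.log (W S) := ⟨_, rfl⟩
  have hC1W : ∀ S, Real.log (W S) ≤ C1 := by
    intro S
    rw [hC1]
    exact Finset.single_le_sum (f := fun S => Real.log (W S))
      (fun S _ => Real.log_nonneg (hW1 S)) (Finset.mem_univ S)
  have hC10 : 0 ≤ C1 := (Real.log_nonneg (hW1 ∅)).trans (hC1W ∅)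
  refine ⟨Fintype.card ι * C1 + n * ((m + 1) * Real.log M), fun x hx => ?_⟩
  obtain ⟨l, hl⟩ : ∃ l : ι → ℝ, l = fun i => Real.log ‖x‖ - Real.log ‖∑ a, q i a * x a‖ := ⟨_, rfl⟩
  have hli : ∀ i, Real.log ‖x‖ - Real.log ‖∑ a, q i a * x a‖ = l i := fun i => by rw [hl]
  simp only [hli]
  obtain ⟨i₀, -, hi₀⟩ := Finset.exists_max_image (Finset.univ : Finset ι) l Finset.univ_nonempty
  have hx0 : x ≠ 0 := by
    rintro rfl
    apply hx i₀
    simp
  have hxn : 0 < ‖x‖ := norm_pos_iff.2 hx0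
  have hqn : ∀ i, 0 < ‖∑ a, q i a * x a‖ := fun i => norm_pos_iff.2 (hx i)
  have hlow : ∀ i, -Real.log M ≤ l i := by
    intro i
    rw [hl]
    have h1 := Real.log_le_log (hqn i) (hM i x)
    rw [Real.log_mul (by linarith) hxn.ne'] at h1
    show -Real.log M ≤ Real.log ‖x‖ - Real.log ‖∑ a, q i a * x a‖
    linarith
  obtain ⟨κ, hκ, k₀, hk₀⟩ := gsub_basis q hq0 hspan i₀
  refine ⟨κ, hκ, ?_⟩
  -- the large ones
  have hT : (Finset.univ.filter fun i => C1 < l i).card ≤ n := by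
    by_contra hcon
    push Not at hcon
    obtain ⟨S, hS1, hS2⟩ := Finset.exists_subset_card_eq (Nat.succ_le_of_lt hcon)
    obtain ⟨i, hi, hi2⟩ := hW2 S (hsp S hS2) x hx0
    have h1 := (Finset.mem_filter.1 (hS1 hi)).2
    have h2 := Real.log_le_log hxn hi2
    rw [Real.log_mul (by linarith [hW1 S]) (hqn i).ne'] at h2
    rw [hl] at h1
    have h3 := hC1W S
    have h4 : C1 < Real.log ‖x‖ - Real.log ‖∑ a, q i a * x a‖ := h1
    linarith
  have hmax : 0 ≤ l i₀ + Real.log M := by linarith [hlow i₀]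
  have h1 : ∑ i, l i ≤ (n : ℝ) * (l i₀ + Real.log M) + Fintype.card ι * C1 := by
    rw [← Finset.sum_filter_add_sum_filter_not Finset.univ (fun i => C1 < l i)]
    have h2 : ∑ i ∈ Finset.univ.filter (fun i => C1 < l i), l i ≤ (n : ℝ) * (l i₀ + Real.log M) := by
      have h3 : ∑ i ∈ Finset.univ.filter (fun i => C1 < l i), l i ≤
          (Finset.univ.filter (fun i => C1 < l i)).card • (l i₀ + Real.log M) :=
        Finset.sum_le_card_nsmul _ _ _ fun i _ => by linarith [hi₀ i (Finset.mem_univ i)]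
      rw [nsmul_eq_mul] at h3
      refine h3.trans (mul_le_mul_of_nonneg_right ?_ hmax)
      exact_mod_cast hT
    have h4 : ∑ i ∈ Finset.univ.filter (fun i => ¬ C1 < l i), l i ≤ Fintype.card ι * C1 := by
      have h5 : ∑ i ∈ Finset.univ.filter (fun i => ¬ C1 < l i), l i ≤
          (Finset.univ.filter (fun i => ¬ C1 < l i)).card • C1 :=
        Finset.sum_le_card_nsmul _ _ _ fun i hi => not_lt.1 (Finset.mem_filter.1 hi).2
      rw [nsmul_eq_mul] at h5
      refine h5.trans (mul_le_mul_of_nonneg_right ?_ hC10)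
      exact_mod_cast Finset.card_le_univ _
    linarith
  have h6 : l i₀ + Real.log M ≤ ∑ k, (l (κ k) + Real.log M) := by
    have h7 := Finset.single_le_sum (f := fun k => l (κ k) + Real.log M)
      (fun k _ => by linarith [hlow (κ k)]) (Finset.mem_univ k₀)
    simp only [hk₀] at h7
    exact h7
  rw [Finset.sum_add_distrib, Finset.sum_const, Finset.card_univ, Fintype.card_fin, nsmul_eq_mul] at h6
  push_cast at h6
  have h8 := mul_le_mul_of_nonneg_left h6 (Nat.cast_nonneg n : (0 : ℝ) ≤ n)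
  linarith

end Pool.Agent.LG
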