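import Pool.Agent.Lib_MP_b9fedf_lg.Defs

/-! Identities for the linear forms `l0`, `l1`. -/

set_option autoImplicit false

namespace Pool.Agent.LG

theorem sum_two {k : ℕ} (w : Fin (k + 3) → ℂ) :
    ∑ j, w j = w 0 + w 1 + ∑ j : Fin (k + 1), w j.succ.succ := by
  rw [Fin.sum_univ_succ, Fin.sum_univ_succ, ← add_assoc]
  rfl

theorem l0_pl {k : ℕ} (b u v : Fin (k + 3) → ℂ) :
    ∑ t, l0 b t * pl u v t = u 0 * (∑ j, b j * v j) - v 0 * (∑ j, b j * u j) := by
  simp only [Fintype.sum_sum_type, l0, pl, Sum.elim_inl, Sum.elim_inr, Finset.univ_unique,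
    Finset.sum_singleton, zero_mul, Finset.sum_const_zero, add_zero]
  rw [sum_two (fun j => b j * v j), sum_two (fun j => b j * u j)]
  have h1 : ∀ j : Fin (k + 1), b j.succ.succ * (u 0 * v j.succ.succ - u j.succ.succ * v 0) =
      u 0 * (b j.succ.succ * v j.succ.succ) - v 0 * (b j.succ.succ * u j.succ.succ) := by
    intro j
    ring
  rw [Finset.sum_congr rfl fun j _ => h1 j, Finset.sum_sub_distrib, ← Finset.mul_sum,
    ← Finset.mul_sum]
  ring

theorem l1_pl {k : ℕ} (b u v : Fin (k + 3) → ℂ) :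
    ∑ t, l1 b t * pl u v t = u 1 * (∑ j, b j * v j) - v 1 * (∑ j, b j * u j) := by
  simp only [Fintype.sum_sum_type, l1, pl, Sum.elim_inl, Sum.elim_inr, Finset.univ_unique,
    Finset.sum_singleton, zero_mul, Finset.sum_const_zero, zero_add]
  rw [sum_two (fun j => b j * v j), sum_two (fun j => b j * u j)]
  have h1 : ∀ j : Fin (k + 1), b j.succ.succ * (u 1 * v j.succ.succ - u j.succ.succ * v 1) =
      u 1 * (b j.succ.succ * v j.succ.succ) - v 1 * (b j.succ.succ * u j.succ.succ) := by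
    intro j
    ring
  rw [Finset.sum_congr rfl fun j _ => h1 j, Finset.sum_sub_distrib, ← Finset.mul_sum,
    ← Finset.mul_sum]
  ring

end Pool.Agent.LG
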