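import Pool.Agent.Lib_MP_b9fedf_lg.Defs

/-! [LG-A1], [LG-A2]: forms which vanish on many linear subspaces, by counting. -/

set_option autoImplicit false

namespace Pool.Agent.LG
open MvPolynomial

private theorem lgk_coeff {F σ : Type} [Field F] [Fintype σ] [DecidableEq σ] (w : ℕ)
    (c : (Finset.finsuppAntidiag (Finset.univ : Finset σ) w) → F)
    (m : Finset.finsuppAntidiag (Finset.univ : Finset σ) w) :
    coeff (m : σ →₀ ℕ) (∑ m' : (Finset.finsuppAntidiag (Finset.univ : Finset σ) w),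
      monomial (m' : σ →₀ ℕ) (c m')) = c m := by
  classical
  rw [coeff_sum]
  simp only [coeff_monomial]
  rw [Finset.sum_eq_single m]
  · simp
  · intro b _ hb
    rw [if_neg]
    intro h
    exact hb (Subtype.ext h)
  · intro h
    exact absurd (Finset.mem_univ m) h

/-- [LG-A1] If there are more coefficients than conditions, there is a form of degree `w` which
vanishes under all the substitutions `φ i`.  (Coefficient vectors indexed by
`Finset.finsuppAntidiag Finset.univ w`, `Finset.card_finsuppAntidiag_nat_eq_choose`,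
`LinearMap.exists_ne_zero_of_...` / `LinearMap.ker_ne_bot_of_finrank_lt`; see
`Lib_MP_b9fedf_ag/TanCnt.lean`.) -/
theorem forms_kernel {F : Type} [Field F] {σ τ ι : Type} [Fintype σ] [Fintype τ] [Fintype ι]
    (w : ℕ) (φ : ι → σ → MvPolynomial τ F) (hφ : ∀ i s, (φ i s).IsHomogeneous 1)
    (hcard : Fintype.card ι * (Fintype.card τ + w - 1).choose w <
      (Fintype.card σ + w - 1).choose w) :
    ∃ P : MvPolynomial σ F, P ≠ 0 ∧ P.IsHomogeneous w ∧ ∀ i, aeval (φ i) P = 0 := by
  classical
  let Q : ((Finset.finsuppAntidiag (Finset.univ : Finset σ) w) → F) →ₗ[F] MvPolynomial σ F :=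
    { toFun := fun c => ∑ m : (Finset.finsuppAntidiag (Finset.univ : Finset σ) w),
        monomial (m : σ →₀ ℕ) (c m)
      map_add' := fun c d => by
        simp only [Pi.add_apply, map_add, Finset.sum_add_distrib]
      map_smul' := fun a c => by
        simp only [Pi.smul_apply, smul_eq_mul, RingHom.id_apply, Finset.smul_sum, smul_monomial] }
  let L : ((Finset.finsuppAntidiag (Finset.univ : Finset σ) w) → F) →ₗ[F]
      (ι × (Finset.finsuppAntidiag (Finset.univ : Finset τ) w) → F) :=
    LinearMap.pi fun im => (lcoeff F (im.2 : τ →₀ ℕ)).comp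
      ((aeval (φ im.1) : MvPolynomial σ F →ₐ[F] MvPolynomial τ F).toLinearMap.comp Q)
  have hfin : Module.finrank F (ι × (Finset.finsuppAntidiag (Finset.univ : Finset τ) w) → F) <
      Module.finrank F ((Finset.finsuppAntidiag (Finset.univ : Finset σ) w) → F) := by
    rw [Module.finrank_fintype_fun_eq_card, Module.finrank_fintype_fun_eq_card,
      Fintype.card_prod, Fintype.card_coe, Fintype.card_coe,
      Finset.card_finsuppAntidiag_nat_eq_choose, Finset.card_finsuppAntidiag_nat_eq_choose,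
      Finset.card_univ, Finset.card_univ]
    exact hcard
  have hker := LinearMap.ker_ne_bot_of_finrank_lt (f := L) hfin
  obtain ⟨c, hc, hc0⟩ := (Submodule.ne_bot_iff _).mp hker
  have hQ : ∀ m, coeff ((m : Finset.finsuppAntidiag (Finset.univ : Finset σ) w) : σ →₀ ℕ) (Q c) =
      c m := fun m => lgk_coeff w c m
  have hom : (Q c).IsHomogeneous w := by
    refine IsHomogeneous.sum _ _ _ fun m _ => ?_
    refine isHomogeneous_monomial _ ?_
    have h := m.2
    rw [Finset.mem_finsuppAntidiag] at h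
    rw [Finsupp.degree_eq_sum]
    exact h.1
  refine ⟨Q c, ?_, hom, fun i => ?_⟩
  · intro h0
    apply hc0
    funext m
    rw [← hQ m, h0]
    simp
  · have hh := hom.aeval (φ i) (hφ i)
    rw [one_mul] at hh
    ext m
    rw [coeff_zero]
    by_cases hm : m.degree = w
    · have hmem : m ∈ Finset.finsuppAntidiag (Finset.univ : Finset τ) w := by
        rw [Finset.mem_finsuppAntidiag]
        refine ⟨?_, Finset.subset_univ _⟩
        rw [← hm, Finsupp.degree_eq_sum]
      exact congrFun (LinearMap.mem_ker.mp hc) (i, ⟨m, hmem⟩)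
    · exact hh.coeff_eq_zero hm

/-- [LG-A2] the numerical condition -/
theorem choose_lt {k s q : ℕ} (hs : 2 ≤ s) (hq : q ≤ s ^ 2) :
    q * (2 * k + 1 + (2 * k + 2) * (s - 1) - 1).choose ((2 * k + 2) * (s - 1)) <
      (2 * k + 3 + (2 * k + 2) * (s - 1) - 1).choose ((2 * k + 2) * (s - 1)) := by
  obtain ⟨t, rfl⟩ : ∃ t, s = t + 1 := ⟨s - 1, by omega⟩
  have ht : 1 ≤ t := by omega
  rw [Nat.add_sub_cancel]
  obtain ⟨w, hw⟩ : ∃ w, w = (2 * k + 2) * t := ⟨_, rfl⟩
  rw [← hw]
  have e1 : 2 * k + 1 + w - 1 = 2 * k + w := by omega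
  have e2 : 2 * k + 3 + w - 1 = 2 * k + 2 + w := by omega
  rw [e1, e2]
  have s1 : (2 * k + w).choose w = (2 * k + w).choose (2 * k) := by
    rw [Nat.choose_symm_add]
  have s2 : (2 * k + 2 + w).choose w = (2 * k + 2 + w).choose (2 * k + 2) := by
    rw [Nat.choose_symm_add]
  rw [s1, s2]
  have f1 := Nat.add_one_mul_choose_eq (2 * k + w) (2 * k)
  have f2 := Nat.add_one_mul_choose_eq (2 * k + w + 1) (2 * k + 1)
  have e3 : 2 * k + w + 1 + 1 = 2 * k + 2 + w := by ring
  have e4 : 2 * k + 1 + 1 = 2 * k + 2 := by ring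
  rw [e3, e4] at f2
  set A := (2 * k + w).choose (2 * k) with hA
  set B := (2 * k + w + 1).choose (2 * k + 1) with hB
  set C := (2 * k + 2 + w).choose (2 * k + 2) with hC
  have hA0 : 0 < A := Nat.choose_pos (by omega)
  -- `C (2k+2)(2k+1) = (2k+2+w)(2k+w+1) A`
  have f3 : C * ((2 * k + 2) * (2 * k + 1)) = (2 * k + 2 + w) * (2 * k + w + 1) * A := by
    calc C * ((2 * k + 2) * (2 * k + 1)) = C * (2 * k + 2) * (2 * k + 1) := by ring
      _ = (2 * k + 2 + w) * B * (2 * k + 1) := by rw [f2]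
      _ = (2 * k + 2 + w) * (B * (2 * k + 1)) := by ring
      _ = (2 * k + 2 + w) * ((2 * k + w + 1) * A) := by rw [f1]
      _ = _ := by ring
  have f4 : q * ((2 * k + 2) * (2 * k + 1)) < (2 * k + 2 + w) * (2 * k + w + 1) := by
    have h1 : q * ((2 * k + 2) * (2 * k + 1)) ≤ (t + 1) ^ 2 * ((2 * k + 2) * (2 * k + 1)) :=
      Nat.mul_le_mul_right _ hq
    refine lt_of_le_of_lt h1 ?_
    rw [hw]
    nlinarith [Nat.zero_le (k * t), Nat.zero_le k, mul_pos (by omega : 0 < t) (by omega : 0 < t + 1)]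
  by_contra hcon
  push Not at hcon
  have g1 : C * ((2 * k + 2) * (2 * k + 1)) ≤ q * A * ((2 * k + 2) * (2 * k + 1)) :=
    Nat.mul_le_mul_right _ hcon
  have g2 : q * ((2 * k + 2) * (2 * k + 1)) * A < (2 * k + 2 + w) * (2 * k + w + 1) * A :=
    Nat.mul_lt_mul_of_pos_right f4 hA0
  rw [f3] at g1
  have g3 : q * A * ((2 * k + 2) * (2 * k + 1)) = q * ((2 * k + 2) * (2 * k + 1)) * A := by ring
  omega

end Pool.Agent.LG
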