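import Pool.Agent.Lib_MP_b9fedf_lg.OrderProd

/-! [LG-B2]: the order of vanishing at the points where the curve is tangent to hyperplanes. -/

set_option autoImplicit false

namespace Pool.Agent.LG
open MvPolynomial Filter Topology

theorem eval_scale' {σ : Type} [Fintype σ] {d : ℕ} {P : MvPolynomial σ ℂ} (hP : P.IsHomogeneous d)
    (t : ℂ) (x : σ → ℂ) : eval (fun i => t * x i) P = t ^ d * eval x P := by
  classical
  rw [eval_eq', eval_eq', Finset.mul_sum]
  refine Finset.sum_congr rfl fun s hs => ?_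
  have h1 : ∑ i, s i = d := by
    have := hP (mem_support_iff.mp hs)
    rw [Finsupp.weight_apply, Finsupp.sum_fintype _ _ (by simp)] at this
    simpa using this
  have h2 : ∏ i, (t * x i) ^ s i = t ^ d * ∏ i, x i ^ s i := by
    rw [← h1, ← Finset.prod_pow_eq_pow_sum, ← Finset.prod_mul_distrib]
    exact Finset.prod_congr rfl fun i _ => mul_pow _ _ _
  rw [h2]
  ring

/-- independent vectors annihilated by independent forms -/
theorem ann_card {N : ℕ} {σ τ : Type} [Fintype σ] [Fintype τ] (w : τ → Fin N → ℂ)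
    (hw : LinearIndependent ℂ w) (x : σ → Fin N → ℂ) (hx : LinearIndependent ℂ x)
    (h : ∀ t s, ∑ j, w t j * x s j = 0) : Fintype.card τ + Fintype.card σ ≤ N := by
  classical
  obtain ⟨r, hr⟩ := exists_dual w hw
  obtain ⟨A, hA⟩ : ∃ A : (Fin N → ℂ) →ₗ[ℂ] (τ → ℂ), A = Matrix.mulVecLin (Matrix.of w) := ⟨_, rfl⟩
  have hAe : ∀ v t, A v t = ∑ j, w t j * v j := by
    intro v t
    rw [hA]
    rfl
  have hsurj : LinearMap.range A = ⊤ := by
    rw [LinearMap.range_eq_top]
    intro y
    refine ⟨fun j => ∑ t, y t * r t j, ?_⟩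
    funext t
    rw [hAe]
    have e1 : ∑ j, w t j * ∑ t', y t' * r t' j = ∑ t', y t' * ∑ j, w t j * r t' j := by
      simp only [Finset.mul_sum]
      rw [Finset.sum_comm]
      refine Finset.sum_congr rfl fun t' _ => Finset.sum_congr rfl fun j _ => ?_
      ring
    rw [e1, Finset.sum_eq_single t]
    · rw [(hr t).1, mul_one]
    · intro t' _ ht'
      rw [(hr t').2 t (Ne.symm ht'), mul_zero]
    · intro h
      exact absurd (Finset.mem_univ _) h
  have h1 := LinearMap.finrank_range_add_finrank_ker A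
  rw [hsurj, finrank_top, Module.finrank_fintype_fun_eq_card, Module.finrank_fin_fun] at h1
  have h2 : Fintype.card σ ≤ Module.finrank ℂ (LinearMap.ker A) := by
    have h3 : ∀ s, x s ∈ LinearMap.ker A := by
      intro s
      rw [LinearMap.mem_ker]
      funext t
      rw [hAe, h t s]
      rfl
    have h4 : LinearIndependent ℂ (fun s => (⟨x s, h3 s⟩ : LinearMap.ker A)) := by
      refine LinearIndependent.of_comp (LinearMap.ker A).subtype ?_
      exact hx
    exact h4.fintype_card_le_finrank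
  omega

theorem pl_scale {k : ℕ} (f : ℂ) (u v φ G : Fin (k + 3) → ℂ) (c : ℂ)
    (hu : ∀ j, u j = f * φ j) (hv : ∀ j, v j = c * φ j + f * G j) :
    pl u v = fun s => f ^ 2 * pl φ G s := by
  funext s
  rcases s with _ | s | s <;>
    simp only [pl, Sum.elim_inl, Sum.elim_inr, hu, hv] <;> ring

theorem pl_scale_right {k : ℕ} (t : ℂ) (φ G : Fin (k + 3) → ℂ) :
    pl φ (t • G) = fun s => t * pl φ G s := by
  funext s
  rcases s with _ | s | s <;>
    simp only [pl, Sum.elim_inl, Sum.elim_inr, Pi.smul_apply, smul_eq_mul] <;> ring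

theorem l0_pl {k : ℕ} (b φ ψ : Fin (k + 3) → ℂ) :
    ∑ s, l0 b s * pl φ ψ s = φ 0 * (∑ j, b j * ψ j) - ψ 0 * (∑ j, b j * φ j) := by
  rw [Fintype.sum_sum_type, Fintype.sum_sum_type, Fin.sum_univ_succ (n := k + 2),
    Fin.sum_univ_succ (n := k + 1), Fin.sum_univ_succ (n := k + 2), Fin.sum_univ_succ (n := k + 1)]
  simp only [l0, pl, Sum.elim_inl, Sum.elim_inr, zero_mul, Finset.sum_const_zero, add_zero,
    Finset.univ_unique, Finset.sum_singleton, Fin.succ_zero_eq_one]
  simp only [mul_add, mul_sub, Finset.sum_sub_distrib, Finset.mul_sum]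
  have e1 : ∀ i : Fin (k + 1), b i.succ.succ * (φ 0 * ψ i.succ.succ) =
      φ 0 * (b i.succ.succ * ψ i.succ.succ) := fun i => by ring
  have e2 : ∀ i : Fin (k + 1), b i.succ.succ * (φ i.succ.succ * ψ 0) =
      ψ 0 * (b i.succ.succ * φ i.succ.succ) := fun i => by ring
  simp only [e1, e2]
  ring

theorem l1_pl {k : ℕ} (b φ ψ : Fin (k + 3) → ℂ) :
    ∑ s, l1 b s * pl φ ψ s = φ 1 * (∑ j, b j * ψ j) - ψ 1 * (∑ j, b j * φ j) := by
  rw [Fintype.sum_sum_type, Fintype.sum_sum_type, Fin.sum_univ_succ (n := k + 2),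
    Fin.sum_univ_succ (n := k + 1), Fin.sum_univ_succ (n := k + 2), Fin.sum_univ_succ (n := k + 1)]
  simp only [l1, pl, Sum.elim_inl, Sum.elim_inr, zero_mul, Finset.sum_const_zero,
    Finset.univ_unique, Finset.sum_singleton, Fin.succ_zero_eq_one]
  simp only [mul_add, mul_sub, Finset.sum_sub_distrib, Finset.mul_sum]
  have e1 : ∀ i : Fin (k + 1), b i.succ.succ * (φ 1 * ψ i.succ.succ) =
      φ 1 * (b i.succ.succ * ψ i.succ.succ) := fun i => by ring
  have e2 : ∀ i : Fin (k + 1), b i.succ.succ * (φ i.succ.succ * ψ 1) =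
      ψ 1 * (b i.succ.succ * φ i.succ.succ) := fun i => by ring
  simp only [e1, e2]
  ring

/-- independence of the pairs of forms -/
theorem li_pair {k : ℕ} {τ : Type} [Fintype τ] (b : τ → Fin (k + 3) → ℂ)
    (h : LinearIndependent ℂ (fun i : τ => fun j : Fin (k + 1) => b i j.succ.succ)) :
    LinearIndependent ℂ (Sum.elim (fun i => l0 (b i)) (fun i => l1 (b i))) := by
  classical
  rw [Fintype.linearIndependent_iff] at h ⊢
  intro g hg
  rw [Fintype.sum_sum_type] at hg
  simp only [Sum.elim_inl, Sum.elim_inr] at hg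
  have h1 := h (fun i => g (Sum.inl i)) (by
    funext j
    have := congrFun hg (Sum.inr (Sum.inl j))
    simpa [Finset.sum_apply, l0, l1] using this)
  have h2 := h (fun i => g (Sum.inr i)) (by
    funext j
    have := congrFun hg (Sum.inr (Sum.inr j))
    simpa [Finset.sum_apply, l0, l1] using this)
  intro i
  rcases i with i | i
  · exact h1 i
  · exact h2 i

/-- the members through a point and a line -/
theorem card_through {k r : ℕ} {ι : Type} [Fintype ι] (b : ι → Fin (k + 3) → ℂ)
    (hgp : ∀ S : Finset ι, S.card ≤ k + 3 → LinearIndependent ℂ (fun i : S => b i))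
    (x : Fin (r + 1) → Fin (k + 3) → ℂ) (hx : LinearIndependent ℂ x) (hr : r ≤ k + 3)
    (B : Finset ι) (hB : ∀ i ∈ B, ∀ t, ∑ j, b i j * x t j = 0) : B.card + r ≤ k + 2 := by
  by_contra hlt
  obtain ⟨S, hSB, hS⟩ := Finset.exists_subset_card_eq (s := B) (n := k + 3 - r) (by omega)
  have h1 := hgp S (by omega)
  have h2 := ann_card (fun i : S => b i) h1 x hx (fun i t => hB i (hSB i.2) t)
  rw [Fintype.card_coe, Fintype.card_fin, hS] at h2
  omega

/-- [LG-B2] The form `P` of degree `w ≥ k + 2` vanishes on the lines in the hyperplanes `b i`, which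
are in general position. Then the order of `P (F ∧ F')` at `z` is at least the sum of `ord (b i · F) - 1`.

Proof. Choose `i₀` with `F z i₀ ≠ 0`, `φ = F / F_{i₀}`, `φ' = (ζ - z)^e ψ` with `ψ z ≠ 0`, `ψ_{i₀} = 0` (if
`φ' = 0` near `z` the left order is infinite, as `w ≥ 1`).  So `φ z`, `ψ z` are linearly independent and
`pl F F' = F_{i₀}² (ζ - z)^e pl φ ψ`.  If `b i · F` vanishes at `z`, then
`ord (b i · φ)' = o i - 1 = e + ord (b i · ψ)`.  Let `B₁` be the set of the `i` with `b i · φ` and `b i · ψ`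
vanishing at `z`: `B₁.card ≤ k + 1`, and at most `k + 2` members have `b i · φ = 0` at `z` (`hgp`).  On
`B₁` the forms `l0 (b i)`, `l1 (b i)` are linearly independent (`htail`), and
`l0 (b i) · pl φ ψ = φ 0 (b i · ψ) - ψ 0 (b i · φ)`, `l1 (b i) · pl φ ψ = φ 1 (b i · ψ) - ψ 1 (b i · φ)`
have order at least `o i - 1 - e`.  `order_prod` gives
`ord P (pl F F') ≥ w e + ∑_{B₁} (o i - 1 - e) ≥ ∑ (o i - 1)`, since `o i - 1 = e` for the members
through `F z` which are not in `B₁`. -/
theorem order_local {k w : ℕ} {ι : Type} [Fintype ι] (b : ι → Fin (k + 3) → ℂ)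
    (hgp : ∀ S : Finset ι, S.card ≤ k + 3 → LinearIndependent ℂ (fun i : S => b i))
    (htail : ∀ S : Finset ι, S.card ≤ k + 1 →
      LinearIndependent ℂ (fun i : S => fun j : Fin (k + 1) => b i j.succ.succ))
    (P : MvPolynomial (V k) ℂ) (hPh : P.IsHomogeneous w) (hw : k + 2 ≤ w)
    (hP : ∀ i, ∀ Z : V k → ℂ, ∑ t, l0 (b i) t * Z t = 0 → ∑ t, l1 (b i) t * Z t = 0 →
      eval Z P = 0)
    (F : ℂ → Fin (k + 3) → ℂ) (z : ℂ) (hF : ∀ j, AnalyticAt ℂ (fun ζ => F ζ j) z)
    (hFz : F z ≠ 0) (o : ι → ℕ)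
    (ho : ∀ i, analyticOrderAt (fun ζ => ∑ j, b i j * F ζ j) z = o i) :
    ((∑ i, (o i - 1) : ℕ) : ℕ∞) ≤
      analyticOrderAt (fun ζ => eval (pl (F ζ) (fun j => deriv (fun x => F x j) ζ)) P) z := by
  classical
  obtain ⟨j0, hj0⟩ : ∃ j0, F z j0 ≠ 0 := by
    by_contra h
    push Not at h
    exact hFz (funext h)
  obtain ⟨f, hf⟩ : ∃ f : ℂ → ℂ, f = fun ζ => F ζ j0 := ⟨_, rfl⟩
  have hfa : AnalyticAt ℂ f z := by rw [hf]; exact hF j0
  have hfz : f z ≠ 0 := by rw [hf]; exact hj0
  obtain ⟨D, hD⟩ : ∃ D : ℂ → Fin (k + 3) → ℂ, D = fun ζ j => deriv (fun x => F x j) ζ := ⟨_, rfl⟩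
  have hDa : ∀ j, AnalyticAt ℂ (fun ζ => D ζ j) z := by
    intro j
    rw [hD]
    exact (hF j).deriv
  obtain ⟨φ, hφ⟩ : ∃ φ : ℂ → Fin (k + 3) → ℂ, φ = fun ζ j => F ζ j / f ζ := ⟨_, rfl⟩
  have hφa : ∀ j, AnalyticAt ℂ (fun ζ => φ ζ j) z := by
    intro j
    rw [hφ]
    exact (hF j).div hfa hfz
  obtain ⟨G, hG⟩ : ∃ G : ℂ → Fin (k + 3) → ℂ, G = fun ζ j =>
      (D ζ j * f ζ - F ζ j * D ζ j0) / (f ζ) ^ 2 := ⟨_, rfl⟩
  have hGa : ∀ j, AnalyticAt ℂ (fun ζ => G ζ j) z := by
    intro j
    rw [hG]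
    exact (((hDa j).mul hfa).sub ((hF j).mul (hDa j0))).div (hfa.pow 2) (pow_ne_zero 2 hfz)
  have hGv : AnalyticAt ℂ G z := by
    have : AnalyticAt ℂ (fun x => (fun j => G x j)) z := analyticAt_pi_iff.2 hGa
    exact this
  have hfne : ∀ᶠ ζ in 𝓝 z, f ζ ≠ 0 := hfa.continuousAt.eventually_ne hfz
  have hFd : ∀ᶠ ζ in 𝓝 z, ∀ j, DifferentiableAt ℂ (fun x => F x j) ζ := by
    rw [Filter.eventually_all]
    intro j
    exact (hF j).eventually_analyticAt.mono fun ζ h => h.differentiableAt
  -- `pl F F' = f² pl φ G`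
  have hpl : ∀ᶠ ζ in 𝓝 z, pl (F ζ) (D ζ) = fun s => (f ζ) ^ 2 * pl (φ ζ) (G ζ) s := by
    filter_upwards [hfne] with ζ hζ
    refine pl_scale (f ζ) (F ζ) (D ζ) (φ ζ) (G ζ) (D ζ j0) ?_ ?_
    · intro j
      rw [hφ]
      field_simp
    · intro j
      rw [hφ, hG]
      field_simp
      ring
  have hDe : (fun ζ => eval (pl (F ζ) (fun j => deriv (fun x => F x j) ζ)) P) =
      fun ζ => eval (pl (F ζ) (D ζ)) P := by rw [hD]
  rw [hDe]
  by_cases htop : analyticOrderAt G z = ⊤
  · -- the curve is constant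
    have h1 : analyticOrderAt (fun ζ => eval (pl (F ζ) (D ζ)) P) z = ⊤ := by
      rw [analyticOrderAt_eq_top] at htop ⊢
      filter_upwards [htop, hpl] with ζ h2 h3
      rw [h3, eval_scale' hPh, h2]
      have h4 : pl (φ ζ) (0 : Fin (k + 3) → ℂ) = fun s => (0 : ℂ) * pl (φ ζ) 0 s := by
        funext s
        rcases s with _ | s | s <;> simp [pl]
      rw [h4, eval_scale' hPh, zero_pow (by omega), zero_mul, mul_zero]
    rw [h1]
    exact le_top
  · obtain ⟨ψ, hψa, hψz, hGψ⟩ := hGv.analyticOrderAt_ne_top.1 htop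
    obtain ⟨e, he⟩ : ∃ e, e = analyticOrderNatAt G z := ⟨_, rfl⟩
    rw [← he] at hGψ
    have hψj : ∀ j, AnalyticAt ℂ (fun ζ => ψ ζ j) z := analyticAt_pi_iff.1 hψa
    have hpow : AnalyticAt ℂ (fun ζ : ℂ => (ζ - z) ^ e) z := by fun_prop
    have hopow : analyticOrderAt (fun ζ : ℂ => (ζ - z) ^ e) z = e := by
      have := analyticOrderAt_centeredMonomial (z₀ := z) (n := e)
      exact this
    -- order of a form on `G`
    have hordG : ∀ c : Fin (k + 3) → ℂ, analyticOrderAt (fun ζ => ∑ j, c j * G ζ j) z =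
        e + analyticOrderAt (fun ζ => ∑ j, c j * ψ ζ j) z := by
      intro c
      have e1 : (fun ζ => ∑ j, c j * G ζ j) =ᶠ[𝓝 z]
          (fun ζ : ℂ => (ζ - z) ^ e) * fun ζ => ∑ j, c j * ψ ζ j := by
        filter_upwards [hGψ] with ζ h2
        rw [Pi.mul_apply, Finset.mul_sum]
        refine Finset.sum_congr rfl fun j _ => ?_
        rw [h2, Pi.smul_apply, smul_eq_mul]
        ring
      rw [analyticOrderAt_congr e1, analyticOrderAt_mul hpow, hopow]
      exact Finset.analyticAt_fun_sum _ fun j _ => analyticAt_const.mul (hψj j)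
    have hψ0 : ψ z j0 = 0 := by
      have h2 := hordG (Pi.single j0 1)
      have h3 : (fun ζ => ∑ j, (Pi.single j0 1 : Fin (k + 3) → ℂ) j * G ζ j) = fun ζ => G ζ j0 := by
        funext ζ
        simp [Pi.single_apply]
      have h4 : (fun ζ => ∑ j, (Pi.single j0 1 : Fin (k + 3) → ℂ) j * ψ ζ j) = fun ζ => ψ ζ j0 := by
        funext ζ
        simp [Pi.single_apply]
      have h5 : (fun ζ => G ζ j0) = fun _ => 0 := by
        funext ζ
        rw [hG, hf]
        simp only
        rw [mul_comm (D ζ j0), sub_self, zero_div]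
      have h6 : analyticOrderAt (fun _ : ℂ => (0 : ℂ)) z = ⊤ := by
        rw [analyticOrderAt_eq_top]
        exact Filter.Eventually.of_forall fun _ => rfl
      rw [h3, h4, h5, h6] at h2
      have h7 : analyticOrderAt (fun ζ => ψ ζ j0) z = ⊤ := by
        by_contra h8
        obtain ⟨m, hm⟩ := ENat.ne_top_iff_exists.1 h8
        rw [← hm] at h2
        exact absurd h2.symm (by exact_mod_cast ENat.natCast_ne_top (e + m))
      rw [analyticOrderAt_eq_top] at h7
      exact h7.self_of_nhds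
    -- independence of `F z` and `ψ z`
    have hli : LinearIndependent ℂ ![F z, ψ z] := by
      rw [LinearIndependent.pair_iff]
      intro s t hst
      have h2 := congrFun hst j0
      simp only [Pi.add_apply, Pi.smul_apply, smul_eq_mul, hψ0, mul_zero, add_zero,
        Pi.zero_apply] at h2
      have h3 : s = 0 := (mul_eq_zero.1 h2).resolve_right hj0
      rw [h3, zero_smul, zero_add] at hst
      exact ⟨h3, (smul_eq_zero.1 hst).resolve_right hψz⟩
    -- orders of the forms
    have hordφ : ∀ i, analyticOrderAt (fun ζ => ∑ j, b i j * φ ζ j) z = o i := by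
      intro i
      have e1 : (fun ζ => ∑ j, b i j * φ ζ j) = (fun ζ => ∑ j, b i j * F ζ j) * fun ζ => (f ζ)⁻¹ := by
        funext ζ
        rw [Pi.mul_apply, Finset.sum_mul, hφ]
        refine Finset.sum_congr rfl fun j _ => ?_
        show b i j * (F ζ j / f ζ) = b i j * F ζ j * (f ζ)⁻¹
        rw [div_eq_mul_inv]
        ring
      have h2 : analyticOrderAt (fun ζ => (f ζ)⁻¹) z = 0 := by
        rw [analyticOrderAt_eq_zero]
        right
        exact inv_ne_zero hfz
      have h3 : AnalyticAt ℂ (fun ζ => ∑ j, b i j * F ζ j) z :=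
        Finset.analyticAt_fun_sum _ fun j _ => analyticAt_const.mul (hF j)
      have h4 : AnalyticAt ℂ (fun ζ => (f ζ)⁻¹) z := hfa.inv hfz
      rw [e1, analyticOrderAt_mul h3 h4, h2, add_zero, ho i]
    have hordψ : ∀ i, 1 ≤ o i → ((o i - 1 : ℕ) : ℕ∞) =
        e + analyticOrderAt (fun ζ => ∑ j, b i j * ψ ζ j) z := by
      intro i hi
      have ha : AnalyticAt ℂ (fun ζ => ∑ j, b i j * φ ζ j) z :=
        Finset.analyticAt_fun_sum _ fun j _ => analyticAt_const.mul (hφa j)
      have h2 : analyticOrderAt (fun ζ => ∑ j, b i j * φ ζ j) z = ((o i - 1 : ℕ) : ℕ∞) + 1 := by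
        rw [hordφ i]
        have : o i = (o i - 1) + 1 := by omega
        conv_lhs => rw [this]
        push_cast
        rfl
      have h3 := analyticOrderAt_deriv_of_pos ha h2
      have e1 : deriv (fun ζ => ∑ j, b i j * φ ζ j) =ᶠ[𝓝 z] fun ζ => ∑ j, b i j * G ζ j := by
        filter_upwards [hFd, hfne] with ζ h4 h5
        have h6 : ∀ j, HasDerivAt (fun x => φ x j) (G ζ j) ζ := by
          intro j
          have h7 := (h4 j).hasDerivAt.div (h4 j0).hasDerivAt (by rw [hf] at h5; exact h5)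
          rw [hφ, hG, hD, hf]
          exact h7
        have h8 : HasDerivAt (fun x => ∑ j, b i j * φ x j) (∑ j, b i j * G ζ j) ζ :=
          HasDerivAt.fun_sum fun j _ => (h6 j).const_mul (b i j)
        exact h8.deriv
      rw [analyticOrderAt_congr e1, hordG] at h3
      exact h3.symm
    -- the members through the point
    obtain ⟨B0, hB0⟩ : ∃ B0 : Finset ι, B0 = Finset.univ.filter (fun i => 1 ≤ o i) := ⟨_, rfl⟩
    obtain ⟨B1, hB1⟩ : ∃ B1 : Finset ι, B1 = B0.filter (fun i => ∑ j, b i j * ψ z j = 0) :=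
      ⟨_, rfl⟩
    have hF0 : ∀ i, 1 ≤ o i → ∑ j, b i j * F z j = 0 := by
      intro i hi
      have h2 : analyticOrderAt (fun ζ => ∑ j, b i j * F ζ j) z ≠ 0 := by
        rw [ho i]
        have : o i ≠ 0 := by omega
        exact_mod_cast this
      exact apply_eq_zero_of_analyticOrderAt_ne_zero (f := fun ζ => ∑ j, b i j * F ζ j) h2
    have c0 : B0.card ≤ k + 2 := by
      have h2 : LinearIndependent ℂ (fun _ : Fin 1 => F z) := by
        rw [linearIndependent_unique_iff]
        exact hFz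
      have := card_through (r := 0) b hgp (fun _ => F z) h2 (by omega) B0 (by
        intro i hi _
        rw [hB0, Finset.mem_filter] at hi
        exact hF0 i hi.2)
      omega
    have c1 : B1.card ≤ k + 1 := by
      have := card_through (r := 1) b hgp ![F z, ψ z] hli (by omega) B1 (by
        intro i hi t
        rw [hB1, Finset.mem_filter, hB0, Finset.mem_filter] at hi
        refine Fin.cases ?_ (fun t => ?_) t
        · exact hF0 i hi.1.2
        · rw [Matrix.cons_val_succ]
          fin_cases t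
          exact hi.2)
      omega
    -- the order of `P (pl φ ψ)`
    obtain ⟨Z, hZ⟩ : ∃ Z : ℂ → V k → ℂ, Z = fun ζ => pl (φ ζ) (ψ ζ) := ⟨_, rfl⟩
    have hZa : ∀ s, AnalyticAt ℂ (fun ζ => Z ζ s) z := by
      intro s
      rw [hZ]
      rcases s with _ | s | s
      · exact ((hφa _).mul (hψj _)).sub ((hφa _).mul (hψj _))
      · exact ((hφa _).mul (hψj _)).sub ((hφa _).mul (hψj _))
      · exact ((hφa _).mul (hψj _)).sub ((hφa _).mul (hψj _))
    have hbi : ∀ i ∈ B1, ∀ j1, ((o i - 1 - e : ℕ) : ℕ∞) ≤ analyticOrderAt (fun ζ =>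
        φ ζ j1 * (∑ j, b i j * ψ ζ j) - ψ ζ j1 * (∑ j, b i j * φ ζ j)) z := by
      intro i hi j1
      rw [hB1, Finset.mem_filter, hB0, Finset.mem_filter] at hi
      have h2 := hordψ i hi.1.2
      have h3 : ((o i - 1 - e : ℕ) : ℕ∞) ≤ analyticOrderAt (fun ζ => ∑ j, b i j * ψ ζ j) z := by
        rcases eq_or_ne (analyticOrderAt (fun ζ => ∑ j, b i j * ψ ζ j) z) ⊤ with h4 | h4
        · rw [h4]; exact le_top
        · obtain ⟨m, hm⟩ := ENat.ne_top_iff_exists.1 h4
          rw [← hm] at h2 ⊢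
          have h5 : o i - 1 = e + m := by exact_mod_cast h2
          have h6 : o i - 1 - e ≤ m := by omega
          exact_mod_cast h6
      have h4 : ((o i - 1 - e : ℕ) : ℕ∞) ≤ analyticOrderAt (fun ζ => ∑ j, b i j * φ ζ j) z := by
        rw [hordφ i]
        have : o i - 1 - e ≤ o i := by omega
        exact_mod_cast this
      have a1 : AnalyticAt ℂ (fun ζ => ∑ j, b i j * ψ ζ j) z :=
        Finset.analyticAt_fun_sum _ fun j _ => analyticAt_const.mul (hψj j)
      have a2 : AnalyticAt ℂ (fun ζ => ∑ j, b i j * φ ζ j) z :=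
        Finset.analyticAt_fun_sum _ fun j _ => analyticAt_const.mul (hφa j)
      have e1 : (fun ζ => φ ζ j1 * (∑ j, b i j * ψ ζ j) - ψ ζ j1 * (∑ j, b i j * φ ζ j)) =
          (fun ζ => φ ζ j1) * (fun ζ => ∑ j, b i j * ψ ζ j) -
          (fun ζ => ψ ζ j1) * (fun ζ => ∑ j, b i j * φ ζ j) := rfl
      rw [e1]
      refine le_trans (le_min ?_ ?_) le_analyticOrderAt_sub
      · rw [analyticOrderAt_mul (hφa j1) a1]
        exact h3.trans (le_add_of_nonneg_left zero_le)
      · rw [analyticOrderAt_mul (hψj j1) a2]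
        exact h4.trans (le_add_of_nonneg_left zero_le)
    have hmain := order_prod P (fun i : B1 => l0 (b i)) (fun i : B1 => l1 (b i))
      (li_pair (fun i : B1 => b i) (htail B1 c1)) (fun i => hP i) Z z hZa
      (fun i : B1 => o i - 1 - e)
      (by
        intro i
        have := hbi i i.2 0
        rw [hZ]
        simp only [l0_pl]
        exact this)
      (by
        intro i
        have := hbi i i.2 1
        rw [hZ]
        simp only [l1_pl]
        exact this)
    -- conclusion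
    have e2 : (fun ζ => eval (pl (F ζ) (D ζ)) P) =ᶠ[𝓝 z]
        (fun ζ => ((f ζ) ^ 2) ^ w) * ((fun ζ : ℂ => (ζ - z) ^ e) ^ w * fun ζ => eval (Z ζ) P) := by
      filter_upwards [hpl, hGψ] with ζ h2 h3
      rw [h2, eval_scale' hPh, h3, pl_scale_right, eval_scale' hPh, hZ]
      rfl
    have hPa : AnalyticAt ℂ (fun ζ => eval (Z ζ) P) z := by
      have e3 : (fun ζ => eval (Z ζ) P) = fun ζ => ∑ d ∈ P.support, coeff d P * ∏ a, Z ζ a ^ d a := by
        funext ζ
        rw [eval_eq']
      rw [e3]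
      exact Finset.analyticAt_fun_sum _ fun d _ => analyticAt_const.mul
        (order_prod' Finset.univ (fun a ζ => Z ζ a) z hZa d).1
    have hfw : AnalyticAt ℂ (fun ζ => ((f ζ) ^ 2) ^ w) z := (hfa.pow 2).pow w
    rw [analyticOrderAt_congr e2, analyticOrderAt_mul hfw ((hpow.pow w).mul hPa),
      analyticOrderAt_mul (hpow.pow w) hPa, analyticOrderAt_pow hpow, hopow]
    refine le_trans ?_ (le_add_of_nonneg_left zero_le)
    refine le_trans ?_ (add_le_add_right hmain _)
    rw [nsmul_eq_mul]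
    have e4 : ∑ i : B1, (o i - 1 - e) = ∑ i ∈ B1, (o i - 1 - e) :=
      Finset.sum_coe_sort B1 (fun i => o i - 1 - e)
    rw [e4]
    have key : ∑ i, (o i - 1) ≤ w * e + ∑ i ∈ B1, (o i - 1 - e) := by
      have h2 : ∑ i, (o i - 1) = ∑ i ∈ B0, (o i - 1) := by
        symm
        refine Finset.sum_subset (Finset.subset_univ _) fun i _ hi => ?_
        rw [hB0, Finset.mem_filter] at hi
        have : ¬ 1 ≤ o i := fun h => hi ⟨Finset.mem_univ _, h⟩
        omega
      have h3 : ∀ i ∈ B0, o i - 1 = e + if i ∈ B1 then o i - 1 - e else 0 := by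
        intro i hi
        have hi' : 1 ≤ o i := by
          rw [hB0, Finset.mem_filter] at hi
          exact hi.2
        have h4 := hordψ i hi'
        have h5 : analyticOrderAt (fun ζ => ∑ j, b i j * ψ ζ j) z ≠ ⊤ := by
          intro h6
          rw [h6] at h4
          exact absurd h4 (by simp)
        obtain ⟨m, hm⟩ := ENat.ne_top_iff_exists.1 h5
        rw [← hm] at h4
        have h6 : o i - 1 = e + m := by exact_mod_cast h4
        split_ifs with h7
        · omega
        · have h8 : ∑ j, b i j * ψ z j ≠ 0 := by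
            intro h9
            apply h7
            rw [hB1, Finset.mem_filter]
            exact ⟨hi, h9⟩
          have h9 : analyticOrderAt (fun ζ => ∑ j, b i j * ψ ζ j) z = 0 := by
            rw [analyticOrderAt_eq_zero]
            right
            exact h8
          rw [h9] at hm
          have h10 : m = 0 := by exact_mod_cast hm
          omega
      rw [h2, Finset.sum_congr rfl h3, Finset.sum_add_distrib, Finset.sum_const, smul_eq_mul]
      have h4 : ∑ i ∈ B0, (if i ∈ B1 then o i - 1 - e else 0) = ∑ i ∈ B1, (o i - 1 - e) := by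
        rw [← Finset.sum_filter]
        refine Finset.sum_congr ?_ fun _ _ => rfl
        ext i
        rw [Finset.mem_filter]
        constructor
        · exact fun h => h.2
        · intro h
          refine ⟨?_, h⟩
          rw [hB1, Finset.mem_filter] at h
          exact h.1
      rw [h4]
      have h5 : B0.card * e ≤ w * e := Nat.mul_le_mul_right e (by omega)
      omega
    exact_mod_cast key

end Pool.Agent.LG
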