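import Pool.Agent.Lib_MP_b9fedf_lg.Defs

/-! [LG-B1]: orders of vanishing of a polynomial which vanishes on several linear subspaces of
codimension two in general position. -/

set_option autoImplicit false

namespace Pool.Agent.LG
open MvPolynomial

/-- dual vectors -/
theorem exists_dual {σ τ : Type} [Fintype σ] [Fintype τ] (w : τ → σ → ℂ)
    (hw : LinearIndependent ℂ w) :
    ∃ r : τ → σ → ℂ, ∀ t, ∑ s, w t s * r t s = 1 ∧ ∀ t', t' ≠ t → ∑ s, w t' s * r t s = 0 := by
  classical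
  have h0 : LinearMap.ker (Finsupp.linearCombination ℂ w) = ⊥ := LinearMap.ker_eq_bot.2 hw
  obtain ⟨g, hg⟩ := LinearMap.exists_leftInverse_of_injective _ h0
  have h1 : ∀ t v, g v t = ∑ s, v s * g (Pi.single s 1) t := by
    intro t v
    conv_lhs => rw [pi_eq_sum_univ' v]
    rw [map_sum, Finsupp.finsetSum_apply]
    refine Finset.sum_congr rfl fun s _ => ?_
    rw [map_smul, Finsupp.smul_apply, smul_eq_mul]
  have h2 : ∀ t, g (w t) = Finsupp.single t 1 := by
    intro t
    have := LinearMap.congr_fun hg (Finsupp.single t 1)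
    simpa using this
  refine ⟨fun t s => g (Pi.single s 1) t, fun t => ⟨?_, fun t' ht' => ?_⟩⟩
  · rw [← h1, h2, Finsupp.single_eq_same]
  · rw [← h1, h2, Finsupp.single_apply, if_neg ht']

/-- a polynomial vanishing where two coordinates vanish: each monomial contains one of them -/
theorem mem_support_two {τ : Type} {a b : τ} {Q : MvPolynomial τ ℂ}
    (h : ∀ y : τ → ℂ, y a = 0 → y b = 0 → eval y Q = 0) {m : τ →₀ ℕ} (hm : m ∈ Q.support) :
    1 ≤ m a + m b := by
  classical
  obtain ⟨ψ, hψ⟩ : ∃ ψ : MvPolynomial τ ℂ →ₐ[ℂ] MvPolynomial τ ℂ,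
      ψ = aeval (fun t => if t = a ∨ t = b then 0 else X t) := ⟨_, rfl⟩
  have h1 : ψ Q = 0 := by
    refine MvPolynomial.funext_iff.2 fun y => ?_
    have h2 : eval y (ψ Q) = eval (fun t => if t = a ∨ t = b then 0 else y t) Q := by
      have h3 : (aeval y).comp ψ = aeval (R := ℂ) (fun t => if t = a ∨ t = b then 0 else y t) := by
        refine MvPolynomial.algHom_ext fun t => ?_
        rw [AlgHom.comp_apply, hψ, aeval_X, aeval_X]
        split_ifs <;> simp
      have h4 := DFunLike.congr_fun h3 Q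
      rw [AlgHom.comp_apply] at h4
      rw [← coe_aeval_eq_eval, ← coe_aeval_eq_eval]
      exact h4
    rw [h2, map_zero]
    exact h _ (by simp) (by simp)
  have h5 : Q ∈ Ideal.span ((X : τ → MvPolynomial τ ℂ) '' {a, b}) := by
    obtain ⟨I, hI⟩ : ∃ I, I = Ideal.span ((X : τ → MvPolynomial τ ℂ) '' {a, b}) := ⟨_, rfl⟩
    rw [← hI]
    have h6 : (Ideal.Quotient.mkₐ ℂ I).comp ψ = Ideal.Quotient.mkₐ ℂ I := by
      refine MvPolynomial.algHom_ext fun t => ?_
      rw [AlgHom.comp_apply, hψ, aeval_X]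
      split_ifs with ht
      · rw [map_zero]
        symm
        refine Ideal.Quotient.eq_zero_iff_mem.2 ?_
        rw [hI]
        refine Ideal.subset_span ⟨t, ?_, rfl⟩
        rcases ht with rfl | rfl
        · exact Set.mem_insert _ _
        · exact Set.mem_insert_of_mem _ rfl
      · rfl
    have h7 := DFunLike.congr_fun h6 Q
    rw [AlgHom.comp_apply, h1, map_zero] at h7
    exact Ideal.Quotient.eq_zero_iff_mem.1 h7.symm
  rw [mem_ideal_span_X_image] at h5
  obtain ⟨i, hi, hi0⟩ := h5 m hm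
  rcases hi with rfl | hi
  · omega
  · rw [Set.mem_singleton_iff] at hi
    subst hi
    omega

theorem order_sum {ι : Type} (s : Finset ι) (f : ι → ℂ → ℂ) (z : ℂ) (N : ℕ∞)
    (h : ∀ i ∈ s, N ≤ analyticOrderAt (f i) z) : N ≤ analyticOrderAt (fun ζ => ∑ i ∈ s, f i ζ) z := by
  classical
  induction s using Finset.induction_on with
  | empty =>
    have : analyticOrderAt (fun ζ : ℂ => ∑ i ∈ (∅ : Finset ι), f i ζ) z = ⊤ := by
      rw [analyticOrderAt_eq_top]
      exact Filter.Eventually.of_forall fun ζ => by simp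
    rw [this]
    exact le_top
  | insert a s ha ih =>
    have e : (fun ζ => ∑ i ∈ insert a s, f i ζ) = f a + fun ζ => ∑ i ∈ s, f i ζ := by
      funext ζ
      rw [Finset.sum_insert ha]
      rfl
    rw [e]
    refine le_trans ?_ le_analyticOrderAt_add
    exact le_min (h a (Finset.mem_insert_self _ _)) (ih fun i hi => h i (Finset.mem_insert_of_mem hi))

theorem order_prod' {ι : Type} (s : Finset ι) (f : ι → ℂ → ℂ) (z : ℂ) (hf : ∀ i, AnalyticAt ℂ (f i) z)
    (e : ι → ℕ) :
    AnalyticAt ℂ (fun ζ => ∏ i ∈ s, f i ζ ^ e i) z ∧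
    analyticOrderAt (fun ζ => ∏ i ∈ s, f i ζ ^ e i) z = ∑ i ∈ s, e i • analyticOrderAt (f i) z := by
  classical
  induction s using Finset.induction_on with
  | empty =>
    constructor
    · simp only [Finset.prod_empty]
      exact analyticAt_const
    · simp only [Finset.prod_empty, Finset.sum_empty]
      rw [analyticOrderAt_eq_zero]
      right
      exact one_ne_zero
  | insert a s ha ih =>
    have e1 : (fun ζ => ∏ i ∈ insert a s, f i ζ ^ e i) = (f a ^ e a) * fun ζ => ∏ i ∈ s, f i ζ ^ e i := by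
      funext ζ
      rw [Finset.prod_insert ha]
      rfl
    rw [e1, Finset.sum_insert ha]
    refine ⟨((hf a).pow _).mul ih.1, ?_⟩
    rw [analyticOrderAt_mul ((hf a).pow _) ih.1, analyticOrderAt_pow (hf a), ih.2]

/-- [LG-B1] The linear forms `L i`, `L' i` are linearly independent, `P` vanishes wherever `L i` and
`L' i` both vanish, for each `i`.  If `L i` and `L' i` vanish to order at least `m i` along the curve
`Z`, then `P` vanishes to order at least `∑ m i`.
(Extend the forms to coordinates by a linear change of variables; each monomial of `P` in the new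
coordinates contains one of the variables `L i`, `L' i`, for each `i`.) -/
theorem order_prod {σ β : Type} [Fintype σ] [Fintype β] (P : MvPolynomial σ ℂ)
    (L L' : β → σ → ℂ) (hL : LinearIndependent ℂ (Sum.elim L L'))
    (hP : ∀ i (x : σ → ℂ), ∑ s, L i s * x s = 0 → ∑ s, L' i s * x s = 0 → eval x P = 0)
    (Z : ℂ → σ → ℂ) (z : ℂ) (hZ : ∀ s, AnalyticAt ℂ (fun ζ => Z ζ s) z) (m : β → ℕ)
    (h1 : ∀ i, (m i : ℕ∞) ≤ analyticOrderAt (fun ζ => ∑ s, L i s * Z ζ s) z)
    (h2 : ∀ i, (m i : ℕ∞) ≤ analyticOrderAt (fun ζ => ∑ s, L' i s * Z ζ s) z) :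
    ((∑ i, m i : ℕ) : ℕ∞) ≤ analyticOrderAt (fun ζ => eval (Z ζ) P) z := by
  classical
  obtain ⟨w, hw⟩ : ∃ w, w = Sum.elim L L' := ⟨_, rfl⟩
  rw [← hw] at hL
  obtain ⟨r, hr⟩ := exists_dual w hL
  -- the change of variables
  obtain ⟨Nf, hNf⟩ : ∃ Nf : ((β ⊕ β) ⊕ σ → ℂ) → σ → ℂ, Nf = fun Y s =>
      Y (Sum.inr s) + ∑ t, r t s * (Y (Sum.inl t) - ∑ s', w t s' * Y (Sum.inr s')) := ⟨_, rfl⟩
  have hN : ∀ Y t, ∑ s, w t s * Nf Y s = Y (Sum.inl t) := by
    intro Y t
    have e1 : ∑ s, w t s * Nf Y s = ∑ s, w t s * Y (Sum.inr s) +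
        ∑ t', (∑ s, w t s * r t' s) * (Y (Sum.inl t') - ∑ s', w t' s' * Y (Sum.inr s')) := by
      rw [hNf]
      simp only [mul_add, Finset.sum_add_distrib, Finset.mul_sum, Finset.sum_mul]
      congr 1
      rw [Finset.sum_comm]
      refine Finset.sum_congr rfl fun t' _ => Finset.sum_congr rfl fun s _ => ?_
      ring
    rw [e1, Finset.sum_eq_single t]
    · rw [(hr t).1]
      ring
    · intro t' _ ht'
      rw [(hr t').2 t (Ne.symm ht'), zero_mul]
    · intro h
      exact absurd (Finset.mem_univ _) h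
  obtain ⟨Q, hQ⟩ : ∃ Q : MvPolynomial ((β ⊕ β) ⊕ σ) ℂ, Q = aeval (fun s =>
      X (Sum.inr s) + ∑ t, C (r t s) * (X (Sum.inl t) - ∑ s', C (w t s') * X (Sum.inr s'))) P :=
    ⟨_, rfl⟩
  have hQe : ∀ Y, eval Y Q = eval (Nf Y) P := by
    intro Y
    have h3 : (aeval Y).comp (aeval (fun s =>
        X (Sum.inr s) + ∑ t, C (r t s) * (X (Sum.inl t) - ∑ s', C (w t s') * X (Sum.inr s')))) =
        aeval (R := ℂ) (Nf Y) := by
      refine MvPolynomial.algHom_ext fun s => ?_
      rw [AlgHom.comp_apply, aeval_X, aeval_X, hNf]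
      simp
    have h4 := DFunLike.congr_fun h3 P
    rw [AlgHom.comp_apply, ← hQ] at h4
    rw [← coe_aeval_eq_eval, ← coe_aeval_eq_eval]
    exact h4
  have hQ0 : ∀ (i : β) (Y : (β ⊕ β) ⊕ σ → ℂ), Y (Sum.inl (Sum.inl i)) = 0 →
      Y (Sum.inl (Sum.inr i)) = 0 → eval Y Q = 0 := by
    intro i Y h3 h4
    rw [hQe]
    refine hP i _ ?_ ?_
    · have := hN Y (Sum.inl i)
      rw [h3, hw] at this
      exact this
    · have := hN Y (Sum.inr i)
      rw [h4, hw] at this
      exact this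
  -- the curve in the new variables
  obtain ⟨Y, hY⟩ : ∃ Y : ℂ → (β ⊕ β) ⊕ σ → ℂ, Y = fun ζ => Sum.elim (fun t => ∑ s, w t s * Z ζ s)
      (Z ζ) := ⟨_, rfl⟩
  have hYN : ∀ ζ, Nf (Y ζ) = Z ζ := by
    intro ζ
    funext s
    rw [hNf, hY]
    simp
  have hYa : ∀ a, AnalyticAt ℂ (fun ζ => Y ζ a) z := by
    intro a
    rw [hY]
    rcases a with t | s
    · simp only [Sum.elim_inl]
      exact Finset.analyticAt_fun_sum _ fun s _ => analyticAt_const.mul (hZ s)
    · exact hZ s
  have e2 : (fun ζ => eval (Z ζ) P) = fun ζ => ∑ d ∈ Q.support, coeff d Q * ∏ a, Y ζ a ^ d a := by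
    funext ζ
    rw [← hYN ζ, ← hQe, eval_eq']
  rw [e2]
  refine order_sum _ _ _ _ fun d hd => ?_
  obtain ⟨q1, q2⟩ := order_prod' Finset.univ (fun a ζ => Y ζ a) z hYa d
  have e3 : (fun ζ => coeff d Q * ∏ a, Y ζ a ^ d a) = (fun _ => coeff d Q) *
      fun ζ => ∏ a, Y ζ a ^ d a := rfl
  rw [e3, analyticOrderAt_mul analyticAt_const q1, q2]
  refine le_trans ?_ (le_add_of_nonneg_left zero_le)
  rw [Fintype.sum_sum_type, Fintype.sum_sum_type]
  refine le_trans ?_ (le_add_of_nonneg_right zero_le)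
  rw [← Finset.sum_add_distrib]
  push_cast
  refine Finset.sum_le_sum fun i _ => ?_
  have h5 := mem_support_two (hQ0 i) hd
  have g1 : (m i : ℕ∞) ≤ analyticOrderAt (fun ζ => Y ζ (Sum.inl (Sum.inl i))) z := by
    have := h1 i
    rw [hY]
    simpa [hw] using this
  have g2 : (m i : ℕ∞) ≤ analyticOrderAt (fun ζ => Y ζ (Sum.inl (Sum.inr i))) z := by
    have := h2 i
    rw [hY]
    simpa [hw] using this
  rcases Nat.eq_zero_or_pos (d (Sum.inl (Sum.inl i))) with h6 | h6
  · have h7 : 1 ≤ d (Sum.inl (Sum.inr i)) := by omega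
    refine le_trans g2 (le_trans ?_ (le_add_of_nonneg_left zero_le))
    conv_lhs => rw [← one_nsmul (analyticOrderAt (fun ζ => Y ζ (Sum.inl (Sum.inr i))) z)]
    exact nsmul_le_nsmul_left zero_le h7
  · refine le_trans g1 (le_trans ?_ (le_add_of_nonneg_right zero_le))
    conv_lhs => rw [← one_nsmul (analyticOrderAt (fun ζ => Y ζ (Sum.inl (Sum.inl i))) z)]
    exact nsmul_le_nsmul_left zero_le h6

end Pool.Agent.LG
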