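import Pool.Agent.Lib_MP_b9fedf_lg.OrderLocal
import Pool.Agent.Lib_MP_b9fedf_ag.TanKey
import Pool.Agent.Lib_MP_b9fedf_ag.Hyper

/-! [LG-B3]: the total ramification over generic hyperplanes. -/

set_option autoImplicit false

namespace Pool.Agent.LG
open MvPolynomial Filter Metric Real Set Function MeromorphicOn ValueDistribution
open Pool.Agent.GGL

/-- the wedge of linear images -/
private theorem wedge_bound {m : ℕ} (a b : Fin (m + 1) → ℂ) (g g' : Fin (m + 1) → ℂ) :
    ‖(∑ c, a c * g c) * (∑ c, b c * g' c) - (∑ c, b c * g c) * (∑ c, a c * g' c)‖ ≤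
      (∑ c, ∑ d, ‖a c * b d‖) * ‖fun ab : Fin (m + 1) × Fin (m + 1) =>
        g ab.1 * g' ab.2 - g ab.2 * g' ab.1‖ := by
  have h1 : (∑ c, a c * g c) * (∑ c, b c * g' c) - (∑ c, b c * g c) * (∑ c, a c * g' c) =
      ∑ c, ∑ d, (a c * b d) * (g c * g' d - g d * g' c) := by
    have h2 : (∑ c, b c * g c) * (∑ c, a c * g' c) = ∑ c, ∑ d, (a c * b d) * (g d * g' c) := by
      rw [Finset.sum_mul_sum, Finset.sum_comm]
      exact Finset.sum_congr rfl fun c _ => Finset.sum_congr rfl fun d _ => by ring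
    have h3 : (∑ c, a c * g c) * (∑ c, b c * g' c) = ∑ c, ∑ d, (a c * b d) * (g c * g' d) := by
      rw [Finset.sum_mul_sum]
      exact Finset.sum_congr rfl fun c _ => Finset.sum_congr rfl fun d _ => by ring
    rw [h2, h3, ← Finset.sum_sub_distrib]
    refine Finset.sum_congr rfl fun c _ => ?_
    rw [← Finset.sum_sub_distrib]
    exact Finset.sum_congr rfl fun d _ => by ring
  rw [h1, Finset.sum_mul]
  refine (norm_sum_le _ _).trans (Finset.sum_le_sum fun c _ => ?_)
  rw [Finset.sum_mul]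
  refine (norm_sum_le _ _).trans (Finset.sum_le_sum fun d _ => ?_)
  rw [norm_mul]
  exact mul_le_mul_of_nonneg_left (norm_le_pi_norm (fun ab : Fin (m + 1) × Fin (m + 1) =>
        g ab.1 * g' ab.2 - g ab.2 * g' ab.1) (c, d)) (norm_nonneg _)

/-- [LG-B3] The total ramification over the hyperplanes `b i` is bounded.  The curve is
`F = B g`.  Adapt `Lib_MP_b9fedf_lo/RamUni.lean` (`ram_uni`): `Φ = P (F ∧ F')`, `order_local` in place
of the order estimate of `exists_phi`, `average_phi` with `s = w`; `|Φ| ≤ C |g ∧ g'|^w` since the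
entries of `F ∧ F'` are linear combinations of those of `g ∧ g'`. -/
theorem ram_form {m k w : ℕ} {ι : Type} [Fintype ι] (g : Fin (m + 1) → ℂ → ℂ)
    (hg : ∀ c, Differentiable ℂ (g c)) (hg0 : ∃ z, g 0 z ≠ 0)
    (F : ℂ → Fin (k + 3) → ℂ) (B : Fin (k + 3) → Fin (m + 1) → ℂ)
    (hF : ∀ z j, F z j = ∑ c, B j c * g c z) (hF0 : ∀ z, F z ≠ 0)
    (b : ι → Fin (k + 3) → ℂ)
    (hgp : ∀ S : Finset ι, S.card ≤ k + 3 → LinearIndependent ℂ (fun i : S => b i))
    (htail : ∀ S : Finset ι, S.card ≤ k + 1 →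
      LinearIndependent ℂ (fun i : S => fun j : Fin (k + 1) => b i j.succ.succ))
    (P : MvPolynomial (V k) ℂ) (hPh : P.IsHomogeneous w) (hw : k + 2 ≤ w)
    (hP : ∀ i, ∀ Z : V k → ℂ, ∑ t, l0 (b i) t * Z t = 0 → ∑ t, l1 (b i) t * Z t = 0 →
      eval Z P = 0)
    (hne : ∀ i, ∃ z, ∑ j, b i j * F z j ≠ 0)
    (hΦ : ∃ z, eval (pl (F z) (fun j => deriv (fun x => F x j) z)) P ≠ 0)
    (Z : ι → locallyFinsupp ℂ ℤ) (hZ1 : ∀ i z, ∑ j, b i j * F z j = 0 → Z i z = 1)
    (hZ2 : ∀ i z, ∑ j, b i j * F z j ≠ 0 → Z i z = 0) :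
    ∃ C : ℝ, 0 ≤ C ∧ ∀ (r B' : ℝ), 1 ≤ r → 1 ≤ B' →
      (∀ c, ∀ z ∈ sphere (0 : ℂ) r, Good (fun z => g c z / g 0 z) B' z) →
      ∑ i, Function.locallyFinsuppWithin.logCounting (Dv (fun z => ∑ j, b i j * F z j)) r ≤
      ∑ i, Function.locallyFinsuppWithin.logCounting (Z i) r +
        2 * (w : ℝ) * circleAverage (fun z => Real.log ‖fun c => g c z‖) 0 r +
          C * (1 + Real.log B') := by
  classical
  have hFd : ∀ j, Differentiable ℂ (fun z => F z j) := by
    intro j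
    simp_rw [hF]
    exact Differentiable.fun_sum fun c _ => (hg c).const_mul (B j c)
  have hFd' : ∀ j, Differentiable ℂ (fun z => deriv (fun x => F x j) z) := fun j => (hFd j).deriv
  have hF' : ∀ z j, deriv (fun x => F x j) z = ∑ c, B j c * deriv (g c) z := by
    intro z j
    simp_rw [hF]
    rw [deriv_fun_sum fun c _ => ((hg c).const_mul (B j c)).differentiableAt]
    exact Finset.sum_congr rfl fun c _ => deriv_const_mul_field _
  have hhd : ∀ i, Differentiable ℂ (fun z => ∑ j, b i j * F z j) := fun i =>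
    Differentiable.fun_sum fun j _ => (hFd j).const_mul (b i j)
  obtain ⟨Φ, hΦdef⟩ : ∃ Φ : ℂ → ℂ, Φ = fun z =>
    eval (pl (F z) (fun j => deriv (fun x => F x j) z)) P := ⟨_, rfl⟩
  have hΦd : Differentiable ℂ Φ := by
    rw [hΦdef]
    refine diff_eval (f := fun z => pl (F z) (fun j => deriv (fun x => F x j) z)) ?_ P
    rw [differentiable_pi]
    rintro (_ | j | j)
    · exact ((hFd 0).mul (hFd' 1)).sub ((hFd 1).mul (hFd' 0))
    · exact ((hFd 0).mul (hFd' j.succ.succ)).sub ((hFd j.succ.succ).mul (hFd' 0))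
    · exact ((hFd 1).mul (hFd' j.succ.succ)).sub ((hFd j.succ.succ).mul (hFd' 1))
  have hΦ0 : ∃ z, Φ z ≠ 0 := by rw [hΦdef]; exact hΦ
  -- the bound of `Φ`
  obtain ⟨A, hA0, hA⟩ : ∃ A : ℝ, 0 ≤ A ∧ ∀ i j : Fin (k + 3), ∑ c, ∑ d, ‖B i c * B j d‖ ≤ A := by
    refine ⟨∑ i, ∑ j, ∑ c, ∑ d, ‖B i c * B j d‖, ?_, fun i j => ?_⟩
    · exact Finset.sum_nonneg fun i _ => Finset.sum_nonneg fun j _ => Finset.sum_nonneg fun c _ =>
        Finset.sum_nonneg fun d _ => norm_nonneg _
    · have h1 : ∀ i j : Fin (k + 3), 0 ≤ ∑ c, ∑ d, ‖B i c * B j d‖ := fun i j =>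
        Finset.sum_nonneg fun c _ => Finset.sum_nonneg fun d _ => norm_nonneg _
      refine (Finset.single_le_sum (f := fun j => ∑ c, ∑ d, ‖B i c * B j d‖)
        (fun j _ => h1 i j) (Finset.mem_univ j)).trans ?_
      exact Finset.single_le_sum (f := fun i => ∑ j, ∑ c, ∑ d, ‖B i c * B j d‖)
        (fun i _ => Finset.sum_nonneg fun j _ => h1 i j) (Finset.mem_univ i)
  have hpl : ∀ z, ‖pl (F z) (fun j => deriv (fun x => F x j) z)‖ ≤
      A * ‖fun ab : Fin (m + 1) × Fin (m + 1) =>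
        g ab.1 z * deriv (g ab.2) z - g ab.2 z * deriv (g ab.1) z‖ := by
    intro z
    have h1 : ∀ i j : Fin (k + 3), ‖F z i * deriv (fun x => F x j) z -
        F z j * deriv (fun x => F x i) z‖ ≤ A * ‖fun ab : Fin (m + 1) × Fin (m + 1) =>
        g ab.1 z * deriv (g ab.2) z - g ab.2 z * deriv (g ab.1) z‖ := by
      intro i j
      rw [hF' z i, hF' z j, hF z i, hF z j]
      exact (wedge_bound (B i) (B j) (fun c => g c z) (fun c => deriv (g c) z)).trans
        (mul_le_mul_of_nonneg_right (hA i j) (norm_nonneg _))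
    rw [pi_norm_le_iff_of_nonneg (mul_nonneg hA0 (norm_nonneg _))]
    rintro (_ | j | j)
    · exact h1 0 1
    · exact h1 0 j.succ.succ
    · exact h1 1 j.succ.succ
  obtain ⟨N, hN⟩ : ∃ N : ℝ, N = ∑ a ∈ P.support, ‖coeff a P‖ := ⟨_, rfl⟩
  have hN0 : 0 ≤ N := by rw [hN]; exact Finset.sum_nonneg fun a _ => norm_nonneg _
  have hΦle : ∀ z, ‖Φ z‖ ≤ (N * A ^ w + 1) * (‖fun ab : Fin (m + 1) × Fin (m + 1) =>
        g ab.1 z * deriv (g ab.2) z - g ab.2 z * deriv (g ab.1) z‖) ^ w := by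
    intro z
    have h1 := norm_eval_le hPh (pl (F z) (fun j => deriv (fun x => F x j) z))
    rw [← hN] at h1
    have h2 : ‖Φ z‖ ≤ N * (A * ‖fun ab : Fin (m + 1) × Fin (m + 1) =>
        g ab.1 z * deriv (g ab.2) z - g ab.2 z * deriv (g ab.1) z‖) ^ w := by
      rw [hΦdef]
      exact h1.trans (mul_le_mul_of_nonneg_left (pow_le_pow_left₀ (norm_nonneg _) (hpl z) w) hN0)
    refine h2.trans ?_
    rw [mul_pow, ← mul_assoc]
    exact mul_le_mul_of_nonneg_right (by linarith) (by positivity)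
  obtain ⟨C2, hC2⟩ := average_phi (s := w) g hg hg0 Φ (N * A ^ w + 1) (by positivity) hΦd hΦ0 hΦle
  have hdiv1 : ∀ r : ℝ, 1 ≤ r → ∑ i, Function.locallyFinsuppWithin.logCounting
        (Dv (fun z => ∑ j, b i j * F z j)) r ≤
      Function.locallyFinsuppWithin.logCounting (Dv Φ) r +
        ∑ i, Function.locallyFinsuppWithin.logCounting (Z i) r := by
    intro r hr
    have h1 : (∑ i, Dv (fun z => ∑ j, b i j * F z j)) ≤ Dv Φ + ∑ i, Z i := by
      intro z
      set o : ι → ℕ := fun i =>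
        (analyticOrderAt (fun z => ∑ j, b i j * F z j) z).toNat with ho
      have ho1 : ∀ i, analyticOrderAt (fun ζ => ∑ j, b i j * F ζ j) z = o i := fun i =>
        (ENat.natCast_toNat (order_ne_top (hhd i) (hne i) z)).symm
      have h2 := order_local b hgp htail P hPh hw hP F z (fun j => (hFd j).analyticAt z)
        (hF0 z) o ho1
      have h2' : ((∑ i, (o i - 1) : ℕ) : ℕ∞) ≤ analyticOrderAt Φ z := by rw [hΦdef]; exact h2
      rw [← ENat.natCast_toNat (order_ne_top hΦd hΦ0 z)] at h2'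
      have h3 : ∑ i, (o i - 1) ≤ (analyticOrderAt Φ z).toNat := by exact_mod_cast h2'
      have h4 : ∀ i, (o i : ℤ) ≤ ((o i - 1 : ℕ) : ℤ) + Z i z := by
        intro i
        by_cases hz : ∑ j, b i j * F z j = 0
        · rw [hZ1 i z hz]
          omega
        · have h5 : o i = 0 := by
            have h6 := (AnalyticAt.analyticOrderAt_eq_zero ((hhd i).analyticAt z)).mpr hz
            rw [ho1 i] at h6
            exact_mod_cast h6
          rw [hZ2 i z hz, h5]
          simp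
      rw [locallyFinsuppWithin.coe_add, Pi.add_apply,
        locallyFinsuppWithin.coe_sum, Finset.sum_apply, locallyFinsuppWithin.coe_sum,
        Finset.sum_apply, Dv_apply hΦd]
      have h5 : ∀ i, (Dv (fun z => ∑ j, b i j * F z j)) z = (o i : ℤ) := fun i =>
        Dv_apply (hhd i) z
      simp_rw [h5]
      refine (Finset.sum_le_sum fun i _ => h4 i).trans ?_
      rw [Finset.sum_add_distrib]
      have h6 : ((∑ i, (o i - 1) : ℕ) : ℤ) ≤ (((analyticOrderAt Φ z).toNat : ℕ) : ℤ) :=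
        Int.ofNat_le.mpr h3
      push_cast at h6 ⊢
      linarith
    have h2 := Function.locallyFinsuppWithin.logCounting_le h1 hr
    rw [map_add, map_sum, map_sum, Pi.add_apply, Finset.sum_apply, Finset.sum_apply] at h2
    exact h2
  refine ⟨|C2| + w, by positivity, ?_⟩
  intro r B' hr hB hgood1
  have h2 := hC2 r B' hr hB hgood1
  have h3 := hdiv1 r hr
  have hlogB : 0 ≤ Real.log B' := Real.log_nonneg hB
  have h4 : C2 ≤ |C2| := le_abs_self _
  have h5 : 0 ≤ |C2| * Real.log B' := by positivity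
  have h6 : (0 : ℝ) ≤ (w : ℝ) := Nat.cast_nonneg _
  nlinarith

end Pool.Agent.LG
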