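import Pool.Agent.Lib_MP_b9fedf_lg.Ident
import Pool.Agent.Lib_MP_b9fedf_lg.RamForm
import Pool.Agent.Lib_MP_b9fedf_lo.SmtKey
import Pool.Agent.Lib_MP_b9fedf_lo.GenAvg
import Pool.Agent.Lib_MP_b9fedf_st.Final3

/-! The second main theorem from a form which vanishes on the lines in the hyperplanes. -/

set_option autoImplicit false

namespace Pool.Agent.LG
open MvPolynomial Filter Metric Real Set Function MeromorphicOn ValueDistribution
open Pool.Agent.GGL Pool.Agent.Stat Pool.Agent.LO Pool.Agent.SQ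

/-- the second main theorem, from the form `P` -/
theorem smt_core {k m w : ℕ} {ι : Type} [Fintype ι] (a : ι → Fin (k + 3) → ℂ)
    (g : ℂ → Fin (m + 1) → ℂ) (hg : Differentiable ℂ g) (hg0 : ∀ z, g z ≠ 0)
    (hli : LinearIndependent ℂ (fun (c : Fin (m + 1)) z => g z c))
    (f : ℂ → Fin (k + 3) → ℂ) (B : Fin (k + 3) → Fin (m + 1) → ℂ)
    (hfB : ∀ z j, f z j = ∑ c, B j c * g z c) (hf0 : ∀ z, f z ≠ 0)
    (gm hm : Matrix (Fin (k + 3)) (Fin (k + 3)) ℂ) (hgh : gm * hm = 1)
    (P : MvPolynomial (V k) ℂ) (hPh : P.IsHomogeneous w) (hw : k + 2 ≤ w)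
    (hP : ∀ i, ∀ Z : V k → ℂ, ∑ t, l0 (Matrix.vecMul (a i) gm) t * Z t = 0 →
      ∑ t, l1 (Matrix.vecMul (a i) gm) t * Z t = 0 → eval Z P = 0)
    (hgp : ∀ S : Finset ι, S.card ≤ k + 3 → LinearIndependent ℂ (fun i : S =>
      Matrix.vecMul (a i) gm))
    (htail : ∀ S : Finset ι, S.card ≤ k + 1 → LinearIndependent ℂ (fun i : S =>
      fun j : Fin (k + 1) => Matrix.vecMul (a i) gm j.succ.succ))
    (z₀ : ℂ) (hz₀ : eval (pl (hm.mulVec (f z₀))
      (hm.mulVec (fun j => deriv (fun x => f x j) z₀))) P ≠ 0)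
    {σ : ℝ} (hσ0 : 0 ≤ σ) (hgr : Greedy (fun (i : ι) c => ∑ j, a i j * B j c) σ) :
    ∃ (K : ℝ) (E : Set ℝ), MeasureTheory.volume E < ⊤ ∧ ∀ r, 1 ≤ r → r ∉ E →
      ((Fintype.card ι : ℝ) - (m + 1) * σ - 2 * w) * charT g r ≤
        ∑ i, Nbar (fun z => ∑ j, a i j * f z j) r +
          K * (Real.posLog (charT g r) + Real.log r + 1) := by
  classical
  have hgd : ∀ c, Differentiable ℂ (fun z => g z c) := fun c => differentiable_pi.1 hg c
  have hgz : ∀ z, ∃ c, g z c ≠ 0 := by
    intro z
    by_contra hcon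
    push Not at hcon
    exact hg0 z (funext hcon)
  have hgne : ∀ c, ∃ z, g z c ≠ 0 := by
    intro c
    have := hli.ne_zero c
    by_contra hcon
    push Not at hcon
    exact this (funext hcon)
  have hfd : ∀ j, Differentiable ℂ (fun z => f z j) := by
    intro j
    have h1 : (fun z => f z j) = fun z => ∑ c, B j c * g z c := funext fun z => hfB z j
    rw [h1]
    exact Differentiable.fun_sum fun c _ => (hgd c).const_mul _
  set q : ι → Fin (m + 1) → ℂ := fun i c => ∑ j, a i j * B j c with hq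
  have hqf : ∀ i z, ∑ c, q i c * g z c = ∑ j, a i j * f z j := by
    intro i z
    calc ∑ c, q i c * g z c = ∑ c, ∑ j, a i j * (B j c * g z c) := by
          refine Finset.sum_congr rfl fun c _ => ?_
          rw [hq, Finset.sum_mul]
          exact Finset.sum_congr rfl fun j _ => by ring
      _ = ∑ j, ∑ c, a i j * (B j c * g z c) := Finset.sum_comm
      _ = _ := by
          refine Finset.sum_congr rfl fun j _ => ?_
          rw [hfB z j, Finset.mul_sum]
  set F : ℂ → Fin (k + 3) → ℂ := fun z => hm.mulVec (f z) with hF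
  set B' : Fin (k + 3) → Fin (m + 1) → ℂ := fun j c => ∑ l, hm j l * B l c with hB'
  have hFB : ∀ z j, F z j = ∑ c, B' j c * g z c := by
    intro z j
    calc F z j = ∑ l, hm j l * f z l := rfl
      _ = ∑ l, ∑ c, hm j l * (B l c * g z c) := by
          refine Finset.sum_congr rfl fun l _ => ?_
          rw [hfB z l, Finset.mul_sum]
      _ = ∑ c, ∑ l, hm j l * (B l c * g z c) := Finset.sum_comm
      _ = _ := by
          refine Finset.sum_congr rfl fun c _ => ?_
          rw [hB', Finset.sum_mul]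
          exact Finset.sum_congr rfl fun l _ => by ring
  have hbF : ∀ i z, ∑ j, Matrix.vecMul (a i) gm j * F z j = ∑ j, a i j * f z j := by
    intro i z
    have h1 : Matrix.vecMul (a i) gm ⬝ᵥ F z = a i ⬝ᵥ f z := by
      rw [hF, ← Matrix.dotProduct_mulVec, Matrix.mulVec_mulVec, hgh, Matrix.one_mulVec]
    exact h1
  have hF0 : ∀ z, F z ≠ 0 := by
    intro z h0
    apply hf0 z
    have h1 : gm.mulVec (F z) = f z := by
      rw [hF, Matrix.mulVec_mulVec, hgh, Matrix.one_mulVec]
    rw [← h1, h0, Matrix.mulVec_zero]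
  have hFder : ∀ z, (fun j => deriv (fun x => F x j) z) =
      hm.mulVec (fun j => deriv (fun x => f x j) z) := by
    intro z
    funext j
    have h1 : (fun x => F x j) = fun x => ∑ l, hm j l * f x l := rfl
    have h2 : deriv (fun x => ∑ l, hm j l * f x l) z = ∑ l, deriv (fun x => hm j l * f x l) z :=
      deriv_fun_sum fun l _ => ((hfd l).const_mul (hm j l)).differentiableAt
    rw [h1, h2]
    refine Finset.sum_congr rfl fun l _ => ?_
    exact deriv_const_mul_field (hm j l)
  have hΦ : eval (pl (F z₀) (fun j => deriv (fun x => F x j) z₀)) P ≠ 0 := by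
    rw [hFder]
    exact hz₀
  have hne : ∀ i, ∃ z, ∑ j, Matrix.vecMul (a i) gm j * F z j ≠ 0 := by
    intro i
    by_contra hcon
    push Not at hcon
    apply hΦ
    have h1 : ∑ j, Matrix.vecMul (a i) gm j * deriv (fun x => F x j) z₀ = 0 := by
      have h2 : deriv (fun x => ∑ j, Matrix.vecMul (a i) gm j * F x j) z₀ =
          ∑ j, Matrix.vecMul (a i) gm j * deriv (fun x => F x j) z₀ := by
        rw [deriv_fun_sum fun l _ => ?_]
        · refine Finset.sum_congr rfl fun l _ => ?_
          exact deriv_const_mul_field _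
        · have h3 : Differentiable ℂ (fun x => F x l) :=
            Differentiable.fun_sum (u := Finset.univ) (A := fun c x => hm l c * f x c)
              fun c _ => (hfd c).const_mul _
          exact (h3.const_mul _).differentiableAt
      rw [← h2, show (fun x => ∑ j, Matrix.vecMul (a i) gm j * F x j) = fun _ => (0 : ℂ) from
        funext hcon]
      exact deriv_const _ _
    refine hP i _ ?_ ?_
    · rw [l0_pl, h1, hcon z₀]
      ring
    · rw [l1_pl, h1, hcon z₀]
      ring
  have hqne : ∀ i, ∃ z, ∑ c, q i c * g z c ≠ 0 := by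
    intro i
    obtain ⟨z, hz⟩ := hne i
    exact ⟨z, by rw [hqf, ← hbF]; exact hz⟩
  have hq0 : ∀ i, q i ≠ 0 := by
    intro i h0
    obtain ⟨z, hz⟩ := hqne i
    apply hz
    rw [h0]
    simp
  have hsum : ∀ r, ∑ i, Nbar (fun z => ∑ c, q i c * g z c) r =
      ∑ i, Nbar (fun z => ∑ j, a i j * f z j) r := by
    intro r
    refine Finset.sum_congr rfl fun i _ => ?_
    congr 1
    exact funext (hqf i)
  set κ : ℝ := (Fintype.card ι : ℝ) - (m + 1) * σ - 2 * w with hκdef
  rcases lt_or_ge κ 0 with hκ | hκ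
  · refine ⟨|κ * charT g 1|, ∅, by simp, fun r hr _ => ?_⟩
    have h1 := charT_mono hg hg0 one_pos hr
    have h2 : κ * charT g r ≤ κ * charT g 1 := mul_le_mul_of_nonpos_left h1 hκ.le
    have h3 : 0 ≤ ∑ i, Nbar (fun z => ∑ j, a i j * f z j) r :=
      Finset.sum_nonneg fun a _ => Nbar_nonneg _ hr
    have h4 : 0 ≤ Real.posLog (charT g r) := Real.posLog_nonneg
    have h5 : 0 ≤ Real.log r := Real.log_nonneg hr
    have h6 : |κ * charT g 1| ≤ |κ * charT g 1| * (Real.posLog (charT g r) + Real.log r + 1) :=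
      le_mul_of_one_le_right (abs_nonneg _) (by linarith)
    linarith [le_abs_self (κ * charT g 1)]
  have key := smt_of_key q hq0 g hg hg0 hli hκ (by
    intro Z hZ1 hZ2
    obtain ⟨C1, hC1⟩ := average_gen q hq0 hσ0 hgr (fun c z => g z c) hgd hli
    obtain ⟨C2, hC20, hC2⟩ := ram_form (fun c z => g z c) hgd (hgne 0) F B' hFB hF0
      (fun i => Matrix.vecMul (a i) gm) hgp htail P hPh hw hP hne ⟨z₀, hΦ⟩ Z
      (fun i z h => hZ1 i z (by rw [hqf, ← hbF]; exact h))
      (fun i z h => hZ2 i z (by rw [hqf, ← hbF]; exact h))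
    refine ⟨|C1| + σ * (m + 1) ^ 2 + C2, by positivity, ?_⟩
    intro r B' hr hB' hg1 hg2
    have hlB : 0 ≤ Real.log B' := Real.log_nonneg hB'
    have h1 := hC1 r B' hr hB' hg2
    have h2 := hC2 r B' hr hB' hg1
    have h3 : ∀ i, (fun z => ∑ j, Matrix.vecMul (a i) gm j * F z j) =
        fun z => ∑ c, q i c * g z c := fun i => funext fun z => by rw [hbF, hqf]
    simp only [h3] at h2
    have h5 : circleAverage (fun z => Real.log ‖fun c => g z c‖) 0 r = charT g r := rfl
    rw [h5] at h1 h2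
    have h6 : κ * charT g r = ((Fintype.card ι : ℝ) - (m + 1) * σ) * charT g r -
        2 * w * charT g r := by
      rw [hκdef]
      ring
    rw [h6]
    have h7 : 0 ≤ |C1| * Real.log B' := by positivity
    have h8 : 0 ≤ σ * (m + 1) ^ 2 := by positivity
    have h9 : C1 ≤ |C1| := le_abs_self _
    nlinarith)
  obtain ⟨K, E, hE, hKE⟩ := key
  refine ⟨K, E, hE, fun r hr hrE => ?_⟩
  rw [← hsum r]
  exact hKE r hr hrE

end Pool.Agent.LG
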