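import Pool.Agent.Lib_MP_b9fedf_lg.SmtCore
import Pool.Agent.Lib_MP_b9fedf_lg.SpanRed
import Pool.Agent.Lib_MP_b9fedf_lg.GenForm
import Pool.Agent.Lib_MP_b9fedf_lg.GreedySub

/-! The second main theorem with truncation level one for generic hyperplanes. -/

set_option autoImplicit false

namespace Pool.Agent.LG
open MvPolynomial
open Pool.Agent.GGL Pool.Agent.Stat Pool.Agent.LO Pool.Agent.SQ

private theorem num_w (k s : ℕ) (hs : 2 ≤ s) :
    (((2 * k + 2) * (s - 1) : ℕ) : ℝ) = (2 * (k : ℝ) + 2) * (s - 1) := by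
  obtain ⟨t, rfl⟩ : ∃ t, s = t + 1 := ⟨s - 1, by omega⟩
  push_cast
  simp

/-- the common part -/
private theorem smt_aux {k s : ℕ} {ι : Type} [Fintype ι] [DecidableEq ι] (hs : 2 ≤ s)
    (a : ι → Fin (k + 3) → ℂ) (ha : GenForm s a)
    (f : ℂ → Fin (k + 3) → ℂ) (hf : Differentiable ℂ f) (hf0 : ∀ z, f z ≠ 0)
    (hnc : ¬ ∀ z w, ∃ c : ℂ, f w = c • f z)
    {m : ℕ} (g : ℂ → Fin (m + 1) → ℂ) (hg : Differentiable ℂ g) (hg0 : ∀ z, g z ≠ 0)
    (hli : LinearIndependent ℂ (fun (c : Fin (m + 1)) z => g z c))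
    (B : Fin (k + 3) → Fin (m + 1) → ℂ) (D : Fin (m + 1) → Fin (k + 3) → ℂ)
    (hfB : ∀ z j, f z j = ∑ c, B j c * g z c) (hgD : ∀ z c, g z c = ∑ j, D c j * f z j)
    {σ : ℝ} (hσ : 0 ≤ σ) {τ : ℝ} (hτ : (m + 1) * σ ≤ τ) (hkτ : (k : ℝ) + 3 ≤ τ)
    (hgr : ∀ T : Finset ι, k + 3 ≤ T.card → Greedy (fun (i : T) c => ∑ j, a i j * B j c) σ) :
    ∃ (K : ℝ) (E : Set ℝ), MeasureTheory.volume E < ⊤ ∧ ∀ r, 1 ≤ r → r ∉ E →
      ((Fintype.card ι : ℝ) - (k + 1) * (4 * s - 2) - τ) * charT f r ≤
        ∑ i, Nbar (fun z => ∑ j, a i j * f z j) r +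
          K * (Real.posLog (charT f r) + Real.log r + 1) := by
  classical
  set κf : ℝ := (Fintype.card ι : ℝ) - (k + 1) * (4 * s - 2) - τ with hκf
  have hs1 : (2 : ℝ) ≤ s := by exact_mod_cast hs
  have hk0 : (0 : ℝ) ≤ k := Nat.cast_nonneg k
  rcases lt_or_ge κf 0 with hneg | hκ0
  · refine ⟨|κf * charT f 1|, ∅, by simp, fun r hr _ => ?_⟩
    have h1 := charT_mono hf hf0 one_pos hr
    have h2 : κf * charT f r ≤ κf * charT f 1 := mul_le_mul_of_nonpos_left h1 hneg.le
    have h3 : 0 ≤ ∑ i, Nbar (fun z => ∑ j, a i j * f z j) r :=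
      Finset.sum_nonneg fun a _ => Nbar_nonneg _ hr
    have h4 : 0 ≤ Real.posLog (charT f r) := Real.posLog_nonneg
    have h5 : 0 ≤ Real.log r := Real.log_nonneg hr
    have h6 : |κf * charT f 1| ≤ |κf * charT f 1| * (Real.posLog (charT f r) + Real.log r + 1) :=
      le_mul_of_one_le_right (abs_nonneg _) (by linarith)
    linarith [le_abs_self (κf * charT f 1)]
  obtain ⟨z₀, hz₀⟩ := exists_tangent f hf hf0 hnc
  obtain ⟨R, gm, hm, P, hR, hgh, hPh, hP, htail, hPz⟩ :=
    ha.2 (f z₀) (fun j => deriv (fun x => f x j) z₀) hz₀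
  have hgp := fun S hS => gp_vecMul ha.1 hgh S hS
  set T : Finset ι := Finset.univ \ R with hT
  have hTc : (Fintype.card ι : ℝ) - (2 * k + 2) ≤ T.card := by
    have h1 : T.card + R.card = Fintype.card ι := by
      rw [hT, Finset.card_sdiff_add_card_eq_card (Finset.subset_univ R), Finset.card_univ]
    have h2 : (T.card : ℝ) + R.card = Fintype.card ι := by exact_mod_cast h1
    have h3 : (R.card : ℝ) ≤ 2 * k + 2 := by exact_mod_cast hR
    linarith
  have hTk : k + 3 ≤ T.card := by
    have h1 : (k : ℝ) + 3 ≤ T.card := by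
      have h2 : 0 ≤ ((k : ℝ) + 1) * (4 * s - 4) := mul_nonneg (by linarith) (by linarith)
      nlinarith
    exact_mod_cast h1
  have hmemT : ∀ i : T, (i : ι) ∉ R := fun i => (Finset.mem_sdiff.mp i.2).2
  have hw : k + 2 ≤ (2 * k + 2) * (s - 1) := by
    have h1 : 1 ≤ s - 1 := by omega
    nlinarith
  obtain ⟨K, E, hE, hKE⟩ := smt_core (fun i : T => a i) g hg hg0 hli f B hfB hf0 gm hm hgh P hPh
    hw (fun i Z h0 h1 => hP i (hmemT i) Z h0 h1)
    (fun S hS => by
      have h1 := hgp (S.map (Function.Embedding.subtype _)) (by rwa [Finset.card_map])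
      let e : S → (S.map (Function.Embedding.subtype (fun i => i ∈ T))) := fun i =>
        ⟨i, Finset.mem_map.mpr ⟨i, i.2, rfl⟩⟩
      have he : Function.Injective e := by
        intro x y hxy
        have h2 := congrArg Subtype.val hxy
        exact Subtype.ext (Subtype.ext h2)
      exact h1.comp e he)
    (fun S hS => by
      have h1 := htail (S.map (Function.Embedding.subtype _)) (by rwa [Finset.card_map])
      let e : S → (S.map (Function.Embedding.subtype (fun i => i ∈ T))) := fun i =>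
        ⟨i, Finset.mem_map.mpr ⟨i, i.2, rfl⟩⟩
      have he : Function.Injective e := by
        intro x y hxy
        have h2 := congrArg Subtype.val hxy
        exact Subtype.ext (Subtype.ext h2)
      exact h1.comp e he)
    z₀ hPz hσ (hgr T hTk)
  set κg : ℝ := (Fintype.card T : ℝ) - (m + 1) * σ - 2 * ((2 * k + 2) * (s - 1) : ℕ) with hκg
  have hκ : κf ≤ κg := by
    rw [hκg, hκf, num_w k s hs, Fintype.card_coe]
    have h1 : (2 : ℝ) * ((2 * k + 2) * (s - 1)) + (2 * k + 2) = (k + 1) * (4 * s - 2) := by ring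
    linarith
  have hfd : ∀ a, Differentiable ℂ (fun z => f z a) := fun a => differentiable_pi.1 hf a
  have hgd : ∀ a, Differentiable ℂ (fun z => g z a) := fun a => differentiable_pi.1 hg a
  have hf0' : ∀ z, ∃ x, f z x ≠ 0 := by
    intro z
    by_contra hcon
    push Not at hcon
    exact hf0 z (funext hcon)
  have hg0' : ∀ z, ∃ x, g z x ≠ 0 := by
    intro z
    by_contra hcon
    push Not at hcon
    exact hg0 z (funext hcon)
  obtain ⟨c₁, hc₁, hc₁'⟩ := TF_linear_le (F := fun k z => f z k) (G := fun b z => g z b)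
    hfd hgd hf0' (fun b k => B k b) (fun k z => hfB z k)
  obtain ⟨c₂, hc₂, hc₂'⟩ := TF_linear_le (F := fun b z => g z b) (G := fun k z => f z k)
    hgd hfd hg0' (fun k b => D b k) (fun b z => hgD z b)
  set c : ℝ := max (max c₁ c₂) |charT g 1| with hc
  have hcc1 : c₁ ≤ c := (le_max_left _ _).trans (le_max_left _ _)
  have hcc2 : c₂ ≤ c := (le_max_right _ _).trans (le_max_left _ _)
  have hcc3 : |charT g 1| ≤ c := le_max_right _ _
  refine ⟨|K| * (1 + Real.log 2 + Real.posLog c) + κg * c, E, hE, fun r hr hrE => ?_⟩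
  have h1 := hKE r hr hrE
  have h2 := charT_mono hg hg0 one_pos hr
  have h3 := neg_abs_le (charT g 1)
  have h4 : ∑ i : T, Nbar (fun z => ∑ j, a i j * f z j) r ≤
      ∑ i, Nbar (fun z => ∑ j, a i j * f z j) r := by
    rw [Finset.sum_coe_sort T (fun i => Nbar (fun z => ∑ j, a i j * f z j) r)]
    exact Finset.sum_le_sum_of_subset_of_nonneg (Finset.subset_univ T)
      fun a _ _ => Nbar_nonneg _ hr
  have h5 := transfer (Tf := charT f r) (Tg := charT g r) hκ0 hκ (hc₁.trans hcc1)
    ((hc₁' r).trans (by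
      show TF (fun b z => g z b) r + c₁ ≤ TF (fun b z => g z b) r + c
      linarith))
    ((hc₂' r).trans (by
      show TF (fun b z => f z b) r + c₂ ≤ TF (fun b z => f z b) r + c
      linarith)) (by linarith) hr h1
  linarith

/-- **The second main theorem with truncation level one for generic hyperplanes**, linearly
non-degenerate curves. -/
theorem smt_nondeg {k s : ℕ} {ι : Type} [Fintype ι] [DecidableEq ι] (hs : 2 ≤ s)
    (a : ι → Fin (k + 3) → ℂ) (ha : GenForm s a)
    (f : ℂ → Fin (k + 3) → ℂ) (hf : Differentiable ℂ f) (hf0 : ∀ z, f z ≠ 0)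
    (hli : LinearIndependent ℂ (fun (c : Fin (k + 3)) z => f z c)) :
    ∃ (K : ℝ) (E : Set ℝ), MeasureTheory.volume E < ⊤ ∧ ∀ r, 1 ≤ r → r ∉ E →
      ((Fintype.card ι : ℝ) - (k + 1) * (4 * s - 2) - (k + 3)) * charT f r ≤
        ∑ i, Nbar (fun z => ∑ j, a i j * f z j) r +
          K * (Real.posLog (charT f r) + Real.log r + 1) := by
  classical
  have hnc : ¬ ∀ z w, ∃ c : ℂ, f w = c • f z := by
    intro h
    choose c hc using h 0
    have h1 : ∀ (j : Fin (k + 3)) z, f z j = c z * f 0 j := fun j z => by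
      rw [hc z]
      rfl
    have h2 : LinearIndependent ℂ ![fun z => f z 0, fun z => f z 1] := by
      have h3 := hli.comp (![0, 1] : Fin 2 → Fin (k + 3)) (by
        intro x y hxy
        have h01 : (0 : Fin (k + 3)) ≠ 1 := by simp [Fin.ext_iff]
        fin_cases x <;> fin_cases y
        · rfl
        · exact absurd hxy h01
        · exact absurd hxy.symm h01
        · rfl)
      have h4 : (fun (c : Fin (k + 3)) z => f z c) ∘ (![0, 1] : Fin 2 → Fin (k + 3)) =
          ![fun z => f z 0, fun z => f z 1] := by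
        funext x
        fin_cases x <;> rfl
      rwa [h4] at h3
    rw [LinearIndependent.pair_iff] at h2
    have h3 := h2 (f 0 1) (-f 0 0) (by
      funext z
      simp only [Pi.add_apply, Pi.smul_apply, smul_eq_mul, Pi.zero_apply]
      rw [h1 0 z, h1 1 z]
      ring)
    have h4 : f 0 0 = 0 := neg_eq_zero.mp h3.2
    apply hli.ne_zero 0
    funext z
    rw [h1 0 z, h4, mul_zero]
    rfl
  refine smt_aux (σ := 1) (τ := (k : ℝ) + 3) hs a ha f hf hf0 hnc f hf hf0 hli
    (fun j c => if j = c then 1 else 0) (fun j c => if j = c then 1 else 0) (by simp) (by simp)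
    zero_le_one (by push_cast; linarith) le_rfl ?_
  intro T hT
  have e : Fin T.card ≃ T := (Fintype.equivFinOfCardEq (Fintype.card_coe T)).symm
  apply Greedy.of_equiv e
  have hgp := ha.1
  refine pgreedy_gen (fun i => fun c => ∑ j, a (e i) j * (if j = c then (1 : ℂ) else 0)) hT ?_
  intro κ hκ
  have h1 : ∀ i : Fin T.card, (fun c => ∑ j, a (e i) j * (if j = c then (1 : ℂ) else 0)) =
      a (e i) := fun i => funext fun c => by simp
  rw [show (fun k_1 => (fun i : Fin T.card => fun c => ∑ j, a (e i) j *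
      (if j = c then (1 : ℂ) else 0)) (κ k_1)) = fun i => a (e (κ i)) from funext fun i => h1 (κ i)]
  -- `n + 1` members of the family
  set S : Finset ι := Finset.univ.image (fun i => ((e (κ i) : T) : ι)) with hS
  have hinj : Function.Injective (fun i => ((e (κ i) : T) : ι)) :=
    Subtype.val_injective.comp (e.injective.comp hκ)
  have h2 := hgp S (by
    rw [hS, Finset.card_image_of_injective _ hinj, Finset.card_univ, Fintype.card_fin])
  let u : Fin (k + 2 + 1) → S := fun i => ⟨e (κ i), Finset.mem_image.mpr ⟨i, Finset.mem_univ _, rfl⟩⟩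
  have hu : Function.Injective u := by
    intro x y hxy
    have h3 := congrArg (fun v : S => (v : ι)) hxy
    exact hinj h3
  exact h2.comp u hu

/-- **The second main theorem with truncation level one for generic hyperplanes**, all non-constant
curves. -/
theorem smt_all {k s : ℕ} {ι : Type} [Fintype ι] [DecidableEq ι] (hs : 2 ≤ s)
    (a : ι → Fin (k + 3) → ℂ) (ha : GenForm s a)
    (f : ℂ → Fin (k + 3) → ℂ) (hf : Differentiable ℂ f) (hf0 : ∀ z, f z ≠ 0)
    (hnc : ¬ ∀ z w, ∃ c : ℂ, f w = c • f z) :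
    ∃ (K : ℝ) (E : Set ℝ), MeasureTheory.volume E < ⊤ ∧ ∀ r, 1 ≤ r → r ∉ E →
      ((Fintype.card ι : ℝ) - (k + 1) * (4 * s - 2) - (k + 2) ^ 2) * charT f r ≤
        ∑ i, Nbar (fun z => ∑ j, a i j * f z j) r +
          K * (Real.posLog (charT f r) + Real.log r + 1) := by
  classical
  have hk0 : (0 : ℝ) ≤ k := Nat.cast_nonneg k
  obtain ⟨m, g, B, κ, hm1, hmN, hg, hg0, hli, hfB, hgκ, hBκ, hκ⟩ := span_reduce f hf hf0 hnc
  rcases Nat.lt_or_ge (m + 1) (k + 3) with hlt | hge
  swap
  · -- linearly non-degenerate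
    have hmk : m + 1 = k + 3 := le_antisymm hmN hge
    have hli' : LinearIndependent ℂ (fun (c : Fin (k + 3)) z => f z c) := by
      have hbij : Function.Bijective κ := by
        rw [Fintype.bijective_iff_injective_and_card]
        exact ⟨hκ, by simpa using hmk⟩
      set e : Fin (m + 1) ≃ Fin (k + 3) := Equiv.ofBijective κ hbij with he
      have h1 := hli.comp e.symm e.symm.injective
      have h2 : (fun (c : Fin (m + 1)) z => g z c) ∘ e.symm = fun (c : Fin (k + 3)) z => f z c := by
        funext c z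
        show g z (e.symm c) = f z c
        rw [hgκ]
        have h3 : κ (e.symm c) = c := e.apply_symm_apply c
        rw [h3]
      rwa [h2] at h1
    obtain ⟨K, E, hE, hKE⟩ := smt_nondeg hs a ha f hf hf0 hli'
    set x : ℝ := (Fintype.card ι : ℝ) - (k + 1) * (4 * s - 2) with hx
    set y : ℝ := ((k : ℝ) + 2) ^ 2 - (k + 3) with hy
    have hy0 : 0 ≤ y := by
      rw [hy]
      nlinarith
    refine ⟨K + y * |charT f 1|, E, hE, fun r hr hrE => ?_⟩
    have h1 := hKE r hr hrE
    have h2 := charT_mono hf hf0 one_pos hr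
    have h3 := neg_abs_le (charT f 1)
    have hpl : 0 ≤ Real.posLog (charT f r) := Real.posLog_nonneg
    have hlr : 0 ≤ Real.log r := Real.log_nonneg hr
    set X : ℝ := Real.posLog (charT f r) + Real.log r + 1 with hX
    have hX1 : 1 ≤ X := by linarith
    have h4 : 0 ≤ y * |charT f 1| := mul_nonneg hy0 (abs_nonneg _)
    have h5 : y * |charT f 1| ≤ y * |charT f 1| * X := le_mul_of_one_le_right h4 hX1
    have h6 : (x - (k + 2) ^ 2) * charT f r = (x - (k + 3)) * charT f r - y * charT f r := by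
      rw [hy]
      ring
    have h7 : -(y * |charT f 1|) ≤ y * charT f r := by
      have := mul_le_mul_of_nonneg_left (h3.trans h2) hy0
      linarith
    rw [h6]
    have h8 : (K + y * |charT f 1|) * X = K * X + y * |charT f 1| * X := by ring
    rw [h8]
    linarith
  -- degenerate
  refine smt_aux (σ := (k : ℝ) + 2) (τ := ((k : ℝ) + 2) ^ 2) hs a ha f hf hf0 hnc g hg hg0 hli
    B (fun c j => if κ c = j then 1 else 0) hfB (by simp [hgκ]) (by positivity) ?_ ?_ ?_
  · have h1 : (m : ℝ) + 1 ≤ k + 2 := by exact_mod_cast (by omega : m + 1 ≤ k + 2)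
    rw [pow_two]
    exact mul_le_mul_of_nonneg_right h1 (by positivity)
  · nlinarith
  intro T hT
  have hsurj : Function.Surjective (fun v : Fin (k + 3) → ℂ => fun c => ∑ j, v j * B j c) := by
    intro w
    refine ⟨fun j => ∑ c, if κ c = j then w c else 0, ?_⟩
    funext c'
    have h4 : ∑ j, (∑ c, if κ c = j then w c else 0) * B j c' = ∑ c, w c * B (κ c) c' := by
      simp only [Finset.sum_mul]
      rw [Finset.sum_comm]
      apply Finset.sum_congr rfl
      intro b _
      simp [ite_mul]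
    show ∑ j, (∑ c, if κ c = j then w c else 0) * B j c' = w c'
    rw [h4]
    simp only [hBκ, mul_ite, mul_one, mul_zero, Finset.sum_ite_eq', Finset.mem_univ, if_true]
  let L : (Fin (k + 3) → ℂ) →ₗ[ℂ] (Fin (m + 1) → ℂ) :=
    { toFun := fun v c => ∑ j, v j * B j c
      map_add' := by
        intro v w
        funext c
        simp [add_mul, Finset.sum_add_distrib]
      map_smul' := by
        intro t v
        funext c
        simp [Finset.mul_sum, mul_assoc] }
  have hspan : ∀ S : Finset T, S.card = k + 2 + 1 →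
      Submodule.span ℂ ((fun (i : T) c => ∑ j, a i j * B j c) '' (S : Set T)) = ⊤ := by
    intro S hS
    have h1 := ha.1 (S.map (Function.Embedding.subtype _)) (by
      rw [Finset.card_map, hS])
    have h2 : Submodule.span ℂ (Set.range (fun i : (S.map (Function.Embedding.subtype
        (fun i => i ∈ T)) : Finset ι) => a i)) = ⊤ := by
      apply h1.span_eq_top_of_card_eq_finrank'
      rw [Fintype.card_coe, Finset.card_map, hS, Module.finrank_fin_fun]
    have h3 : ((fun (i : T) c => ∑ j, a i j * B j c) '' (S : Set T)) =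
        L '' (Set.range (fun i : (S.map (Function.Embedding.subtype
        (fun i => i ∈ T)) : Finset ι) => a i)) := by
      ext x
      constructor
      · rintro ⟨i, hi, rfl⟩
        exact ⟨a i, ⟨⟨i, Finset.mem_map.mpr ⟨i, hi, rfl⟩⟩, rfl⟩, rfl⟩
      · rintro ⟨_, ⟨⟨j, hj⟩, rfl⟩, rfl⟩
        obtain ⟨i, hi, rfl⟩ := Finset.mem_map.mp hj
        exact ⟨i, hi, rfl⟩
    rw [h3, Submodule.span_image, h2, Submodule.map_top, LinearMap.range_eq_top]
    exact hsurj
  by_cases hz : ∀ i : T, (fun c => ∑ j, a i j * B j c) ≠ 0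
  · have h1 := greedy_sub (n := k + 2) (fun (i : T) c => ∑ j, a i j * B j c) hz (by
      rw [Fintype.card_coe]
      exact hT) hspan
    have h2 : ((k + 2 : ℕ) : ℝ) = (k : ℝ) + 2 := by push_cast; ring
    rwa [h2] at h1
  · push Not at hz
    obtain ⟨i, hi⟩ := hz
    refine ⟨0, fun x hx => ?_⟩
    exfalso
    apply hx i
    have h1 : ∀ c, (∑ j, a i j * B j c) = 0 := fun c => congrFun hi c
    simp [h1]

end Pool.Agent.LG
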