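import Pool.Agent.Lib_MP_b9fedf_lg.Kernel

/-! [LG-A3]: the universal form. -/

set_option autoImplicit false

namespace Pool.Agent.LG
open MvPolynomial

private theorem uf_hom {F : Type} [CommRing F] {k : ℕ} (b : Fin (k + 3) → F) (s : V k) :
    (par b s).IsHomogeneous 1 := by
  have hC : ∀ (c : F) (t : T k), (C c * X t : MvPolynomial (T k) F).IsHomogeneous 1 := by
    intro c t
    simpa using (isHomogeneous_C (T k) c).mul (isHomogeneous_X F t)
  rcases s with s | s | s
  · exact hC _ _
  · refine Fin.cases ?_ (fun j => ?_) s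
    · show (-(C (b 1) * X (Sum.inl ()) +
          ∑ j : Fin k, C (b j.succ.succ.succ) * X (Sum.inr (Sum.inl j))) : MvPolynomial (T k) F).IsHomogeneous 1
      exact ((hC _ _).add (IsHomogeneous.sum _ _ _ fun j _ => hC _ _)).neg
    · exact hC _ _
  · refine Fin.cases ?_ (fun j => ?_) s
    · show (C (b 0) * X (Sum.inl ()) -
          ∑ j : Fin k, C (b j.succ.succ.succ) * X (Sum.inr (Sum.inr j)) : MvPolynomial (T k) F).IsHomogeneous 1
      exact (hC _ _).sub (IsHomogeneous.sum _ _ _ fun j _ => hC _ _)
    · exact hC _ _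

private theorem uf_map {A F : Type} [CommRing A] [CommRing F] (f : A →+* F) {k : ℕ}
    (b : Fin (k + 3) → A) (s : V k) : map f (par b s) = par (fun j => f (b j)) s := by
  rcases s with s | s | s
  · show map f (C (b 2) * X (Sum.inl ())) = C (f (b 2)) * X (Sum.inl ())
    simp
  · refine Fin.cases ?_ (fun j => ?_) s
    · show map f (-(C (b 1) * X (Sum.inl ()) +
          ∑ j : Fin k, C (b j.succ.succ.succ) * X (Sum.inr (Sum.inl j))) : MvPolynomial (T k) A) =
        -(C (f (b 1)) * X (Sum.inl ()) +
          ∑ j : Fin k, C (f (b j.succ.succ.succ)) * X (Sum.inr (Sum.inl j)))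
      simp
    · show map f (C (b 2) * X (Sum.inr (Sum.inl j))) = C (f (b 2)) * X (Sum.inr (Sum.inl j))
      simp
  · refine Fin.cases ?_ (fun j => ?_) s
    · show map f (C (b 0) * X (Sum.inl ()) -
          ∑ j : Fin k, C (b j.succ.succ.succ) * X (Sum.inr (Sum.inr j)) : MvPolynomial (T k) A) =
        C (f (b 0)) * X (Sum.inl ()) -
          ∑ j : Fin k, C (f (b j.succ.succ.succ)) * X (Sum.inr (Sum.inr j))
      simp
    · show map f (C (b 2) * X (Sum.inr (Sum.inr j))) = C (f (b 2)) * X (Sum.inr (Sum.inr j))
      simp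

/-- clearing denominators -/
private theorem uf_clear {A : Type} [CommRing A] [IsDomain A] {σ : Type} (w : ℕ)
    (P : MvPolynomial σ (FractionRing A)) (h : P.IsHomogeneous w) :
    ∃ (d : FractionRing A) (Q : MvPolynomial σ A), d ≠ 0 ∧ Q.IsHomogeneous w ∧
      map (algebraMap A (FractionRing A)) Q = d • P := by
  classical
  obtain ⟨b, hb⟩ := IsLocalization.exist_integer_multiples (nonZeroDivisors A) P.support
    (fun m => coeff m P)
  have hb' : ∀ m : P.support, ∃ a : A, algebraMap A (FractionRing A) a = (b : A) • coeff m.1 P :=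
    fun m => hb m.1 m.2
  choose a ha using hb'
  refine ⟨algebraMap A (FractionRing A) b, ∑ m : P.support, monomial m.1 (a m), ?_, ?_, ?_⟩
  · intro h0
    rw [IsFractionRing.to_map_eq_zero_iff] at h0
    exact nonZeroDivisors.coe_ne_zero b h0
  · refine IsHomogeneous.sum _ _ _ fun m _ => ?_
    refine isHomogeneous_monomial _ ?_
    have h1 := h (mem_support_iff.1 m.2)
    rw [← h1]
    rw [Finsupp.degree_eq_weight_one]
    rfl
  · rw [map_sum]
    have h1 : ∀ m : P.support, map (algebraMap A (FractionRing A)) (monomial m.1 (a m)) =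
        (algebraMap A (FractionRing A) b) • monomial m.1 (coeff m.1 P) := by
      intro m
      rw [map_monomial, ha, Algebra.smul_def, smul_monomial, smul_eq_mul]
    simp_rw [h1]
    rw [← Finset.smul_sum]
    congr 1
    rw [Finset.sum_coe_sort P.support (fun m => monomial m (coeff m P))]
    exact P.support_sum_monomial_coeff

/-- [LG-A3] The universal form: a form of degree `w` with coefficients in `ℚ[b_ij]` which vanishes
on the lines in each of the hyperplanes `b_i`.  (`forms_kernel` over the fraction field of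
`MvPolynomial (ι × Fin (k + 3)) ℚ` with `φ i = par (fun j => algebraMap _ _ (X (i, j)))`,
then clear the denominators, e.g. `IsLocalization.exist_integer_multiples`.) -/
theorem universal_form {k s : ℕ} {ι : Type} [Fintype ι] (hs : 2 ≤ s)
    (hq : Fintype.card ι ≤ s ^ 2) :
    ∃ P : MvPolynomial (V k) (MvPolynomial (ι × Fin (k + 3)) ℚ), P ≠ 0 ∧
      P.IsHomogeneous ((2 * k + 2) * (s - 1)) ∧
      ∀ i, aeval (par (fun j : Fin (k + 3) => (X (i, j) : MvPolynomial (ι × Fin (k + 3)) ℚ))) P = 0 := by
  set A := MvPolynomial (ι × Fin (k + 3)) ℚ with hA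
  have hcard := choose_lt (k := k) hs hq
  obtain ⟨P, hP0, hPh, hPv⟩ := forms_kernel (F := FractionRing A) (σ := V k) (τ := T k) (ι := ι)
    ((2 * k + 2) * (s - 1))
    (fun i => par (fun j : Fin (k + 3) => algebraMap A (FractionRing A) (X (i, j))))
    (fun i v => uf_hom _ v) (by
      have h1 : Fintype.card (T k) = 2 * k + 1 := by
        simp [T]
        ring
      have h2 : Fintype.card (V k) = 2 * k + 3 := by
        simp [V]
        ring
      rw [h1, h2]
      exact hcard)
  obtain ⟨d, Q, hd, hQh, hQ⟩ := uf_clear _ P hPh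
  refine ⟨Q, ?_, hQh, fun i => ?_⟩
  · rintro rfl
    rw [map_zero] at hQ
    exact smul_ne_zero hd hP0 hQ.symm
  · apply map_injective (algebraMap A (FractionRing A)) (IsFractionRing.injective A (FractionRing A))
    rw [map_zero]
    have h1 : map (algebraMap A (FractionRing A))
        (aeval (par (fun j : Fin (k + 3) => (X (i, j) : A))) Q) =
        aeval (par (fun j : Fin (k + 3) => algebraMap A (FractionRing A) (X (i, j))))
          (map (algebraMap A (FractionRing A)) Q) := by
      rw [aeval_def, aeval_def, eval₂_map, hom_eval₂]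
      congr 1
      · refine RingHom.ext fun c => ?_
        show map (algebraMap A (FractionRing A)) (C c) = C (algebraMap A (FractionRing A) c)
        rw [map_C]
      · funext v
        exact uf_map _ _ v
    rw [h1, hQ, map_smul, hPv, smul_zero]

end Pool.Agent.LG
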